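import Mathlib

/-!
# Complemented embeddings and Pełczyński's decomposition method
-/

set_option autoImplicit false

namespace Pool.Agent.Helper93

open scoped ENNReal

section linf

variable {ι : Type*} {Z : ι → Type*} [∀ i, NormedAddCommGroup (Z i)]

/-- a bounded family as an element of the `ℓ_∞`-sum -/
def linfMk (f : ∀ i, Z i) (C : ℝ) (h : ∀ i, ‖f i‖ ≤ C) : lp Z ∞ :=
  ⟨f, memℓp_infty ⟨C, by rintro _ ⟨i, rfl⟩; exact h i⟩⟩

@[simp] lemma linfMk_apply (f : ∀ i, Z i) (C : ℝ) (h : ∀ i, ‖f i‖ ≤ C) (i : ι) :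
    linfMk f C h i = f i := rfl

lemma linf_norm_apply_le (f : lp Z ∞) (i : ι) : ‖f i‖ ≤ ‖f‖ :=
  lp.norm_apply_le_norm ENNReal.top_ne_zero f i

variable [∀ i, NormedSpace ℝ (Z i)]
variable {A : Type*} [NormedAddCommGroup A] [NormedSpace ℝ A]

/-- the operator into an `ℓ_∞`-sum with prescribed coordinates -/
noncomputable def linfPi (L : ∀ i, A →ₗ[ℝ] Z i) (C : ℝ) (hC : 0 ≤ C)
    (h : ∀ i a, ‖L i a‖ ≤ C * ‖a‖) : A →L[ℝ] lp Z ∞ :=
  LinearMap.mkContinuous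
    { toFun := fun a => linfMk (fun i => L i a) (C * ‖a‖) (fun i => h i a)
      map_add' := by
        intro a b
        apply lp.ext
        ext i
        simp
      map_smul' := by
        intro c a
        apply lp.ext
        ext i
        simp } C (fun a => lp.norm_le_of_forall_le (by positivity) (fun i => h i a))

@[simp] lemma linfPi_apply (L : ∀ i, A →ₗ[ℝ] Z i) (C : ℝ) (hC : 0 ≤ C)
    (h : ∀ i a, ‖L i a‖ ≤ C * ‖a‖) (a : A) (i : ι) : linfPi L C hC h a i = L i a := rfl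

lemma linfPi_norm_le (L : ∀ i, A →ₗ[ℝ] Z i) (C : ℝ) (hC : 0 ≤ C)
    (h : ∀ i a, ‖L i a‖ ≤ C * ‖a‖) : ‖linfPi L C hC h‖ ≤ C :=
  LinearMap.mkContinuous_norm_le _ hC _

/-- evaluation at a coordinate -/
noncomputable def linfEval (i : ι) : lp Z ∞ →ₗ[ℝ] Z i where
  toFun f := f i
  map_add' f g := by simp
  map_smul' c f := by simp

@[simp] lemma linfEval_apply (i : ι) (f : lp Z ∞) : linfEval i f = f i := rfl

end linf

/-- `A` is `C`-complemented in `B`: the identity of `A` factors through `B` by operators of norm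
at most `C`. -/
def UC (C : ℝ) (A B : Type*) [NormedAddCommGroup A] [NormedSpace ℝ A]
    [NormedAddCommGroup B] [NormedSpace ℝ B] : Prop :=
  ∃ (T : A →L[ℝ] B) (S : B →L[ℝ] A), (∀ a, S (T a) = a) ∧ ‖T‖ ≤ C ∧ ‖S‖ ≤ C

/-- the identity of `A` factors through `B` -/
def CE (A B : Type*) [NormedAddCommGroup A] [NormedSpace ℝ A]
    [NormedAddCommGroup B] [NormedSpace ℝ B] : Prop :=
  ∃ (T : A →L[ℝ] B) (S : B →L[ℝ] A), ∀ a, S (T a) = a

section

variable {A B D : Type*} [NormedAddCommGroup A] [NormedSpace ℝ A]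
    [NormedAddCommGroup B] [NormedSpace ℝ B] [NormedAddCommGroup D] [NormedSpace ℝ D]

lemma UC.ce {C : ℝ} (h : UC C A B) : CE A B := by
  obtain ⟨T, S, h1, -, -⟩ := h
  exact ⟨T, S, h1⟩

lemma CE.uc (h : CE A B) : ∃ C : ℝ, 0 ≤ C ∧ UC C A B := by
  obtain ⟨T, S, h1⟩ := h
  exact ⟨max ‖T‖ ‖S‖, le_max_of_le_left (norm_nonneg _), T, S, h1, le_max_left _ _, le_max_right _ _⟩

lemma UC.mono {C C' : ℝ} (h : UC C A B) (hC : C ≤ C') : UC C' A B := by
  obtain ⟨T, S, h1, h2, h3⟩ := h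
  exact ⟨T, S, h1, h2.trans hC, h3.trans hC⟩

lemma UC.trans {C C' : ℝ} (h : UC C A B) (h' : UC C' B D) : UC (C * C') A D := by
  obtain ⟨T, S, h1, h2, h3⟩ := h
  obtain ⟨T', S', h1', h2', h3'⟩ := h'
  have hC : 0 ≤ C := (norm_nonneg _).trans h2
  have hC' : 0 ≤ C' := (norm_nonneg _).trans h2'
  refine ⟨T'.comp T, S.comp S', fun a => ?_, ?_, ?_⟩
  · simp only [ContinuousLinearMap.comp_apply, h1', h1]
  · calc ‖T'.comp T‖ ≤ ‖T'‖ * ‖T‖ := ContinuousLinearMap.opNorm_comp_le _ _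
      _ ≤ C' * C := mul_le_mul h2' h2 (norm_nonneg _) hC'
      _ = C * C' := mul_comm _ _
  · calc ‖S.comp S'‖ ≤ ‖S‖ * ‖S'‖ := ContinuousLinearMap.opNorm_comp_le _ _
      _ ≤ C * C' := mul_le_mul h3 h3' (norm_nonneg _) hC

lemma CE.trans (h : CE A B) (h' : CE B D) : CE A D := by
  obtain ⟨T, S, h1⟩ := h
  obtain ⟨T', S', h1'⟩ := h'
  exact ⟨T'.comp T, S.comp S', fun a => by simp only [ContinuousLinearMap.comp_apply, h1', h1]⟩

lemma CE.of_equiv (e : A ≃L[ℝ] B) : CE A B :=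
  ⟨e, e.symm, fun a => e.symm_apply_apply a⟩

end

/-- Pełczyński's trick: if the `ℓ_∞`-sum of countably many copies of `Z` is complemented in `Z`,
and `W` is complemented in `Z`, then `W × Z` is isomorphic to `Z`. -/
theorem prod_equiv_of_ce {W Z : Type*} [NormedAddCommGroup W] [NormedSpace ℝ W]
    [NormedAddCommGroup Z] [NormedSpace ℝ Z] (hW : CE W Z)
    (hZ : CE (lp (fun _ : ℕ => Z) ∞) Z) : Nonempty ((W × Z) ≃L[ℝ] Z) := by
  obtain ⟨T, S, hTS⟩ := hW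
  obtain ⟨J, Q, hJQ⟩ := hZ
  -- the modified shifts
  let R : ∀ n : ℕ, (W × lp (fun _ : ℕ => Z) ∞) →ₗ[ℝ] Z := fun n =>
    match n with
    | 0 =>
      (linfEval (Z := fun _ : ℕ => Z) 0).comp (LinearMap.snd ℝ W _)
        - ((T.comp S : Z →L[ℝ] Z) : Z →ₗ[ℝ] Z).comp
            ((linfEval (Z := fun _ : ℕ => Z) 0).comp (LinearMap.snd ℝ W _))
        + (T : W →ₗ[ℝ] Z).comp (LinearMap.fst ℝ W _)
    | n + 1 =>
      (linfEval (Z := fun _ : ℕ => Z) (n + 1)).comp (LinearMap.snd ℝ W _)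
        - ((T.comp S : Z →L[ℝ] Z) : Z →ₗ[ℝ] Z).comp
            ((linfEval (Z := fun _ : ℕ => Z) (n + 1)).comp (LinearMap.snd ℝ W _))
        + ((T.comp S : Z →L[ℝ] Z) : Z →ₗ[ℝ] Z).comp
            ((linfEval (Z := fun _ : ℕ => Z) n).comp (LinearMap.snd ℝ W _))
  have hR0 : ∀ p : W × lp (fun _ : ℕ => Z) ∞, R 0 p = p.2 0 - T (S (p.2 0)) + T p.1 :=
    fun p => rfl
  have hRs : ∀ (n : ℕ) (p : W × lp (fun _ : ℕ => Z) ∞),
      R (n + 1) p = p.2 (n + 1) - T (S (p.2 (n + 1))) + T (S (p.2 n)) := fun n p => rfl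
  have hTSn : ∀ z : Z, ‖T (S z)‖ ≤ ‖T‖ * ‖S‖ * ‖z‖ := fun z => by
    calc ‖T (S z)‖ ≤ ‖T‖ * ‖S z‖ := T.le_opNorm _
      _ ≤ ‖T‖ * (‖S‖ * ‖z‖) := by gcongr; exact S.le_opNorm _
      _ = _ := by ring
  have hRb : ∀ n p, ‖R n p‖ ≤ (1 + 2 * (‖T‖ * ‖S‖) + ‖T‖) * ‖p‖ := by
    intro n p
    have h2 : ∀ k, ‖p.2 k‖ ≤ ‖p‖ := fun k => (linf_norm_apply_le p.2 k).trans (norm_snd_le p)
    have h3 : ∀ k, ‖T (S (p.2 k))‖ ≤ ‖T‖ * ‖S‖ * ‖p‖ := fun k =>
      (hTSn _).trans (mul_le_mul_of_nonneg_left (h2 k) (by positivity))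
    have h4 : ‖T p.1‖ ≤ ‖T‖ * ‖p‖ :=
      (T.le_opNorm _).trans (mul_le_mul_of_nonneg_left (norm_fst_le p) (norm_nonneg _))
    have h5 : 0 ≤ ‖T‖ * ‖S‖ * ‖p‖ := by positivity
    have h6 : 0 ≤ ‖T‖ * ‖p‖ := by positivity
    rcases n with _ | n
    · rw [hR0]
      calc _ ≤ ‖p.2 0 - T (S (p.2 0))‖ + ‖T p.1‖ := norm_add_le _ _
        _ ≤ ‖p.2 0‖ + ‖T (S (p.2 0))‖ + ‖T p.1‖ := by gcongr; exact norm_sub_le _ _
        _ ≤ _ := by nlinarith [h2 0, h3 0]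
    · rw [hRs]
      calc _ ≤ ‖p.2 (n + 1) - T (S (p.2 (n + 1)))‖ + ‖T (S (p.2 n))‖ := norm_add_le _ _
        _ ≤ ‖p.2 (n + 1)‖ + ‖T (S (p.2 (n + 1)))‖ + ‖T (S (p.2 n))‖ := by
            gcongr; exact norm_sub_le _ _
        _ ≤ _ := by nlinarith [h2 (n + 1), h3 (n + 1), h3 n]
  let RR : (W × lp (fun _ : ℕ => Z) ∞) →L[ℝ] lp (fun _ : ℕ => Z) ∞ :=
    linfPi R (1 + 2 * (‖T‖ * ‖S‖) + ‖T‖) (by positivity) hRb
  let L : ∀ n : ℕ, (lp (fun _ : ℕ => Z) ∞) →ₗ[ℝ] Z := fun n =>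
    linfEval (Z := fun _ : ℕ => Z) n
      - ((T.comp S : Z →L[ℝ] Z) : Z →ₗ[ℝ] Z).comp (linfEval (Z := fun _ : ℕ => Z) n)
      + ((T.comp S : Z →L[ℝ] Z) : Z →ₗ[ℝ] Z).comp (linfEval (Z := fun _ : ℕ => Z) (n + 1))
  have hL : ∀ (n : ℕ) (c : lp (fun _ : ℕ => Z) ∞),
      L n c = c n - T (S (c n)) + T (S (c (n + 1))) := fun n c => rfl
  have hLb : ∀ n c, ‖L n c‖ ≤ (1 + 2 * (‖T‖ * ‖S‖)) * ‖c‖ := by
    intro n c
    have h2 : ∀ k, ‖c k‖ ≤ ‖c‖ := fun k => linf_norm_apply_le c k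
    have h3 : ∀ k, ‖T (S (c k))‖ ≤ ‖T‖ * ‖S‖ * ‖c‖ := fun k =>
      (hTSn _).trans (mul_le_mul_of_nonneg_left (h2 k) (by positivity))
    rw [hL]
    calc _ ≤ ‖c n - T (S (c n))‖ + ‖T (S (c (n + 1)))‖ := norm_add_le _ _
      _ ≤ ‖c n‖ + ‖T (S (c n))‖ + ‖T (S (c (n + 1)))‖ := by gcongr; exact norm_sub_le _ _
      _ ≤ _ := by nlinarith [h2 n, h3 n, h3 (n + 1)]
  let LL : (lp (fun _ : ℕ => Z) ∞) →L[ℝ] lp (fun _ : ℕ => Z) ∞ :=
    linfPi L (1 + 2 * (‖T‖ * ‖S‖)) (by positivity) hLb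
  let E0 : (lp (fun _ : ℕ => Z) ∞) →L[ℝ] Z :=
    (linfEval (Z := fun _ : ℕ => Z) 0).mkContinuous 1 (fun c => by
      rw [one_mul]; exact linf_norm_apply_le c 0)
  let Φ : (W × Z) →L[ℝ] Z :=
    ContinuousLinearMap.snd ℝ W Z - (J.comp Q).comp (ContinuousLinearMap.snd ℝ W Z)
      + J.comp (RR.comp ((ContinuousLinearMap.fst ℝ W Z).prod
          (Q.comp (ContinuousLinearMap.snd ℝ W Z))))
  let Ψ : Z →L[ℝ] (W × Z) :=
    (S.comp (E0.comp Q)).prod (ContinuousLinearMap.id ℝ Z - J.comp Q + J.comp (LL.comp Q))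
  have hΦ : ∀ p : W × Z, Φ p = p.2 - J (Q p.2) + J (RR (p.1, Q p.2)) := fun p => rfl
  have hΨ : ∀ z : Z, Ψ z = (S (Q z 0), z - J (Q z) + J (LL (Q z))) := fun z => rfl
  refine ⟨ContinuousLinearEquiv.equivOfInverse Φ Ψ ?_ ?_⟩
  · rintro ⟨w, z⟩
    have h1 : Q (Φ (w, z)) = RR (w, Q z) := by
      rw [hΦ]
      simp only [map_add, map_sub, hJQ, sub_self, zero_add]
    have h2 : S (Q (Φ (w, z)) 0) = w := by
      rw [h1]
      change S (R 0 (w, Q z)) = w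
      rw [hR0]
      simp only [map_add, map_sub, hTS, sub_self, zero_add]
    have h3 : LL (Q (Φ (w, z))) = Q z := by
      rw [h1]
      apply lp.ext
      ext n
      change L n (RR (w, Q z)) = Q z n
      rw [hL]
      have e1 : ∀ k, RR (w, Q z) k = R k (w, Q z) := fun k => rfl
      rw [e1, e1]
      have e2 : S (R (n + 1) (w, Q z)) = S (Q z n) := by
        rw [hRs]
        simp only [map_add, map_sub, hTS, sub_self, zero_add]
      rw [e2]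
      rcases n with _ | n
      · have e3 : S (R 0 (w, Q z)) = w := by
          rw [hR0]
          simp only [map_add, map_sub, hTS, sub_self, zero_add]
        rw [e3, hR0]
        simp only
        abel
      · have e3 : S (R (n + 1) (w, Q z)) = S (Q z n) := by
          rw [hRs]
          simp only [map_add, map_sub, hTS, sub_self, zero_add]
        rw [e3, hRs]
        simp only
        abel
    rw [hΨ, h2, h3, h1, hΦ]
    simp only [Prod.mk.injEq, true_and]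
    abel
  · intro z
    have h1 : Q (z - J (Q z) + J (LL (Q z))) = LL (Q z) := by
      simp only [map_add, map_sub, hJQ, sub_self, zero_add]
    rw [hΨ, hΦ]
    simp only
    rw [h1]
    have h2 : RR (S (Q z 0), LL (Q z)) = Q z := by
      apply lp.ext
      ext n
      have e1 : ∀ k, LL (Q z) k = L k (Q z) := fun k => rfl
      have e2 : ∀ k, S (LL (Q z) k) = S (Q z (k + 1)) := by
        intro k
        rw [e1, hL]
        simp only [map_add, map_sub, hTS, sub_self, zero_add]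
      rcases n with _ | n
      · change R 0 (S (Q z 0), LL (Q z)) = Q z 0
        rw [hR0]
        simp only
        rw [e2, e1, hL]
        abel
      · change R (n + 1) (S (Q z 0), LL (Q z)) = Q z (n + 1)
        rw [hRs]
        simp only
        rw [e2, e2, e1, hL]
        abel
    rw [h2]
    abel

/-- **Pełczyński's decomposition method** for `ℓ_∞`-sums. -/
theorem equiv_of_ce {A B : Type*} [NormedAddCommGroup A] [NormedSpace ℝ A]
    [NormedAddCommGroup B] [NormedSpace ℝ B] (hAB : CE A B) (hBA : CE B A)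
    (hA : CE (lp (fun _ : ℕ => A) ∞) A) (hB : CE (lp (fun _ : ℕ => B) ∞) B) :
    Nonempty (A ≃L[ℝ] B) := by
  obtain ⟨e1⟩ := prod_equiv_of_ce hAB hB
  obtain ⟨e2⟩ := prod_equiv_of_ce hBA hA
  exact ⟨e2.symm.trans ((ContinuousLinearEquiv.prodComm ℝ B A).trans e1)⟩

end Pool.Agent.Helper93
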