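import Mathlib

/-!
# A Dvoretzky–Rogers type lemma
-/

set_option autoImplicit false

namespace Pool.Agent.Helper93

open Module

/-- determinant of `1 + P_F` -/
lemma det_one_add_proj {H : Type*} [NormedAddCommGroup H] [InnerProductSpace ℝ H]
    [FiniteDimensional ℝ H] (K : Submodule ℝ H) :
    LinearMap.det ((LinearMap.id : H →ₗ[ℝ] H) + (K.starProjection : H →L[ℝ] H).toLinearMap)
      = 2 ^ finrank ℝ K := by
  let e := K.prodEquivOfIsCompl _ K.isCompl_orthogonal
  let b := (finBasis ℝ K).prod (finBasis ℝ Kᗮ)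
  have h0 : ∀ x : Kᗮ, K.starProjection (x : H) = 0 := fun x =>
    (Submodule.starProjection_apply_eq_zero_iff K).mpr x.2
  have : LinearMap.toMatrix b b (e.symm ∘ₗ
      ((LinearMap.id : H →ₗ[ℝ] H) + (K.starProjection : H →L[ℝ] H).toLinearMap) ∘ₗ e.symm.symm) =
      Matrix.fromBlocks ((2 : ℝ) • (1 : Matrix _ _ ℝ)) 0 0 1 := by
    ext (_ | _) (_ | _) <;>
    simp [LinearMap.toMatrix_apply, b, Matrix.one_apply, Finsupp.single_apply, e, eq_comm, h0]
    all_goals split_ifs <;> norm_num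
  rw [← LinearMap.det_conj _ e.symm, ← LinearMap.det_toMatrix b, this, Matrix.det_fromBlocks_zero₂₁,
    Matrix.det_one, mul_one, Matrix.det_smul, Fintype.card_fin, Matrix.det_one, mul_one]

/-- If `u : H → E` is an operator with `|det A| ≤ ‖u ∘ A‖ ^ n` for all `A`, then it is large on
each subspace of dimension at least `n / 2`. -/
lemma exists_large {H E : Type*} [NormedAddCommGroup H] [InnerProductSpace ℝ H]
    [FiniteDimensional ℝ H] [NormedAddCommGroup E] [NormedSpace ℝ E]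
    (u : H →L[ℝ] E) (hu : ‖u‖ ≤ 1) (k : ℕ) (hk : 0 < k)
    (hdet : ∀ A : H →L[ℝ] H, |LinearMap.det (A : H →ₗ[ℝ] H)| ≤ ‖u.comp A‖ ^ (2 * k))
    (F : Submodule ℝ H) (hF : k ≤ finrank ℝ F) :
    ∃ f ∈ F, ‖f‖ = 1 ∧ 1 / 3 ≤ ‖u f‖ := by
  by_contra hcon
  push Not at hcon
  have h1 : ∀ f ∈ F, ‖u f‖ ≤ 1 / 3 * ‖f‖ := by
    intro f hf
    by_cases hf0 : f = 0
    · simp [hf0]
    · have hn : 0 < ‖f‖ := norm_pos_iff.mpr hf0
      have h2 := hcon ((‖f‖)⁻¹ • f) (F.smul_mem _ hf) (by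
        rw [norm_smul, norm_inv, norm_norm, inv_mul_cancel₀ hn.ne'])
      rw [map_smul, norm_smul, norm_inv, norm_norm, inv_mul_lt_iff₀ hn] at h2
      linarith
  have h2 : ‖u.comp (ContinuousLinearMap.id ℝ H + F.starProjection)‖ ≤ 4 / 3 := by
    rw [ContinuousLinearMap.comp_add]
    refine (norm_add_le _ _).trans ?_
    have h3 : ‖u.comp (ContinuousLinearMap.id ℝ H)‖ ≤ 1 := by
      rwa [ContinuousLinearMap.comp_id]
    have h4 : ‖u.comp F.starProjection‖ ≤ 1 / 3 := by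
      refine ContinuousLinearMap.opNorm_le_bound _ (by norm_num) fun x => ?_
      rw [ContinuousLinearMap.comp_apply]
      refine (h1 _ (Submodule.starProjection_apply_mem F x)).trans ?_
      have := Submodule.norm_starProjection_apply_le F x
      linarith
    linarith
  have h5 := hdet (ContinuousLinearMap.id ℝ H + F.starProjection)
  have h6 : LinearMap.det ((ContinuousLinearMap.id ℝ H + F.starProjection : H →L[ℝ] H) : H →ₗ[ℝ] H)
      = 2 ^ finrank ℝ F := by
    rw [← det_one_add_proj F]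
    rfl
  rw [h6, abs_of_pos (by positivity)] at h5
  have h7 : (2 : ℝ) ^ k ≤ 2 ^ finrank ℝ F := pow_le_pow_right₀ (by norm_num) hF
  have h8 : ‖u.comp (ContinuousLinearMap.id ℝ H + F.starProjection)‖ ^ (2 * k) ≤ (4 / 3) ^ (2 * k) :=
    pow_le_pow_left₀ (norm_nonneg _) h2 _
  have h9 : ((4 : ℝ) / 3) ^ (2 * k) = (16 / 9) ^ k := by
    rw [pow_mul]; norm_num
  have h10 : ((16 : ℝ) / 9) ^ k < 2 ^ k := pow_lt_pow_left₀ (by norm_num) (by norm_num) hk.ne'
  linarith

/-- Selection of an orthonormal sequence on which `u` is large. -/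
lemma exists_orthonormal {H E : Type*} [NormedAddCommGroup H] [InnerProductSpace ℝ H]
    [FiniteDimensional ℝ H] [NormedAddCommGroup E] [NormedSpace ℝ E]
    (u : H →L[ℝ] E) (hu : ‖u‖ ≤ 1) (k : ℕ) (hk : 0 < k) (hH : finrank ℝ H = 2 * k)
    (hdet : ∀ A : H →L[ℝ] H, |LinearMap.det (A : H →ₗ[ℝ] H)| ≤ ‖u.comp A‖ ^ (2 * k)) :
    ∀ j : ℕ, j ≤ k → ∃ v : Fin j → H, Orthonormal ℝ v ∧ ∀ i, 1 / 3 ≤ ‖u (v i)‖ := by
  intro j
  induction j with
  | zero =>
    intro _
    exact ⟨Fin.elim0, ⟨fun i => i.elim0, fun i => i.elim0⟩, fun i => i.elim0⟩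
  | succ j ih =>
    intro hj
    obtain ⟨v, hv, hv2⟩ := ih (by omega)
    let S : Submodule ℝ H := Submodule.span ℝ (Set.range v)
    have hS : finrank ℝ S = j := by
      have := finrank_span_eq_card hv.linearIndependent
      simpa using this
    have hF : k ≤ finrank ℝ Sᗮ := by
      have := S.finrank_add_finrank_orthogonal
      omega
    obtain ⟨f, hf, hf1, hf2⟩ := exists_large u hu k hk hdet Sᗮ hF
    refine ⟨Matrix.vecCons f v, ?_, ?_⟩
    · rw [orthonormal_vecCons_iff]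
      refine ⟨hf1, fun i => ?_, hv⟩
      rw [real_inner_comm]
      exact (Submodule.mem_orthogonal _ _).mp hf _ (Submodule.subset_span ⟨i, rfl⟩)
    · intro i
      refine Fin.cases ?_ (fun i => ?_) i
      · exact hf2
      · exact hv2 i

/-- existence of the maximal volume operator -/
lemma exists_max_det {H E : Type*} [NormedAddCommGroup H] [InnerProductSpace ℝ H]
    [FiniteDimensional ℝ H] [NormedAddCommGroup E] [NormedSpace ℝ E] [FiniteDimensional ℝ E]
    (hHE : finrank ℝ H = finrank ℝ E) (hpos : 0 < finrank ℝ H) :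
    ∃ u : H →L[ℝ] E, ‖u‖ ≤ 1 ∧
      ∀ A : H →L[ℝ] H, |LinearMap.det (A : H →ₗ[ℝ] H)| ≤ ‖u.comp A‖ ^ (finrank ℝ H) := by
  let e : E ≃L[ℝ] H := ContinuousLinearEquiv.ofFinrankEq hHE.symm
  let D : (H →L[ℝ] E) → ℝ := fun w => |((e : E →L[ℝ] H).comp w).det|
  have hD : Continuous D := by
    have h1 : Continuous fun w : H →L[ℝ] E => (e : E →L[ℝ] H).comp w :=
      (ContinuousLinearMap.compL ℝ H E H (e : E →L[ℝ] H)).continuous
    exact (ContinuousLinearMap.continuous_det.comp h1).abs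
  have : ProperSpace (H →L[ℝ] E) := FiniteDimensional.proper_real _
  obtain ⟨u, hu, hmax⟩ := (isCompact_closedBall (0 : H →L[ℝ] E) 1).exists_isMaxOn
    ⟨0, Metric.mem_closedBall_self zero_le_one⟩ hD.continuousOn
  have hu1 : ‖u‖ ≤ 1 := by simpa using hu
  have hhom : ∀ (c : ℝ) (w : H →L[ℝ] E), D (c • w) = |c| ^ (finrank ℝ H) * D w := by
    intro c w
    simp only [D, ContinuousLinearMap.comp_smul, ContinuousLinearMap.det]
    rw [ContinuousLinearMap.toLinearMap_smul, LinearMap.det_smul, abs_mul, abs_pow]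
  have hle : ∀ w : H →L[ℝ] E, D w ≤ ‖w‖ ^ (finrank ℝ H) * D u := by
    intro w
    by_cases hw : w = 0
    · subst hw
      have := hhom 0 0
      rw [smul_zero, abs_zero, zero_pow hpos.ne', zero_mul] at this
      rw [this]
      positivity
    · have hn : 0 < ‖w‖ := norm_pos_iff.mpr hw
      have h1 : (‖w‖)⁻¹ • w ∈ Metric.closedBall (0 : H →L[ℝ] E) 1 := by
        rw [mem_closedBall_zero_iff, norm_smul, norm_inv, norm_norm, inv_mul_cancel₀ hn.ne']
      have h2 : D ((‖w‖)⁻¹ • w) ≤ D u := hmax h1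
      have h3 : w = ‖w‖ • ((‖w‖)⁻¹ • w) := by
        rw [smul_smul, mul_inv_cancel₀ hn.ne', one_smul]
      rw [h3, hhom, abs_norm, ← h3]
      exact mul_le_mul_of_nonneg_left h2 (by positivity)
  have hDpos : 0 < D u := by
    have h1 : D (e.symm : H →L[ℝ] E) = 1 := by
      simp only [D]
      rw [ContinuousLinearEquiv.coe_comp_coe_symm]
      have : (ContinuousLinearMap.id ℝ H).det = 1 := LinearMap.det_id
      rw [this, abs_one]
    have h2 := hle (e.symm : H →L[ℝ] E)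
    rw [h1] at h2
    by_contra h3
    push Not at h3
    have h4 : D u = 0 := le_antisymm h3 (abs_nonneg _)
    rw [h4, mul_zero] at h2
    linarith
  refine ⟨u, hu1, fun A => ?_⟩
  have h1 := hle (u.comp A)
  have h2 : D (u.comp A) = D u * |LinearMap.det (A : H →ₗ[ℝ] H)| := by
    simp only [D, ContinuousLinearMap.det]
    rw [← abs_mul, ← LinearMap.det_comp]
    rfl
  rw [h2, mul_comm] at h1
  exact le_of_mul_le_mul_right h1 hDpos

/-- **Dvoretzky–Rogers lemma**. -/
theorem dvoretzky_rogers (Z : Type*) [NormedAddCommGroup Z] [NormedSpace ℝ Z]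
    (hZ : ¬ FiniteDimensional ℝ Z) (k : ℕ) (hk : 0 < k) :
    ∃ x : Fin k → Z, (∀ b : Fin k → ℝ, ‖∑ i, b i • x i‖ ^ 2 ≤ ∑ i, b i ^ 2) ∧
      ∀ i, 1 / 3 ≤ ‖x i‖ := by
  obtain ⟨E, hE⟩ : ∃ E : Submodule ℝ Z, finrank ℝ E = 2 * k := by
    have h1 : ((2 * k : ℕ) : Cardinal) ≤ Module.rank ℝ Z := by
      have : Cardinal.aleph0 ≤ Module.rank ℝ Z := by
        by_contra h
        push Not at h
        exact hZ (Module.rank_lt_aleph0_iff.mp h)
      exact (Cardinal.natCast_le_aleph0).trans this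
    obtain ⟨s, hs, hli⟩ := Module.le_rank_iff_exists_finset.mp h1
    refine ⟨Submodule.span ℝ (s : Set Z), ?_⟩
    rw [finrank_span_finset_eq_card hli, hs]
  have : FiniteDimensional ℝ E := FiniteDimensional.of_finrank_pos (by omega)
  let H := EuclideanSpace ℝ (Fin (2 * k))
  have hH : finrank ℝ H = 2 * k := finrank_euclideanSpace_fin
  obtain ⟨u, hu, hdet⟩ := exists_max_det (H := H) (E := E) (by rw [hH, hE]) (by omega)
  rw [hH] at hdet
  obtain ⟨v, hv, hv2⟩ := exists_orthonormal u hu k hk hH hdet k le_rfl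
  refine ⟨fun i => (u (v i) : Z), fun b => ?_, fun i => ?_⟩
  · have h1 : ∑ i, b i • (u (v i) : Z) = ((u (∑ i, b i • v i) : E) : Z) := by
      rw [map_sum]
      simp
    rw [h1]
    have h2 : ‖∑ i, b i • v i‖ ^ 2 = ∑ i, b i ^ 2 := by
      rw [← real_inner_self_eq_norm_sq, hv.inner_sum]
      simp [sq]
    rw [← h2]
    have h3 : ‖((u (∑ i, b i • v i) : E) : Z)‖ ≤ ‖∑ i, b i • v i‖ := by
      have := u.le_opNorm (∑ i, b i • v i)
      calc ‖((u (∑ i, b i • v i) : E) : Z)‖ = ‖u (∑ i, b i • v i)‖ := rfl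
        _ ≤ ‖u‖ * ‖∑ i, b i • v i‖ := this
        _ ≤ 1 * ‖∑ i, b i • v i‖ := by gcongr
        _ = _ := one_mul _
    exact pow_le_pow_left₀ (norm_nonneg _) h3 2
  · exact hv2 i

end Pool.Agent.Helper93
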