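import Mathlib

/-!
# The Banach space `Lip₀(M)`

For a metric space `M` with distinguished point `0`, `Lip0 M` is the real vector space of
real-valued Lipschitz functions on `M` vanishing at `0`, normed by the best Lipschitz constant
`‖f‖ = sup { |f x - f y| / dist x y : x ≠ y }`.
-/

set_option autoImplicit false

namespace Pool.Agent.Helper93

open scoped NNReal

/-- The vector space of real-valued Lipschitz functions on the metric space `M` which vanish at
the distinguished point `0`, as a subspace of the space of all functions `M → ℝ`. -/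
def lipSubmodule (M : Type*) [MetricSpace M] [Zero M] : Submodule ℝ (M → ℝ) where
  carrier := {f | f 0 = 0 ∧ ∃ K : ℝ≥0, LipschitzWith K f}
  zero_mem' := ⟨rfl, 0, LipschitzWith.const 0⟩
  add_mem' := by
    rintro f g ⟨hf, K, hK⟩ ⟨hg, L, hL⟩
    refine ⟨?_, K + L, hK.add hL⟩
    change f 0 + g 0 = 0
    rw [hf, hg, add_zero]
  smul_mem' := by
    rintro c f ⟨hf, K, hK⟩
    refine ⟨?_, ‖c‖₊ * K, LipschitzWith.of_dist_le_mul fun x y => ?_⟩
    · change c * f 0 = 0
      rw [hf, mul_zero]
    · change dist (c * f x) (c * f y) ≤ _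
      rw [Real.dist_eq, ← mul_sub, abs_mul]
      have := hK.dist_le_mul x y
      rw [Real.dist_eq] at this
      calc |c| * |f x - f y| ≤ |c| * (K * dist x y) :=
            mul_le_mul_of_nonneg_left this (abs_nonneg _)
        _ = (‖c‖₊ * K : ℝ≥0) * dist x y := by simp [mul_assoc]

/-- `Lip₀(M)`: real-valued Lipschitz functions on the metric space `M` which vanish at the
distinguished point `0`.  It carries the Lipschitz norm (see below). -/
def Lip0 (M : Type*) [MetricSpace M] [Zero M] : Type _ := lipSubmodule M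

namespace Lip0

variable {M : Type*} [MetricSpace M] [Zero M]

/-- pointwise addition -/
instance : AddCommGroup (Lip0 M) := Submodule.addCommGroup (lipSubmodule M)

/-- pointwise scalar multiplication -/
instance : Module ℝ (Lip0 M) := Submodule.module (lipSubmodule M)

/-- An element of `Lip₀(M)` is a function `M → ℝ`. -/
instance : FunLike (Lip0 M) M ℝ where
  coe f := (f : lipSubmodule M).1
  coe_injective := fun _ _ h => Subtype.ext h

/-- The Lipschitz norm `‖f‖ = sup { |f x - f y| / dist x y : x ≠ y }`. -/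
noncomputable instance : Norm (Lip0 M) :=
  ⟨fun f => sSup {r : ℝ | ∃ x y : M, x ≠ y ∧ r = |f x - f y| / dist x y}⟩

@[simp] lemma map_zero (f : Lip0 M) : f 0 = 0 := (f : lipSubmodule M).2.1

lemma lipschitz' (f : Lip0 M) : ∃ K : ℝ≥0, LipschitzWith K (f : M → ℝ) :=
  (f : lipSubmodule M).2.2

lemma ext' {f g : Lip0 M} (h : ∀ x, f x = g x) : f = g := DFunLike.ext _ _ h

@[simp] lemma zero_apply (x : M) : (0 : Lip0 M) x = 0 := rfl
@[simp] lemma add_apply (f g : Lip0 M) (x : M) : (f + g) x = f x + g x := rfl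
@[simp] lemma neg_apply (f : Lip0 M) (x : M) : (-f) x = -f x := rfl
@[simp] lemma sub_apply (f g : Lip0 M) (x : M) : (f - g) x = f x - g x := rfl
@[simp] lemma smul_apply (c : ℝ) (f : Lip0 M) (x : M) : (c • f) x = c * f x := rfl

lemma norm_def (f : Lip0 M) :
    ‖f‖ = sSup {r : ℝ | ∃ x y : M, x ≠ y ∧ r = |f x - f y| / dist x y} := rfl

lemma bddAbove_quotients (f : Lip0 M) :
    BddAbove {r : ℝ | ∃ x y : M, x ≠ y ∧ r = |f x - f y| / dist x y} := by
  obtain ⟨K, hK⟩ := f.lipschitz'
  refine ⟨K, ?_⟩
  rintro r ⟨x, y, hxy, rfl⟩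
  rw [div_le_iff₀ (dist_pos.mpr hxy)]
  have := hK.dist_le_mul x y
  rwa [Real.dist_eq] at this

lemma norm_nonneg' (f : Lip0 M) : 0 ≤ ‖f‖ := by
  apply Real.sSup_nonneg
  rintro r ⟨x, y, hxy, rfl⟩
  positivity

lemma abs_sub_le (f : Lip0 M) (x y : M) : |f x - f y| ≤ ‖f‖ * dist x y := by
  by_cases hxy : x = y
  · simp [hxy]
  · have h1 : |f x - f y| / dist x y ≤ ‖f‖ :=
      le_csSup (bddAbove_quotients f) ⟨x, y, hxy, rfl⟩
    rwa [div_le_iff₀ (dist_pos.mpr hxy)] at h1

lemma norm_le_of_forall {f : Lip0 M} {C : ℝ} (hC : 0 ≤ C)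
    (h : ∀ x y, |f x - f y| ≤ C * dist x y) : ‖f‖ ≤ C := by
  apply Real.sSup_le _ hC
  rintro r ⟨x, y, hxy, rfl⟩
  rw [div_le_iff₀ (dist_pos.mpr hxy)]
  exact h x y

lemma abs_le (f : Lip0 M) (x : M) : |f x| ≤ ‖f‖ * dist x 0 := by
  have := abs_sub_le f x 0
  simpa using this

lemma core : NormedSpace.Core ℝ (Lip0 M) where
  norm_nonneg f := norm_nonneg' f
  norm_smul c f := by
    apply le_antisymm
    · apply norm_le_of_forall (mul_nonneg (norm_nonneg _) (norm_nonneg' f))
      intro x y
      rw [smul_apply, smul_apply, ← mul_sub, abs_mul, mul_assoc]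
      exact mul_le_mul_of_nonneg_left (abs_sub_le f x y) (abs_nonneg _)
    · by_cases hc : c = 0
      · simp only [hc, norm_zero, zero_mul]
        exact norm_nonneg' _
      · have hc' : 0 < ‖c‖ := norm_pos_iff.mpr hc
        have : ‖f‖ ≤ ‖c‖⁻¹ * ‖c • f‖ := by
          apply norm_le_of_forall (mul_nonneg (by positivity) (norm_nonneg' _))
          intro x y
          have h1 := abs_sub_le (c • f) x y
          rw [smul_apply, smul_apply, ← mul_sub, abs_mul] at h1
          rw [mul_assoc, ← div_eq_inv_mul, le_div_iff₀ hc', mul_comm]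
          exact h1
        calc ‖c‖ * ‖f‖ ≤ ‖c‖ * (‖c‖⁻¹ * ‖c • f‖) := mul_le_mul_of_nonneg_left this hc'.le
          _ = ‖c • f‖ := by rw [← mul_assoc, mul_inv_cancel₀ hc'.ne', one_mul]
  norm_triangle f g := by
    apply norm_le_of_forall (add_nonneg (norm_nonneg' _) (norm_nonneg' _))
    intro x y
    have h1 := abs_sub_le f x y
    have h2 := abs_sub_le g x y
    have h3 : (f + g) x - (f + g) y = (f x - f y) + (g x - g y) := by
      simp only [add_apply]; ring
    rw [h3, add_mul]
    exact (abs_add_le _ _).trans (add_le_add h1 h2)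
  norm_eq_zero_iff f := by
    constructor
    · intro h
      apply ext'
      intro x
      have := abs_le f x
      rw [h, zero_mul] at this
      simpa using this
    · rintro rfl
      apply le_antisymm _ (norm_nonneg' _)
      apply norm_le_of_forall le_rfl
      intro x y
      simp

/-- `Lip₀(M)` is a normed group for the Lipschitz norm. -/
noncomputable instance : NormedAddCommGroup (Lip0 M) := NormedAddCommGroup.ofCore core

/-- `Lip₀(M)` is a real normed space for the Lipschitz norm. -/
noncomputable instance : NormedSpace ℝ (Lip0 M) := NormedSpace.ofCore core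

/-- build an element of `Lip0 M` from a function with a Lipschitz bound -/
def mk' (f : M → ℝ) (h0 : f 0 = 0) (C : ℝ) (h : ∀ x y, |f x - f y| ≤ C * dist x y) : Lip0 M :=
  (⟨f, h0, C.toNNReal, LipschitzWith.of_dist_le_mul fun x y => by
    rw [Real.dist_eq]
    exact (h x y).trans (mul_le_mul_of_nonneg_right (Real.le_coe_toNNReal C) dist_nonneg)⟩ :
    lipSubmodule M)

@[simp] lemma mk'_apply (f : M → ℝ) (h0 : f 0 = 0) (C : ℝ)
    (h : ∀ x y, |f x - f y| ≤ C * dist x y) (x : M) : mk' f h0 C h x = f x := rfl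

end Lip0

end Pool.Agent.Helper93
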