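import Mathlib

/-!
# Ultrafilter limits and invariant means on abelian groups
-/

set_option autoImplicit false

namespace Pool.Agent.Helper93

open Filter Topology

/-- limit of a bounded real function along an ultrafilter -/
noncomputable def ulim {I : Type*} (U : Ultrafilter I) (f : I → ℝ) : ℝ := limUnder (U : Filter I) f

/-- a real function is bounded -/
def Bdd {I : Type*} (f : I → ℝ) : Prop := ∃ C : ℝ, ∀ i, |f i| ≤ C

lemma Bdd.add {I : Type*} {f g : I → ℝ} (hf : Bdd f) (hg : Bdd g) : Bdd (fun i => f i + g i) := by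
  obtain ⟨C, hC⟩ := hf
  obtain ⟨D, hD⟩ := hg
  exact ⟨C + D, fun i => (abs_add_le _ _).trans (add_le_add (hC i) (hD i))⟩

lemma Bdd.sub {I : Type*} {f g : I → ℝ} (hf : Bdd f) (hg : Bdd g) : Bdd (fun i => f i - g i) := by
  obtain ⟨C, hC⟩ := hf
  obtain ⟨D, hD⟩ := hg
  exact ⟨C + D, fun i => (abs_sub _ _).trans (add_le_add (hC i) (hD i))⟩

lemma Bdd.smul {I : Type*} {f : I → ℝ} (c : ℝ) (hf : Bdd f) : Bdd (fun i => c * f i) := by
  obtain ⟨C, hC⟩ := hf
  refine ⟨|c| * C, fun i => ?_⟩
  rw [abs_mul]
  exact mul_le_mul_of_nonneg_left (hC i) (abs_nonneg _)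

lemma Bdd.comp {I J : Type*} {f : I → ℝ} (hf : Bdd f) (φ : J → I) : Bdd (fun j => f (φ j)) := by
  obtain ⟨C, hC⟩ := hf
  exact ⟨C, fun j => hC _⟩

lemma Bdd.const {I : Type*} (c : ℝ) : Bdd (fun _ : I => c) := ⟨|c|, fun _ => le_rfl⟩

lemma tendsto_ulim {I : Type*} (U : Ultrafilter I) {f : I → ℝ} (hf : Bdd f) :
    Tendsto f U (𝓝 (ulim U f)) := by
  obtain ⟨C, hC⟩ := hf
  have h1 : ((U.map f : Ultrafilter ℝ) : Filter ℝ) ≤ 𝓟 (Set.Icc (-C) C) := by
    rw [le_principal_iff]
    change f ⁻¹' (Set.Icc (-C) C) ∈ (U : Filter I)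
    have : f ⁻¹' (Set.Icc (-C) C) = Set.univ := by
      ext i
      simp only [Set.mem_preimage, Set.mem_Icc, Set.mem_univ, iff_true]
      exact abs_le.mp (hC i)
    rw [this]
    exact Filter.univ_mem
  obtain ⟨x, -, hx⟩ := isCompact_Icc.ultrafilter_le_nhds (U.map f) h1
  have h2 : Tendsto f U (𝓝 x) := hx
  exact tendsto_nhds_limUnder ⟨x, h2⟩

lemma ulim_eq {I : Type*} (U : Ultrafilter I) {f : I → ℝ} {a : ℝ} (h : Tendsto f U (𝓝 a)) :
    ulim U f = a := h.limUnder_eq

lemma ulim_add {I : Type*} (U : Ultrafilter I) {f g : I → ℝ} (hf : Bdd f) (hg : Bdd g) :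
    ulim U (fun i => f i + g i) = ulim U f + ulim U g :=
  ulim_eq U ((tendsto_ulim U hf).add (tendsto_ulim U hg))

lemma ulim_sub {I : Type*} (U : Ultrafilter I) {f g : I → ℝ} (hf : Bdd f) (hg : Bdd g) :
    ulim U (fun i => f i - g i) = ulim U f - ulim U g :=
  ulim_eq U ((tendsto_ulim U hf).sub (tendsto_ulim U hg))

lemma ulim_smul {I : Type*} (U : Ultrafilter I) {f : I → ℝ} (c : ℝ) (hf : Bdd f) :
    ulim U (fun i => c * f i) = c * ulim U f :=
  ulim_eq U ((tendsto_ulim U hf).const_mul c)

lemma ulim_const {I : Type*} (U : Ultrafilter I) (c : ℝ) : ulim U (fun _ => c) = c :=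
  ulim_eq U tendsto_const_nhds

lemma abs_ulim_le {I : Type*} (U : Ultrafilter I) {f : I → ℝ} {C : ℝ} (h : ∀ i, |f i| ≤ C) :
    |ulim U f| ≤ C := by
  have h1 := (tendsto_ulim U ⟨C, h⟩).abs
  exact le_of_tendsto h1 (Eventually.of_forall h)

/-- A mean on bounded functions on an additive abelian group, invariant under translations. -/
structure IsInvMean {G : Type*} [AddCommGroup G] (M : (G → ℝ) → ℝ) : Prop where
  add : ∀ f g, Bdd f → Bdd g → M (fun x => f x + g x) = M f + M g
  smul : ∀ (c : ℝ) f, Bdd f → M (fun x => c * f x) = c * M f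
  const : ∀ c : ℝ, M (fun _ => c) = c
  bound : ∀ f (C : ℝ), (∀ x, |f x| ≤ C) → |M f| ≤ C
  inv : ∀ f (z : G), Bdd f → M (fun x => f (x + z)) = M f

lemma IsInvMean.sub {G : Type*} [AddCommGroup G] {M : (G → ℝ) → ℝ} (hM : IsInvMean M)
    {f g : G → ℝ} (hf : Bdd f) (hg : Bdd g) : M (fun x => f x - g x) = M f - M g := by
  have h1 := hM.add f (fun x => (-1) * g x) hf (hg.smul (-1))
  have h2 := hM.smul (-1) g hg
  have h3 : (fun x => f x - g x) = (fun x => f x + (-1) * g x) := by
    ext x; ring
  rw [h3, h1, h2]; ring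

/-- averaging over `0, z, 2z, ..., n z` -/
noncomputable def avgOp {G : Type*} [AddCommGroup G] (n : ℕ) (z : G) (f : G → ℝ) : G → ℝ :=
  fun x => (∑ j ∈ Finset.range (n + 1), f (x + j • z)) / (n + 1)

/-- iterated averaging over a list of directions -/
noncomputable def avgList {G : Type*} [AddCommGroup G] (n : ℕ) : List G → (G → ℝ) → (G → ℝ)
  | [], f => f
  | z :: l, f => avgOp n z (avgList n l f)

section avg

variable {G : Type*} [AddCommGroup G]

lemma avgOp_add (n : ℕ) (z : G) (f g : G → ℝ) :
    avgOp n z (fun x => f x + g x) = fun x => avgOp n z f x + avgOp n z g x := by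
  ext x
  simp only [avgOp, Finset.sum_add_distrib, add_div]

lemma avgOp_smul (n : ℕ) (z : G) (c : ℝ) (f : G → ℝ) :
    avgOp n z (fun x => c * f x) = fun x => c * avgOp n z f x := by
  ext x
  simp only [avgOp, ← Finset.mul_sum, mul_div_assoc]

lemma avgOp_const (n : ℕ) (z : G) (c : ℝ) : avgOp n z (fun _ : G => c) = fun _ => c := by
  ext x
  simp only [avgOp, Finset.sum_const, Finset.card_range, nsmul_eq_mul]
  have : ((n : ℝ) + 1) ≠ 0 := by positivity
  push_cast
  field_simp

lemma avgOp_bound (n : ℕ) (z : G) (f : G → ℝ) (C : ℝ) (h : ∀ x, |f x| ≤ C) (x : G) :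
    |avgOp n z f x| ≤ C := by
  have hn : (0 : ℝ) < (n : ℝ) + 1 := by positivity
  rw [avgOp, abs_div, abs_of_pos hn, div_le_iff₀ hn]
  calc |∑ j ∈ Finset.range (n + 1), f (x + j • z)|
      ≤ ∑ j ∈ Finset.range (n + 1), |f (x + j • z)| := Finset.abs_sum_le_sum_abs _ _
    _ ≤ ∑ j ∈ Finset.range (n + 1), C := Finset.sum_le_sum fun j _ => h _
    _ = C * (n + 1) := by simp [mul_comm]

lemma avgOp_translate (n : ℕ) (z w : G) (f : G → ℝ) :
    avgOp n z (fun x => f (x + w)) = fun x => avgOp n z f (x + w) := by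
  ext x
  simp only [avgOp]
  congr 1
  refine Finset.sum_congr rfl fun j _ => ?_
  congr 1
  abel

lemma avgOp_diff (n : ℕ) (z : G) (f : G → ℝ) (C : ℝ) (h : ∀ x, |f x| ≤ C) (x : G) :
    |avgOp n z (fun x => f (x + z) - f x) x| ≤ 2 * C / (n + 1) := by
  have hn : (0 : ℝ) < (n : ℝ) + 1 := by positivity
  have h1 : ∑ j ∈ Finset.range (n + 1), (f (x + j • z + z) - f (x + j • z))
      = f (x + (n + 1) • z) - f x := by
    have := Finset.sum_range_sub (fun j : ℕ => f (x + j • z)) (n + 1)
    simp only [zero_smul, add_zero] at this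
    rw [← this]
    refine Finset.sum_congr rfl fun j _ => ?_
    rw [succ_nsmul, add_assoc]
  rw [avgOp, h1, abs_div, abs_of_pos hn]
  refine div_le_div_of_nonneg_right ?_ hn.le
  calc |f (x + (n + 1) • z) - f x| ≤ |f (x + (n + 1) • z)| + |f x| := abs_sub _ _
    _ ≤ 2 * C := by linarith [h (x + (n + 1) • z), h x]

lemma avgList_add (n : ℕ) (l : List G) (f g : G → ℝ) :
    avgList n l (fun x => f x + g x) = fun x => avgList n l f x + avgList n l g x := by
  induction l with
  | nil => rfl
  | cons z l ih => simp only [avgList, ih, avgOp_add]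

lemma avgList_smul (n : ℕ) (l : List G) (c : ℝ) (f : G → ℝ) :
    avgList n l (fun x => c * f x) = fun x => c * avgList n l f x := by
  induction l with
  | nil => rfl
  | cons z l ih => simp only [avgList, ih, avgOp_smul]

lemma avgList_const (n : ℕ) (l : List G) (c : ℝ) :
    avgList n l (fun _ : G => c) = fun _ => c := by
  induction l with
  | nil => rfl
  | cons z l ih => simp only [avgList, ih, avgOp_const]

lemma avgList_bound (n : ℕ) (l : List G) (f : G → ℝ) (C : ℝ) (h : ∀ x, |f x| ≤ C) (x : G) :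
    |avgList n l f x| ≤ C := by
  induction l generalizing x with
  | nil => exact h x
  | cons z l ih => exact avgOp_bound n z _ C ih x

lemma avgList_translate (n : ℕ) (l : List G) (w : G) (f : G → ℝ) :
    avgList n l (fun x => f (x + w)) = fun x => avgList n l f (x + w) := by
  induction l with
  | nil => rfl
  | cons z l ih => simp only [avgList, ih, avgOp_translate]

lemma avgList_sub (n : ℕ) (l : List G) (f g : G → ℝ) :
    avgList n l (fun x => f x - g x) = fun x => avgList n l f x - avgList n l g x := by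
  have h3 : (fun x => f x - g x) = (fun x => f x + (-1) * g x) := by
    ext x; ring
  rw [h3, avgList_add, avgList_smul]
  ext x
  ring

lemma avgList_diff (n : ℕ) (l : List G) (z : G) (hz : z ∈ l) (f : G → ℝ) (C : ℝ)
    (h : ∀ x, |f x| ≤ C) (x : G) :
    |avgList n l (fun x => f (x + z) - f x) x| ≤ 2 * C / (n + 1) := by
  induction l generalizing x with
  | nil => simp at hz
  | cons w l ih =>
    by_cases hw : z = w
    · subst hw
      simp only [avgList]
      rw [avgList_sub, avgList_translate]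
      exact avgOp_diff n z _ C (avgList_bound n l f C h) x
    · have hz' : z ∈ l := by
        rcases List.mem_cons.mp hz with h | h
        · exact absurd h hw
        · exact h
      simp only [avgList]
      exact avgOp_bound n w _ _ (ih hz') x

end avg

lemma finsetNat_neBot (G : Type*) : (atTop : Filter (Finset G × ℕ)).NeBot := by
  classical
  infer_instance

/-- the ultrafilter used to build the invariant mean -/
noncomputable def meanUltra (G : Type*) : Ultrafilter (Finset G × ℕ) :=
  @Ultrafilter.of _ atTop (finsetNat_neBot G)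

lemma meanUltra_le (G : Type*) : (meanUltra G : Filter (Finset G × ℕ)) ≤ atTop :=
  @Ultrafilter.of_le _ atTop (finsetNat_neBot G)

/-- an invariant mean -/
noncomputable def invMean (G : Type*) [AddCommGroup G] (f : G → ℝ) : ℝ :=
  ulim (meanUltra G) (fun p => avgList p.2 p.1.toList f 0)

theorem invMean_isInvMean (G : Type*) [AddCommGroup G] : IsInvMean (invMean G) where
  add f g hf hg := by
    obtain ⟨C, hC⟩ := hf
    obtain ⟨D, hD⟩ := hg
    simp only [invMean, avgList_add]
    exact ulim_add _ ⟨C, fun p => avgList_bound _ _ f C hC 0⟩ ⟨D, fun p => avgList_bound _ _ g D hD 0⟩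
  smul c f hf := by
    obtain ⟨C, hC⟩ := hf
    simp only [invMean, avgList_smul]
    exact ulim_smul _ c ⟨C, fun p => avgList_bound _ _ f C hC 0⟩
  const c := by
    simp only [invMean, avgList_const]
    exact ulim_const _ c
  bound f C h := abs_ulim_le _ fun p => avgList_bound _ _ f C h 0
  inv f z hf := by
    obtain ⟨C, hC⟩ := hf
    have h1 : invMean G (fun x => f (x + z)) - invMean G f = 0 := by
      simp only [invMean]
      rw [← ulim_sub _ ⟨C, fun p => avgList_bound _ _ _ C (fun x => hC _) 0⟩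
        ⟨C, fun p => avgList_bound _ _ f C hC 0⟩]
      apply ulim_eq
      have h2 : ∀ p : Finset G × ℕ,
          avgList p.2 p.1.toList (fun x => f (x + z)) 0 - avgList p.2 p.1.toList f 0
          = avgList p.2 p.1.toList (fun x => f (x + z) - f x) 0 := by
        intro p
        rw [avgList_sub]
      simp only [h2]
      have h3 : Tendsto (fun p : Finset G × ℕ => 2 * C / ((p.2 : ℝ) + 1)) atTop (𝓝 0) := by
        have h4 : Tendsto (fun n : ℕ => 2 * C / ((n : ℝ) + 1)) atTop (𝓝 0) := by
          have := tendsto_one_div_add_atTop_nhds_zero_nat (𝕜 := ℝ)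
          have h5 := this.const_mul (2 * C)
          simp only [mul_zero] at h5
          refine h5.congr fun n => ?_
          ring
        exact h4.comp (tendsto_snd.mono_left (by rw [← prod_atTop_atTop_eq]))
      have h6 : Tendsto (fun p : Finset G × ℕ =>
          avgList p.2 p.1.toList (fun x => f (x + z) - f x) 0) atTop (𝓝 0) := by
        refine squeeze_zero_norm' ?_ h3
        have : ∀ᶠ p : Finset G × ℕ in atTop, ({z}, 0) ≤ p := eventually_ge_atTop _
        filter_upwards [this] with p hp
        have hz : z ∈ p.1.toList := by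
          rw [Finset.mem_toList]
          exact hp.1 (Finset.mem_singleton_self z)
        exact avgList_diff p.2 _ z hz f C hC 0
      exact h6.mono_left (meanUltra_le G)
    linarith

theorem exists_isInvMean (G : Type*) [AddCommGroup G] : ∃ M : (G → ℝ) → ℝ, IsInvMean M :=
  ⟨_, invMean_isInvMean G⟩

end Pool.Agent.Helper93
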