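import Mathlib
import Pool.Agent.Helper93.Mean
import Pool.Agent.Helper93.Lip0

/-!
# Projecting Lipschitz functions onto periodic ones

For a subgroup `K` of a normed group `X` we build a linear operator `R` on `Lip0 X` with
`‖R g‖ ≤ 2 ‖g‖`, with values in the `K`-periodic functions, and fixing all bounded
`K`-periodic functions.
-/

set_option autoImplicit false

namespace Pool.Agent.Helper93

open Filter Topology

variable {X : Type*} [NormedAddCommGroup X] (K : AddSubgroup X)

lemma bdd_diff (g : Lip0 X) (x : X) : Bdd (fun z : K => g (x + z) - g z) :=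
  ⟨‖g‖ * ‖x‖, fun z => by
    have := g.abs_sub_le (x + z) z
    rwa [dist_eq_norm, add_sub_cancel_right] at this⟩

/-- first average: over the subgroup -/
noncomputable def Pav (g : Lip0 X) (x : X) : ℝ := invMean K (fun z : K => g (x + z) - g z)

lemma Pav_sub_le (g : Lip0 X) (x x' : X) : |Pav K g x - Pav K g x'| ≤ ‖g‖ * ‖x - x'‖ := by
  have hM := invMean_isInvMean K
  rw [Pav, Pav, ← hM.sub (bdd_diff K g x) (bdd_diff K g x')]
  apply hM.bound
  intro z
  have := g.abs_sub_le (x + z) (x' + z)
  rw [dist_eq_norm, add_sub_add_right_eq_sub] at this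
  convert this using 2
  ring

lemma Pav_zero (g : Lip0 X) : Pav K g 0 = 0 := by
  have hM := invMean_isInvMean K
  have : (fun z : K => g (0 + z) - g z) = fun _ => 0 := by
    ext z; simp
  rw [Pav, this, hM.const]

lemma Pav_add_mem (g : Lip0 X) (x : X) {w : X} (hw : w ∈ K) :
    Pav K g (x + w) = Pav K g x + Pav K g w := by
  have hM := invMean_isInvMean K
  have h1 : Pav K g x = invMean K (fun z : K => g (x + (z + (⟨w, hw⟩ : K) : K)) - g (z + (⟨w, hw⟩ : K) : K)) := by
    have := hM.inv (fun z : K => g (x + z) - g z) ⟨w, hw⟩ (bdd_diff K g x)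
    rw [Pav, ← this]
  rw [h1]
  unfold Pav
  rw [← hM.add _ _ ((bdd_diff K g x).comp (fun z : K => z + ⟨w, hw⟩)) (bdd_diff K g w)]
  congr 1
  ext z
  simp only [AddSubgroup.coe_add]
  have e1 : x + w + (z : X) = x + ((z : X) + w) := by abel
  have e2 : w + (z : X) = (z : X) + w := by abel
  rw [e1, e2]
  ring

lemma Pav_add (f g : Lip0 X) (x : X) : Pav K (f + g) x = Pav K f x + Pav K g x := by
  have hM := invMean_isInvMean K
  unfold Pav
  rw [← hM.add _ _ (bdd_diff K f x) (bdd_diff K g x)]
  congr 1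
  ext z
  simp only [Lip0.add_apply]
  ring

lemma Pav_smul (c : ℝ) (f : Lip0 X) (x : X) : Pav K (c • f) x = c * Pav K f x := by
  have hM := invMean_isInvMean K
  unfold Pav
  rw [← hM.smul c _ (bdd_diff K f x)]
  congr 1
  ext z
  simp only [Lip0.smul_apply]
  ring

lemma bdd_diff2 (g : Lip0 X) (x : X) : Bdd (fun y : X => Pav K g (x + y) - Pav K g y) :=
  ⟨‖g‖ * ‖x‖, fun z => by
    have := Pav_sub_le K g (x + z) z
    rwa [add_sub_cancel_right] at this⟩

/-- second average: the linearisation of `Pav K g` -/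
noncomputable def Hav (g : Lip0 X) (x : X) : ℝ :=
  invMean X (fun y : X => Pav K g (x + y) - Pav K g y)

lemma Hav_sub_le (g : Lip0 X) (x x' : X) : |Hav K g x - Hav K g x'| ≤ ‖g‖ * ‖x - x'‖ := by
  have hM := invMean_isInvMean X
  rw [Hav, Hav, ← hM.sub (bdd_diff2 K g x) (bdd_diff2 K g x')]
  apply hM.bound
  intro z
  have := Pav_sub_le K g (x + z) (x' + z)
  rw [add_sub_add_right_eq_sub] at this
  convert this using 2
  ring

lemma Hav_of_mem (g : Lip0 X) {w : X} (hw : w ∈ K) : Hav K g w = Pav K g w := by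
  have hM := invMean_isInvMean X
  have : (fun y : X => Pav K g (w + y) - Pav K g y) = fun _ => Pav K g w := by
    ext y
    rw [add_comm w y, Pav_add_mem K g y hw]
    ring
  rw [Hav, this, hM.const]

lemma Hav_add_arg (g : Lip0 X) (x x' : X) : Hav K g (x + x') = Hav K g x + Hav K g x' := by
  have hM := invMean_isInvMean X
  have h1 : Hav K g x = invMean X (fun y : X => Pav K g (x + (y + x')) - Pav K g (y + x')) := by
    have := hM.inv (fun y : X => Pav K g (x + y) - Pav K g y) x' (bdd_diff2 K g x)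
    rw [Hav, ← this]
  rw [h1]
  unfold Hav
  rw [← hM.add _ _ ((bdd_diff2 K g x).comp (fun z : X => z + x')) (bdd_diff2 K g x')]
  congr 1
  ext y
  have e1 : x + x' + y = x + (y + x') := by abel
  have e2 : x' + y = y + x' := by abel
  rw [e1, e2]
  ring

lemma Hav_add (f g : Lip0 X) (x : X) : Hav K (f + g) x = Hav K f x + Hav K g x := by
  have hM := invMean_isInvMean X
  unfold Hav
  rw [← hM.add _ _ (bdd_diff2 K f x) (bdd_diff2 K g x)]
  congr 1
  ext z
  simp only [Pav_add]
  ring

lemma Hav_smul (c : ℝ) (f : Lip0 X) (x : X) : Hav K (c • f) x = c * Hav K f x := by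
  have hM := invMean_isInvMean X
  unfold Hav
  rw [← hM.smul c _ (bdd_diff2 K f x)]
  congr 1
  ext z
  simp only [Pav_smul]
  ring

/-- The operator `R` as a function. -/
noncomputable def Rav (g : Lip0 X) (x : X) : ℝ := Pav K g x - Hav K g x

lemma Rav_zero (g : Lip0 X) : Rav K g 0 = 0 := by
  have h1 : Hav K g 0 = 0 := by
    rw [Hav_of_mem K g K.zero_mem, Pav_zero]
  rw [Rav, Pav_zero, h1, sub_zero]

lemma Rav_sub_le (g : Lip0 X) (x x' : X) : |Rav K g x - Rav K g x'| ≤ 2 * ‖g‖ * ‖x - x'‖ := by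
  have h1 := Pav_sub_le K g x x'
  have h2 := Hav_sub_le K g x x'
  have h3 : Rav K g x - Rav K g x' = (Pav K g x - Pav K g x') - (Hav K g x - Hav K g x') := by
    unfold Rav; ring
  rw [h3]
  calc _ ≤ |Pav K g x - Pav K g x'| + |Hav K g x - Hav K g x'| := abs_sub _ _
    _ ≤ _ := by linarith

lemma Rav_add_mem (g : Lip0 X) (x : X) {w : X} (hw : w ∈ K) :
    Rav K g (x + w) = Rav K g x := by
  unfold Rav
  rw [Pav_add_mem K g x hw, Hav_add_arg, Hav_of_mem K g hw]
  ring

lemma Rav_add (f g : Lip0 X) (x : X) : Rav K (f + g) x = Rav K f x + Rav K g x := by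
  unfold Rav
  rw [Pav_add, Hav_add]
  ring

lemma Rav_smul (c : ℝ) (f : Lip0 X) (x : X) : Rav K (c • f) x = c * Rav K f x := by
  unfold Rav
  rw [Pav_smul, Hav_smul]
  ring

/-- `R` fixes bounded `K`-periodic functions. -/
lemma Rav_of_periodic (g : Lip0 X) (hb : Bdd (fun x => g x))
    (hp : ∀ x, ∀ w ∈ K, g (x + w) = g x) (x : X) : Rav K g x = g x := by
  have hM := invMean_isInvMean K
  have hN := invMean_isInvMean X
  have hz : ∀ w ∈ K, g w = 0 := by
    intro w hw
    have := hp 0 w hw
    rw [zero_add] at this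
    rw [this, Lip0.map_zero]
  have hP : ∀ x, Pav K g x = g x := by
    intro x
    have : (fun z : K => g (x + z) - g z) = fun _ => g x := by
      ext z
      rw [hp x z z.2, hz z z.2, sub_zero]
    rw [Pav, this, hM.const]
  have hH : Hav K g x = 0 := by
    unfold Hav
    simp only [hP]
    have hb' : Bdd (fun y => g (x + y)) := hb.comp (fun y => x + y)
    rw [hN.sub hb' hb]
    have : (fun y => g (x + y)) = (fun y => g (y + x)) := by
      ext y; rw [add_comm]
    rw [this, hN.inv (fun y => g y) x hb, sub_self]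
  rw [Rav, hP, hH, sub_zero]

end Pool.Agent.Helper93
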