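import Mathlib
import Pool.Agent.Helper93.Periodic
import Pool.Agent.Helper93.Compl

/-!
# The dual of `X` is `1`-complemented in `Lip₀(X)`
-/

set_option autoImplicit false
set_option linter.unusedSectionVars false

namespace Pool.Agent.Helper93

open Filter Topology

section

variable {X : Type*} [NormedAddCommGroup X] [NormedSpace ℝ X]

/-- functionals are Lipschitz functions -/
noncomputable def dualToLip : StrongDual ℝ X →L[ℝ] Lip0 X :=
  LinearMap.mkContinuous
    { toFun := fun φ => Lip0.mk' (fun x => φ x) (map_zero φ) ‖φ‖ (fun x y => by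
        rw [← map_sub, dist_eq_norm, ← Real.norm_eq_abs]
        exact φ.le_opNorm _)
      map_add' := fun φ ψ => rfl
      map_smul' := fun c φ => rfl } 1 (fun φ => by
    rw [one_mul]
    refine Lip0.norm_le_of_forall (norm_nonneg _) (fun x y => ?_)
    change |φ x - φ y| ≤ _
    rw [← map_sub, dist_eq_norm, ← Real.norm_eq_abs]
    exact φ.le_opNorm _)

lemma dualToLip_apply (φ : StrongDual ℝ X) (x : X) : dualToLip φ x = φ x := rfl

lemma Hav_zero_arg (K : AddSubgroup X) (g : Lip0 X) : Hav K g 0 = 0 := by
  rw [Hav_of_mem K g K.zero_mem, Pav_zero]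

/-- the linearisation of a Lipschitz function -/
noncomputable def linz (g : Lip0 X) : StrongDual ℝ X :=
  AddMonoidHom.toRealLinearMap
    { toFun := Hav (⊥ : AddSubgroup X) g
      map_zero' := Hav_zero_arg _ g
      map_add' := Hav_add_arg _ g }
    (by
      have : LipschitzWith ‖g‖.toNNReal (Hav (⊥ : AddSubgroup X) g) :=
        LipschitzWith.of_dist_le_mul fun x y => by
          rw [Real.dist_eq, dist_eq_norm, Real.coe_toNNReal _ (norm_nonneg _)]
          exact Hav_sub_le _ g x y
      exact this.continuous)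

lemma linz_apply (g : Lip0 X) (x : X) : linz g x = Hav (⊥ : AddSubgroup X) g x := rfl

lemma linz_norm_le (g : Lip0 X) : ‖linz g‖ ≤ ‖g‖ := by
  refine ContinuousLinearMap.opNorm_le_bound _ (norm_nonneg _) fun x => ?_
  have := Hav_sub_le (⊥ : AddSubgroup X) g x 0
  rw [Hav_zero_arg, sub_zero, sub_zero] at this
  exact this

/-- linearisation as an operator -/
noncomputable def linzL : Lip0 X →L[ℝ] StrongDual ℝ X :=
  LinearMap.mkContinuous
    { toFun := linz
      map_add' := fun f g => by
        ext x
        change Hav (⊥ : AddSubgroup X) (f + g) x = Hav (⊥ : AddSubgroup X) f x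
          + Hav (⊥ : AddSubgroup X) g x
        exact Hav_add _ f g x
      map_smul' := fun c f => by
        ext x
        change Hav (⊥ : AddSubgroup X) (c • f) x = c * Hav (⊥ : AddSubgroup X) f x
        exact Hav_smul _ c f x } 1 (fun g => by rw [one_mul]; exact linz_norm_le g)

lemma linzL_dualToLip (φ : StrongDual ℝ X) : linzL (dualToLip φ) = φ := by
  ext x
  change Hav (⊥ : AddSubgroup X) (dualToLip φ) x = φ x
  have hM := invMean_isInvMean (⊥ : AddSubgroup X)
  have hN := invMean_isInvMean X
  have hP : ∀ y, Pav (⊥ : AddSubgroup X) (dualToLip φ) y = φ y := by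
    intro y
    have : (fun z : (⊥ : AddSubgroup X) => dualToLip φ (y + z) - dualToLip φ z)
        = fun _ => φ y := by
      ext z
      simp only [dualToLip_apply, map_add]
      ring
    rw [Pav, this, hM.const]
  have : (fun y : X => Pav (⊥ : AddSubgroup X) (dualToLip φ) (x + y)
      - Pav (⊥ : AddSubgroup X) (dualToLip φ) y) = fun _ => φ x := by
    ext y
    simp only [hP, map_add]
    ring
  rw [Hav, this, hN.const]

/-- The dual of `X` is `1`-complemented in `Lip₀(X)`. -/
theorem dual_uc_lip : UC 1 (StrongDual ℝ X) (Lip0 X) :=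
  ⟨dualToLip, linzL, linzL_dualToLip, LinearMap.mkContinuous_norm_le _ zero_le_one _,
    LinearMap.mkContinuous_norm_le _ zero_le_one _⟩

end

/-- Every finite-dimensional space is `1`-complemented in `Lip₀` of its dual. -/
theorem fd_uc_lip_dual (G : Type*) [NormedAddCommGroup G] [NormedSpace ℝ G]
    [FiniteDimensional ℝ G] : UC 1 G (Lip0 (StrongDual ℝ G)) := by
  have h1 : Module.finrank ℝ (StrongDual ℝ G) = Module.finrank ℝ G := by
    rw [← (LinearMap.toContinuousLinearMap (𝕜 := ℝ) (E := G) (F' := ℝ)).finrank_eq]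
    exact Subspace.dual_finrank_eq
  have h2 : Module.finrank ℝ (StrongDual ℝ (StrongDual ℝ G))
      = Module.finrank ℝ (StrongDual ℝ G) := by
    rw [← (LinearMap.toContinuousLinearMap (𝕜 := ℝ) (E := StrongDual ℝ G) (F' := ℝ)).finrank_eq]
    exact Subspace.dual_finrank_eq
  let e : G ≃ₗᵢ[ℝ] StrongDual ℝ (StrongDual ℝ G) :=
    (NormedSpace.inclusionInDoubleDualLi (E := G) ℝ).toLinearIsometryEquiv (by rw [h2, h1])
  have h3 : UC 1 G (StrongDual ℝ (StrongDual ℝ G)) := by
    refine ⟨e.toContinuousLinearEquiv, e.symm.toContinuousLinearEquiv,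
      fun a => e.symm_apply_apply a, ?_, ?_⟩
    · exact ContinuousLinearMap.opNorm_le_bound _ zero_le_one fun x => by
        rw [one_mul]; exact (e.norm_map x).le
    · exact ContinuousLinearMap.opNorm_le_bound _ zero_le_one fun x => by
        rw [one_mul]; exact (e.symm.norm_map x).le
  have := h3.trans (dual_uc_lip (X := StrongDual ℝ G))
  rwa [one_mul] at this

end Pool.Agent.Helper93
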