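import Mathlib

/-!
# The Efron–Stein inequality for bounded measurable functions
-/

set_option autoImplicit false

namespace Pool.Agent.Helper93

open MeasureTheory

/-- bounded measurable real functions -/
structure BM {Ω : Type*} [MeasurableSpace Ω] (f : Ω → ℝ) : Prop where
  meas : Measurable f
  bdd : ∃ C : ℝ, ∀ x, |f x| ≤ C

section BM

variable {Ω Ω' : Type*} [MeasurableSpace Ω] [MeasurableSpace Ω']

lemma BM.integrable {f : Ω → ℝ} (hf : BM f) (μ : Measure Ω) [IsFiniteMeasure μ] :
    Integrable f μ := by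
  obtain ⟨C, hC⟩ := hf.bdd
  exact Integrable.of_bound hf.meas.aestronglyMeasurable C (Filter.Eventually.of_forall hC)

lemma BM.add {f g : Ω → ℝ} (hf : BM f) (hg : BM g) : BM (fun x => f x + g x) := by
  obtain ⟨C, hC⟩ := hf.bdd
  obtain ⟨D, hD⟩ := hg.bdd
  exact ⟨hf.meas.add hg.meas, C + D, fun i => (abs_add_le _ _).trans (add_le_add (hC i) (hD i))⟩

lemma BM.sub {f g : Ω → ℝ} (hf : BM f) (hg : BM g) : BM (fun x => f x - g x) := by
  obtain ⟨C, hC⟩ := hf.bdd
  obtain ⟨D, hD⟩ := hg.bdd
  exact ⟨hf.meas.sub hg.meas, C + D, fun i => (abs_sub _ _).trans (add_le_add (hC i) (hD i))⟩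

lemma BM.mul {f g : Ω → ℝ} (hf : BM f) (hg : BM g) : BM (fun x => f x * g x) := by
  obtain ⟨C, hC⟩ := hf.bdd
  obtain ⟨D, hD⟩ := hg.bdd
  refine ⟨hf.meas.mul hg.meas, C * D, fun i => ?_⟩
  rw [abs_mul]
  exact mul_le_mul (hC i) (hD i) (abs_nonneg _) ((abs_nonneg _).trans (hC i))

lemma BM.const (c : ℝ) : BM (fun _ : Ω => c) := ⟨measurable_const, |c|, fun _ => le_rfl⟩

lemma BM.sq {f : Ω → ℝ} (hf : BM f) : BM (fun x => f x ^ 2) := by
  have := hf.mul hf
  simp only [← pow_two] at this
  exact this

lemma BM.posPart {f : Ω → ℝ} (hf : BM f) : BM (fun x => max (f x) 0) := by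
  obtain ⟨C, hC⟩ := hf.bdd
  refine ⟨hf.meas.max measurable_const, C, fun i => ?_⟩
  rw [abs_of_nonneg (le_max_right _ _)]
  exact max_le ((le_abs_self _).trans (hC i)) ((abs_nonneg _).trans (hC i))

lemma BM.comp {f : Ω → ℝ} (hf : BM f) {φ : Ω' → Ω} (hφ : Measurable φ) : BM (fun x => f (φ x)) := by
  obtain ⟨C, hC⟩ := hf.bdd
  exact ⟨hf.meas.comp hφ, C, fun i => hC _⟩

lemma BM.sum {ι : Type*} (s : Finset ι) {f : ι → Ω → ℝ} (hf : ∀ i, BM (f i)) :
    BM (fun x => ∑ i ∈ s, f i x) := by
  classical
  induction s using Finset.induction_on with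
  | empty => simpa using BM.const (Ω := Ω) 0
  | insert a s ha ih =>
    simp only [Finset.sum_insert ha]
    exact (hf a).add ih

lemma BM.abs_integral_le {f : Ω → ℝ} {C : ℝ} (hC : ∀ x, |f x| ≤ C) (μ : Measure Ω)
    [IsProbabilityMeasure μ] : |∫ x, f x ∂μ| ≤ C := by
  have := norm_integral_le_of_norm_le_const (μ := μ) (f := f) (C := C)
    (Filter.Eventually.of_forall hC)
  simpa using this

lemma BM.integral_right {f : Ω × Ω' → ℝ} (hf : BM f) (ν : Measure Ω') [IsProbabilityMeasure ν] :
    BM (fun a => ∫ b, f (a, b) ∂ν) := by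
  obtain ⟨C, hC⟩ := hf.bdd
  refine ⟨?_, C, fun a => BM.abs_integral_le (fun b => hC _) ν⟩
  exact (hf.meas.stronglyMeasurable.integral_prod_right' (ν := ν)).measurable

lemma BM.integral_left {f : Ω × Ω' → ℝ} (hf : BM f) (μ : Measure Ω) [IsProbabilityMeasure μ] :
    BM (fun b => ∫ a, f (a, b) ∂μ) := by
  obtain ⟨C, hC⟩ := hf.bdd
  refine ⟨?_, C, fun a => BM.abs_integral_le (fun b => hC _) μ⟩
  exact (hf.meas.stronglyMeasurable.integral_prod_left' (μ := μ)).measurable

end BM

/-- the variance -/
noncomputable def Vr {Ω : Type*} [MeasurableSpace Ω] (μ : Measure Ω) (f : Ω → ℝ) : ℝ :=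
  ∫ x, f x ^ 2 ∂μ - (∫ x, f x ∂μ) ^ 2

lemma BM.Vr_right {Ω Ω' : Type*} [MeasurableSpace Ω] [MeasurableSpace Ω'] {f : Ω × Ω' → ℝ}
    (hf : BM f) (ν : Measure Ω') [IsProbabilityMeasure ν] :
    BM (fun a => Vr ν (fun b => f (a, b))) :=
  (hf.sq.integral_right ν).sub (hf.integral_right ν).sq

lemma BM.Vr_left {Ω Ω' : Type*} [MeasurableSpace Ω] [MeasurableSpace Ω'] {f : Ω × Ω' → ℝ}
    (hf : BM f) (μ : Measure Ω) [IsProbabilityMeasure μ] :
    BM (fun b => Vr μ (fun a => f (a, b))) :=
  (hf.sq.integral_left μ).sub (hf.integral_left μ).sq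

/-- subadditivity of the variance for products of two spaces -/
lemma Vr_prod_le {A B : Type*} [MeasurableSpace A] [MeasurableSpace B] (μ : Measure A)
    (ν : Measure B) [IsProbabilityMeasure μ] [IsProbabilityMeasure ν] {f : A × B → ℝ}
    (hf : BM f) :
    Vr (μ.prod ν) f ≤ ∫ b, Vr μ (fun a => f (a, b)) ∂ν + ∫ a, Vr ν (fun b => f (a, b)) ∂μ := by
  set F1 : A → ℝ := fun a => ∫ b, f (a, b) ∂ν with hF1
  set F2 : B → ℝ := fun b => ∫ a, f (a, b) ∂μ with hF2
  set m : ℝ := ∫ z, f z ∂(μ.prod ν) with hm
  have bF1 : BM F1 := hf.integral_right ν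
  have bF2 : BM F2 := hf.integral_left μ
  have hm1 : ∫ a, F1 a ∂μ = m := (integral_prod f (hf.integrable _)).symm
  have hm2 : ∫ b, F2 b ∂ν = m := (integral_prod_symm f (hf.integrable _)).symm
  have bF1' : BM (fun z : A × B => F1 z.1) := bF1.comp measurable_fst
  have bF2' : BM (fun z : A × B => F2 z.2) := bF2.comp measurable_snd
  have e1 : ∫ b, Vr μ (fun a => f (a, b)) ∂ν = ∫ z, f z ^ 2 ∂(μ.prod ν) - ∫ b, F2 b ^ 2 ∂ν := by
    unfold Vr
    rw [integral_sub ((hf.sq.integral_left μ).integrable ν) (bF2.sq.integrable ν)]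
    rw [integral_prod_symm _ (hf.sq.integrable _)]
  have e2 : ∫ a, Vr ν (fun b => f (a, b)) ∂μ = ∫ z, f z ^ 2 ∂(μ.prod ν) - ∫ a, F1 a ^ 2 ∂μ := by
    unfold Vr
    rw [integral_sub ((hf.sq.integral_right ν).integrable μ) (bF1.sq.integrable μ)]
    rw [integral_prod _ (hf.sq.integrable _)]
  -- the key nonnegativity
  have key : 0 ≤ ∫ z, (f z - F1 z.1 - F2 z.2 + m) ^ 2 ∂(μ.prod ν) :=
    integral_nonneg fun z => sq_nonneg _
  have c1 : ∫ z : A × B, f z * F1 z.1 ∂(μ.prod ν) = ∫ a, F1 a ^ 2 ∂μ := by
    rw [integral_prod _ ((hf.mul bF1').integrable _)]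
    congr 1
    ext a
    simp only
    rw [integral_mul_const, pow_two]
  have c2 : ∫ z : A × B, f z * F2 z.2 ∂(μ.prod ν) = ∫ b, F2 b ^ 2 ∂ν := by
    rw [integral_prod_symm _ ((hf.mul bF2').integrable _)]
    congr 1
    ext b
    simp only
    rw [integral_mul_const, pow_two]
  have c3 : ∫ z : A × B, F1 z.1 * F2 z.2 ∂(μ.prod ν) = m * m := by
    rw [integral_prod_mul, hm1, hm2]
  have c4 : ∫ z : A × B, F1 z.1 ^ 2 ∂(μ.prod ν) = ∫ a, F1 a ^ 2 ∂μ := by
    rw [integral_prod _ (bF1'.sq.integrable _)]
    simp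
  have c5 : ∫ z : A × B, F2 z.2 ^ 2 ∂(μ.prod ν) = ∫ b, F2 b ^ 2 ∂ν := by
    rw [integral_prod _ (bF2'.sq.integrable _)]
    simp
  have c6 : ∫ z : A × B, F1 z.1 ∂(μ.prod ν) = m := by
    rw [integral_prod _ (bF1'.integrable _)]
    simp [hm1]
  have c7 : ∫ z : A × B, F2 z.2 ∂(μ.prod ν) = m := by
    rw [integral_prod _ (bF2'.integrable _)]
    simp [hm2]
  have expand : ∫ z, (f z - F1 z.1 - F2 z.2 + m) ^ 2 ∂(μ.prod ν)
      = ∫ z, f z ^ 2 ∂(μ.prod ν) - ∫ a, F1 a ^ 2 ∂μ - ∫ b, F2 b ^ 2 ∂ν + m ^ 2 := by
    have h1 : ∀ z : A × B, (f z - F1 z.1 - F2 z.2 + m) ^ 2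
        = f z ^ 2 + F1 z.1 ^ 2 + F2 z.2 ^ 2 + m ^ 2 + (-2) * (f z * F1 z.1)
          + (-2) * (f z * F2 z.2) + 2 * (F1 z.1 * F2 z.2) + (2 * m) * f z
          + (-2 * m) * F1 z.1 + (-2 * m) * F2 z.2 := by
      intro z; ring
    simp only [h1]
    have i1 := hf.sq
    have i2 := bF1'.sq
    have i3 := bF2'.sq
    have i4 : BM (fun _ : A × B => m ^ 2) := BM.const _
    have i5 := (BM.const (Ω := A × B) (-2)).mul (hf.mul bF1')
    have i6 := (BM.const (Ω := A × B) (-2)).mul (hf.mul bF2')
    have i7 := (BM.const (Ω := A × B) (2)).mul (bF1'.mul bF2')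
    have i8 := (BM.const (Ω := A × B) (2 * m)).mul hf
    have i9 := (BM.const (Ω := A × B) (-2 * m)).mul bF1'
    have i10 := (BM.const (Ω := A × B) (-2 * m)).mul bF2'
    rw [integral_add (((((((((i1.add i2).add i3).add i4).add i5).add i6).add i7).add i8).add i9).integrable _)
      (i10.integrable _)]
    rw [integral_add ((((((((i1.add i2).add i3).add i4).add i5).add i6).add i7).add i8).integrable _)
      (i9.integrable _)]
    rw [integral_add (((((((i1.add i2).add i3).add i4).add i5).add i6).add i7).integrable _)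
      (i8.integrable _)]
    rw [integral_add ((((((i1.add i2).add i3).add i4).add i5).add i6).integrable _)
      (i7.integrable _)]
    rw [integral_add (((((i1.add i2).add i3).add i4).add i5).integrable _)
      (i6.integrable _)]
    rw [integral_add ((((i1.add i2).add i3).add i4).integrable _)
      (i5.integrable _)]
    rw [integral_add (((i1.add i2).add i3).integrable _)
      (i4.integrable _)]
    rw [integral_add ((i1.add i2).integrable _)
      (i3.integrable _)]
    rw [integral_add (i1.integrable _)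
      (i2.integrable _)]
    simp only [integral_const_mul, c1, c2, c3, c4, c5, c6, c7, integral_const, probReal_univ,
      smul_eq_mul, one_mul]
    rw [← hm]
    ring
  rw [expand] at key
  rw [e1, e2, Vr]
  linarith

section pi

variable {A : Type*} [MeasurableSpace A]

lemma integral_pi_succ (μ : Measure A) [IsProbabilityMeasure μ] (n : ℕ)
    (g : (Fin (n + 1) → A) → ℝ) :
    ∫ ω, g ω ∂(Measure.pi fun _ : Fin (n + 1) => μ)
      = ∫ p : A × (Fin n → A), g (Fin.cons p.1 p.2) ∂(μ.prod (Measure.pi fun _ : Fin n => μ)) := by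
  have hmp := measurePreserving_piFinSuccAbove (fun _ : Fin (n + 1) => μ) 0
  have h1 := hmp.symm.integral_comp' (g := g)
  rw [← h1]
  congr 1
  ext p
  congr 1
  ext i
  refine Fin.cases ?_ (fun j => ?_) i <;> simp [MeasurableEquiv.piFinSuccAbove]

lemma measurable_cons' (n : ℕ) :
    Measurable (fun p : A × (Fin n → A) => (Fin.cons p.1 p.2 : Fin (n + 1) → A)) := by
  refine measurable_pi_lambda _ fun i => ?_
  refine Fin.cases ?_ (fun j => ?_) i
  · simpa using measurable_fst
  · simp only [Fin.cons_succ]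
    exact (measurable_pi_apply j).comp measurable_snd

theorem Vr_pi_le (μ : Measure A) [IsProbabilityMeasure μ] : ∀ (n : ℕ) (f : (Fin n → A) → ℝ),
    BM f → Vr (Measure.pi fun _ : Fin n => μ) f
      ≤ ∑ i, ∫ ω, Vr μ (fun y => f (Function.update ω i y)) ∂(Measure.pi fun _ : Fin n => μ) := by
  intro n
  induction n with
  | zero =>
    intro f hf
    have h1 : ∀ g : (Fin 0 → A) → ℝ, ∫ ω, g ω ∂(Measure.pi fun _ : Fin 0 => μ) = g (fun i => i.elim0) := by
      intro g
      have : g = fun _ => g (fun i => i.elim0) := by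
        ext ω
        congr 1
        exact Subsingleton.elim _ _
      rw [this]
      simp
    simp only [Vr, h1, Finset.univ_eq_empty, Finset.sum_empty]
    linarith
  | succ n ih =>
    intro f hf
    set P := Measure.pi fun _ : Fin n => μ with hP
    have bf : BM (fun p : A × (Fin n → A) => f (Fin.cons p.1 p.2)) := hf.comp (measurable_cons' n)
    have h1 : Vr (Measure.pi fun _ : Fin (n + 1) => μ) f
        = Vr (μ.prod P) (fun p : A × (Fin n → A) => f (Fin.cons p.1 p.2)) := by
      unfold Vr
      rw [integral_pi_succ, integral_pi_succ]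
    rw [h1]
    refine (Vr_prod_le μ P bf).trans ?_
    rw [Fin.sum_univ_succ]
    refine add_le_add ?_ ?_
    · apply le_of_eq
      rw [integral_pi_succ]
      simp only [Fin.update_cons_zero]
      have b1 : BM (fun z : Fin n → A => Vr μ (fun y => f (Fin.cons y z))) := bf.Vr_left μ
      rw [integral_prod (fun p : A × (Fin n → A) => Vr μ (fun y => f (Fin.cons y p.2)))
        ((b1.comp measurable_snd).integrable _)]
      simp [hP]
    · have b2 : ∀ j : Fin n, BM (fun p : A × (Fin n → A) =>
          Vr μ (fun y => f (Fin.cons p.1 (Function.update p.2 j y)))) := by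
        intro j
        have hm : Measurable (fun q : (A × (Fin n → A)) × A =>
            (Fin.cons q.1.1 (Function.update q.1.2 j q.2) : Fin (n + 1) → A)) := by
          have h2 : Measurable (fun q : (A × (Fin n → A)) × A =>
              ((q.1.1, Function.update q.1.2 j q.2) : A × (Fin n → A))) := by
            refine Measurable.prodMk (measurable_fst.comp measurable_fst) ?_
            exact measurable_update'.comp
              ((measurable_snd.comp measurable_fst).prodMk measurable_snd)
          exact (measurable_cons' n).comp h2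
        exact (hf.comp hm).Vr_right μ
      have h3 : ∀ j : Fin n, ∫ ω, Vr μ (fun y => f (Function.update ω j.succ y))
          ∂(Measure.pi fun _ : Fin (n + 1) => μ)
          = ∫ a, ∫ z, Vr μ (fun y => f (Fin.cons a (Function.update z j y))) ∂P ∂μ := by
        intro j
        rw [integral_pi_succ]
        simp only [← Fin.cons_update]
        rw [integral_prod _ ((b2 j).integrable _)]
      simp only [h3]
      rw [← integral_finsetSum]
      · refine integral_mono ((bf.Vr_right P).integrable _) ?_ ?_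
        · exact (BM.sum Finset.univ (fun j => (b2 j).integral_right P)).integrable _
        · intro a
          exact ih (fun z => f (Fin.cons a z)) (hf.comp ((measurable_cons' n).comp
            (measurable_const.prodMk measurable_id)))
      · intro j _
        exact ((b2 j).integral_right P).integrable _

/-- resampling one coordinate preserves the product measure -/
lemma measurePreserving_resample (μ : Measure A) [IsProbabilityMeasure μ] (n : ℕ) (i : Fin n) :
    MeasurePreserving (fun p : (Fin n → A) × A => Function.update p.1 i p.2)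
      ((Measure.pi fun _ : Fin n => μ).prod μ) (Measure.pi fun _ : Fin n => μ) := by
  refine ⟨measurable_update', ?_⟩
  symm
  apply Measure.pi_eq
  intro s hs
  rw [Measure.map_apply measurable_update' (MeasurableSet.univ_pi hs)]
  have h1 : (fun p : (Fin n → A) × A => Function.update p.1 i p.2) ⁻¹' (Set.univ.pi s)
      = (Set.univ.pi (Function.update s i Set.univ)) ×ˢ (s i) := by
    ext ⟨ω, y⟩
    simp only [Set.mem_preimage, Set.mem_pi, Set.mem_univ, true_implies, Set.mem_prod]
    constructor
    · intro h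
      refine ⟨fun j => ?_, ?_⟩
      · by_cases hj : j = i
        · subst hj; simp
        · have := h j
          rw [Function.update_of_ne hj] at this
          rwa [Function.update_of_ne hj]
      · have := h i
        simpa using this
    · rintro ⟨h2, h3⟩ j
      by_cases hj : j = i
      · subst hj; simpa using h3
      · have := h2 j
        rw [Function.update_of_ne hj] at this
        rwa [Function.update_of_ne hj]
  rw [h1, Measure.prod_prod, Measure.pi_pi]
  rw [← Finset.mul_prod_erase Finset.univ _ (Finset.mem_univ i),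
    ← Finset.mul_prod_erase Finset.univ (fun j => μ (s j)) (Finset.mem_univ i)]
  simp only [Function.update_self, measure_univ, one_mul]
  rw [mul_comm]
  congr 1
  refine Finset.prod_congr rfl fun j hj => ?_
  rw [Function.update_of_ne (Finset.ne_of_mem_erase hj)]

/-- the variance as an integral of squared positive parts -/
lemma Vr_eq_pos (μ : Measure A) [IsProbabilityMeasure μ] {h : A → ℝ} (hh : BM h) :
    Vr μ h = ∫ y, ∫ y', (max (h y - h y') 0) ^ 2 ∂μ ∂μ := by
  have b1 : BM (fun p : A × A => h p.1 - h p.2) :=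
    (hh.comp measurable_fst).sub (hh.comp measurable_snd)
  have b2 : BM (fun p : A × A => (max (h p.1 - h p.2) 0) ^ 2) := b1.posPart.sq
  have b3 : BM (fun p : A × A => (max (h p.2 - h p.1) 0) ^ 2) :=
    ((hh.comp measurable_snd).sub (hh.comp measurable_fst)).posPart.sq
  have h1 : ∫ p : A × A, (h p.1 - h p.2) ^ 2 ∂(μ.prod μ) = 2 * Vr μ h := by
    have e1 : ∀ p : A × A, (h p.1 - h p.2) ^ 2
        = h p.1 ^ 2 + h p.2 ^ 2 + (-2) * (h p.1 * h p.2) := by
      intro p; ring
    simp only [e1]
    have i1 := (hh.comp (measurable_fst (α := A) (β := A))).sq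
    have i2 := (hh.comp (measurable_snd (α := A) (β := A))).sq
    have i3 := (BM.const (Ω := A × A) (-2)).mul
      ((hh.comp (measurable_fst (α := A) (β := A))).mul (hh.comp (measurable_snd (α := A) (β := A))))
    rw [integral_add ((i1.add i2).integrable _) (i3.integrable _),
      integral_add (i1.integrable _) (i2.integrable _), integral_const_mul, integral_prod_mul,
      integral_prod _ (i1.integrable _), integral_prod _ (i2.integrable _)]
    simp only [integral_const, probReal_univ, smul_eq_mul, one_mul, Vr]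
    ring
  have h2 : ∀ p : A × A, (h p.1 - h p.2) ^ 2
      = (max (h p.1 - h p.2) 0) ^ 2 + (max (h p.2 - h p.1) 0) ^ 2 := by
    intro p
    rcases le_total (h p.1) (h p.2) with hle | hle
    · rw [max_eq_right (by linarith), max_eq_left (by linarith)]; ring
    · rw [max_eq_left (by linarith), max_eq_right (by linarith)]; ring
  have h3 : ∫ p : A × A, (max (h p.2 - h p.1) 0) ^ 2 ∂(μ.prod μ)
      = ∫ p : A × A, (max (h p.1 - h p.2) 0) ^ 2 ∂(μ.prod μ) := by
    rw [← integral_prod_swap]
    rfl
  simp only [h2] at h1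
  rw [integral_add (b2.integrable _) (b3.integrable _), h3] at h1
  rw [← integral_prod _ (b2.integrable _)]
  linarith

/-- **Efron–Stein inequality** with positive parts -/
theorem efron_stein (μ : Measure A) [IsProbabilityMeasure μ] (n : ℕ) (f : (Fin n → A) → ℝ)
    (hf : BM f) :
    Vr (Measure.pi fun _ : Fin n => μ) f
      ≤ ∫ ω, ∑ i, ∫ y, (max (f ω - f (Function.update ω i y)) 0) ^ 2 ∂μ
        ∂(Measure.pi fun _ : Fin n => μ) := by
  refine (Vr_pi_le μ n f hf).trans (le_of_eq ?_)
  set P := Measure.pi fun _ : Fin n => μ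
  have bu : ∀ i : Fin n, BM (fun p : (Fin n → A) × A => f (Function.update p.1 i p.2)) :=
    fun i => hf.comp measurable_update'
  have bG : ∀ i : Fin n, BM (fun ω : Fin n → A =>
      ∫ y, (max (f ω - f (Function.update ω i y)) 0) ^ 2 ∂μ) := by
    intro i
    have : BM (fun p : (Fin n → A) × A => (max (f p.1 - f (Function.update p.1 i p.2)) 0) ^ 2) :=
      ((hf.comp measurable_fst).sub (bu i)).posPart.sq
    exact this.integral_right μ
  rw [integral_finsetSum _ (fun i _ => (bG i).integrable _)]
  refine Finset.sum_congr rfl fun i _ => ?_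
  have h1 : ∀ ω : Fin n → A, Vr μ (fun y => f (Function.update ω i y))
      = ∫ y, (∫ y', (max (f (Function.update ω i y)
        - f (Function.update (Function.update ω i y) i y')) 0) ^ 2 ∂μ) ∂μ := by
    intro ω
    rw [Vr_eq_pos μ ((bu i).comp (measurable_const.prodMk measurable_id) (φ := fun y => (ω, y)))]
    simp only [Function.update_idem]
  simp only [h1]
  have hmp := measurePreserving_resample μ n i
  have h2 := (bG i).comp (φ := fun p : (Fin n → A) × A => Function.update p.1 i p.2) measurable_update'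
  rw [← integral_prod (fun p : (Fin n → A) × A => ∫ y', (max (f (Function.update p.1 i p.2)
        - f (Function.update (Function.update p.1 i p.2) i y')) 0) ^ 2 ∂μ) (h2.integrable _)]
  have h3 := integral_map (μ := P.prod μ) (φ := fun p : (Fin n → A) × A => Function.update p.1 i p.2)
    hmp.measurable.aemeasurable
    (f := fun ω : Fin n → A => ∫ y, (max (f ω - f (Function.update ω i y)) 0) ^ 2 ∂μ)
    (bG i).meas.aestronglyMeasurable
  rw [hmp.map_eq] at h3
  exact h3.symm

end pi

end Pool.Agent.Helper93
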