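import Mathlib
import Pool.Agent.Helper93.ES

/-!
# Random operators from Euclidean space: rotation invariance and variance bound
-/

set_option autoImplicit false

namespace Pool.Agent.Helper93

open MeasureTheory
open scoped RealInnerProductSpace

section rho

variable {V : Type*} [NormedAddCommGroup V] [InnerProductSpace ℝ V]

/-- radial map into the unit ball -/
noncomputable def rho (v : V) : V := (1 + ‖v‖)⁻¹ • v

lemma rho_norm_le (v : V) : ‖rho v‖ ≤ 1 := by
  have h : 0 < 1 + ‖v‖ := by positivity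
  rw [rho, norm_smul, norm_inv, Real.norm_of_nonneg h.le, inv_mul_le_iff₀ h]
  linarith

lemma rho_continuous : Continuous (rho : V → V) := by
  unfold rho
  refine Continuous.smul ?_ continuous_id
  refine Continuous.inv₀ (by fun_prop) fun v => ?_
  positivity

lemma rho_isometry (T : V ≃ₗᵢ[ℝ] V) (v : V) : rho (T v) = T (rho v) := by
  rw [rho, rho, T.norm_map, map_smul]

/-- the linear functional `a` of the truncated vector -/
noncomputable def gg (a v : V) : ℝ := ⟪a, rho v⟫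

lemma gg_continuous (a : V) : Continuous (gg a) := by
  unfold gg
  exact continuous_const.inner rho_continuous

lemma abs_gg_le (a v : V) : |gg a v| ≤ ‖a‖ := by
  refine (abs_real_inner_le_norm a (rho v)).trans ?_
  have := mul_le_mul_of_nonneg_left (rho_norm_le v) (norm_nonneg a)
  linarith

lemma gg_add (a b v : V) : gg (a + b) v = gg a v + gg b v := by
  unfold gg; rw [inner_add_left]

lemma gg_smul (c : ℝ) (a v : V) : gg (c • a) v = c * gg a v := by
  unfold gg; rw [real_inner_smul_left]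

lemma gg_isometry (T : V ≃ₗᵢ[ℝ] V) (a v : V) : gg (T a) (T v) = gg a v := by
  unfold gg; rw [rho_isometry, T.inner_map_map]

lemma gg_neg (a v : V) : gg a (-v) = - gg a v := by
  unfold gg rho
  rw [norm_neg, smul_neg, inner_neg_right]

end rho

section Sop

variable {V : Type*} [NormedAddCommGroup V] [InnerProductSpace ℝ V]
variable {Z : Type*} [NormedAddCommGroup Z] [NormedSpace ℝ Z]

/-- the random operator -/
noncomputable def Sop {n : ℕ} (z : Fin n → Z) (a : V) (ω : Fin n → V) : Z :=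
  ∑ p, gg a (ω p) • z p

lemma Sop_add {n : ℕ} (z : Fin n → Z) (a b : V) (ω : Fin n → V) :
    Sop z (a + b) ω = Sop z a ω + Sop z b ω := by
  simp only [Sop, gg_add, add_smul, Finset.sum_add_distrib]

lemma Sop_smul {n : ℕ} (z : Fin n → Z) (c : ℝ) (a : V) (ω : Fin n → V) :
    Sop z (c • a) ω = c • Sop z a ω := by
  simp only [Sop, gg_smul, mul_smul, Finset.smul_sum]

lemma Sop_continuous {n : ℕ} (z : Fin n → Z) (a : V) : Continuous (Sop z a) := by
  unfold Sop
  refine continuous_finsetSum _ fun p _ => ?_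
  exact ((gg_continuous a).comp (continuous_apply p)).smul continuous_const

lemma Sop_norm_le {n : ℕ} (z : Fin n → Z) (a : V) (ω : Fin n → V) :
    ‖Sop z a ω‖ ≤ ∑ p, ‖a‖ * ‖z p‖ := by
  unfold Sop
  refine (norm_sum_le _ _).trans (Finset.sum_le_sum fun p _ => ?_)
  rw [norm_smul]
  exact mul_le_mul_of_nonneg_right (abs_gg_le a _) (norm_nonneg _)

lemma Sop_update {n : ℕ} (z : Fin n → Z) (a : V) (ω : Fin n → V) (p : Fin n) (y : V) :
    Sop z a ω - Sop z a (Function.update ω p y) = (gg a (ω p) - gg a y) • z p := by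
  unfold Sop
  rw [← Finset.sum_sub_distrib, Finset.sum_eq_single p]
  · rw [Function.update_self, sub_smul]
  · intro q _ hq
    rw [Function.update_of_ne hq, sub_self]
  · intro h
    exact absurd (Finset.mem_univ p) h

variable [MeasurableSpace V] [BorelSpace V] [FiniteDimensional ℝ V]

lemma Sop_BM {n : ℕ} (z : Fin n → Z) (a : V) : BM (fun ω : Fin n → V => ‖Sop z a ω‖) := by
  refine ⟨(Sop_continuous z a).norm.measurable, ∑ p, ‖a‖ * ‖z p‖, fun ω => ?_⟩
  rw [abs_norm]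
  exact Sop_norm_le z a ω

/-- a weakly 2-summable sequence -/
lemma weak2 {n : ℕ} {z : Fin n → Z} (hz : ∀ b : Fin n → ℝ, ‖∑ i, b i • z i‖ ^ 2 ≤ ∑ i, b i ^ 2)
    (ψ : StrongDual ℝ Z) (hψ : ‖ψ‖ ≤ 1) : ∑ i, ψ (z i) ^ 2 ≤ 1 := by
  set s := ∑ i, ψ (z i) ^ 2 with hs
  have h1 : s = ψ (∑ i, ψ (z i) • z i) := by
    rw [map_sum]
    simp only [map_smul, smul_eq_mul, hs, pow_two]
  have h2 := hz (fun i => ψ (z i))
  have h3 : |ψ (∑ i, ψ (z i) • z i)| ≤ ‖∑ i, ψ (z i) • z i‖ := by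
    have := ψ.le_opNorm (∑ i, ψ (z i) • z i)
    rw [Real.norm_eq_abs] at this
    refine this.trans ?_
    have := mul_le_mul_of_nonneg_right hψ (norm_nonneg (∑ i, ψ (z i) • z i))
    linarith
  have h4 : s ^ 2 ≤ s := by
    calc s ^ 2 = |ψ (∑ i, ψ (z i) • z i)| ^ 2 := by rw [sq_abs, ← h1]
      _ ≤ ‖∑ i, ψ (z i) • z i‖ ^ 2 := pow_le_pow_left₀ (abs_nonneg _) h3 2
      _ ≤ s := h2
  have h0 : 0 ≤ s := Finset.sum_nonneg fun i _ => sq_nonneg _
  by_contra h
  push Not at h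
  nlinarith

/-- the variance bound -/
lemma Sop_Vr {n : ℕ} {z : Fin n → Z}
    (hz : ∀ b : Fin n → ℝ, ‖∑ i, b i • z i‖ ^ 2 ≤ ∑ i, b i ^ 2)
    (μ : Measure V) [IsProbabilityMeasure μ] (a : V) :
    Vr (Measure.pi fun _ : Fin n => μ) (fun ω => ‖Sop z a ω‖) ≤ 4 * ‖a‖ ^ 2 := by
  refine (efron_stein μ n _ (Sop_BM z a)).trans ?_
  have key : ∀ ω : Fin n → V, ∑ i, ∫ y, (max (‖Sop z a ω‖ - ‖Sop z a (Function.update ω i y)‖) 0) ^ 2 ∂μ
      ≤ 4 * ‖a‖ ^ 2 := by
    intro ω
    obtain ⟨ψ, hψ, hψ2⟩ := exists_dual_vector'' ℝ (Sop z a ω)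
    have h1 : ∀ (i : Fin n) (y : V),
        (max (‖Sop z a ω‖ - ‖Sop z a (Function.update ω i y)‖) 0) ^ 2
          ≤ 4 * ‖a‖ ^ 2 * ψ (z i) ^ 2 := by
      intro i y
      have h2 : ‖Sop z a ω‖ - ‖Sop z a (Function.update ω i y)‖
          ≤ (gg a (ω i) - gg a y) * ψ (z i) := by
        have h3 : ψ (Sop z a (Function.update ω i y)) ≤ ‖Sop z a (Function.update ω i y)‖ := by
          have := ψ.le_opNorm (Sop z a (Function.update ω i y))
          rw [Real.norm_eq_abs] at this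
          have h4 := mul_le_mul_of_nonneg_right hψ (norm_nonneg (Sop z a (Function.update ω i y)))
          have h5 := le_abs_self (ψ (Sop z a (Function.update ω i y)))
          linarith
        have h6 : ψ (Sop z a ω) - ψ (Sop z a (Function.update ω i y))
            = (gg a (ω i) - gg a y) * ψ (z i) := by
          rw [← map_sub, Sop_update, map_smul, smul_eq_mul]
        have h7 : ψ (Sop z a ω) = ‖Sop z a ω‖ := by simpa using hψ2
        linarith
      have h8 : |(gg a (ω i) - gg a y) * ψ (z i)| ≤ 2 * ‖a‖ * |ψ (z i)| := by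
        rw [abs_mul]
        refine mul_le_mul_of_nonneg_right ?_ (abs_nonneg _)
        have := abs_sub (gg a (ω i)) (gg a y)
        have h9 := abs_gg_le a (ω i)
        have h10 := abs_gg_le a y
        linarith
      have h11 : max (‖Sop z a ω‖ - ‖Sop z a (Function.update ω i y)‖) 0
          ≤ 2 * ‖a‖ * |ψ (z i)| := by
        refine max_le ?_ (by positivity)
        exact h2.trans ((le_abs_self _).trans h8)
      calc (max (‖Sop z a ω‖ - ‖Sop z a (Function.update ω i y)‖) 0) ^ 2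
          ≤ (2 * ‖a‖ * |ψ (z i)|) ^ 2 := pow_le_pow_left₀ (le_max_right _ _) h11 2
        _ = 4 * ‖a‖ ^ 2 * ψ (z i) ^ 2 := by
            rw [mul_pow, mul_pow, sq_abs]; ring
    have h12 : ∀ i : Fin n, ∫ y, (max (‖Sop z a ω‖ - ‖Sop z a (Function.update ω i y)‖) 0) ^ 2 ∂μ
        ≤ 4 * ‖a‖ ^ 2 * ψ (z i) ^ 2 := by
      intro i
      have h13 : ∀ y, |(max (‖Sop z a ω‖ - ‖Sop z a (Function.update ω i y)‖) 0) ^ 2|
          ≤ 4 * ‖a‖ ^ 2 * ψ (z i) ^ 2 := by
        intro y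
        rw [abs_of_nonneg (sq_nonneg _)]
        exact h1 i y
      exact (le_abs_self _).trans (BM.abs_integral_le h13 μ)
    calc ∑ i, ∫ y, (max (‖Sop z a ω‖ - ‖Sop z a (Function.update ω i y)‖) 0) ^ 2 ∂μ
        ≤ ∑ i, 4 * ‖a‖ ^ 2 * ψ (z i) ^ 2 := Finset.sum_le_sum fun i _ => h12 i
      _ = 4 * ‖a‖ ^ 2 * ∑ i, ψ (z i) ^ 2 := by rw [Finset.mul_sum]
      _ ≤ 4 * ‖a‖ ^ 2 * 1 := by
          refine mul_le_mul_of_nonneg_left (weak2 hz ψ hψ) (by positivity)
      _ = 4 * ‖a‖ ^ 2 := mul_one _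
  have h0 : ∀ ω : Fin n → V, |∑ i, ∫ y, (max (‖Sop z a ω‖ - ‖Sop z a (Function.update ω i y)‖) 0) ^ 2 ∂μ|
      ≤ 4 * ‖a‖ ^ 2 := by
    intro ω
    rw [abs_of_nonneg (Finset.sum_nonneg fun i _ => integral_nonneg fun y => sq_nonneg _)]
    exact key ω
  exact (le_abs_self _).trans (BM.abs_integral_le h0 _)

/-- rotation invariance of the mean -/
lemma Sop_mean_isometry {n : ℕ} (z : Fin n → Z) (μ : Measure V) [IsProbabilityMeasure μ]
    (T : V ≃ₗᵢ[ℝ] V) (hT : MeasurePreserving T μ μ) (a : V) :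
    ∫ ω, ‖Sop z (T a) ω‖ ∂(Measure.pi fun _ : Fin n => μ)
      = ∫ ω, ‖Sop z a ω‖ ∂(Measure.pi fun _ : Fin n => μ) := by
  have hmp : MeasurePreserving (fun (ω : Fin n → V) i => T (ω i)) (Measure.pi fun _ : Fin n => μ)
      (Measure.pi fun _ : Fin n => μ) := measurePreserving_pi _ _ fun _ => hT
  have h1 : ∀ ω : Fin n → V, ‖Sop z a ω‖ = ‖Sop z (T a) (fun i => T (ω i))‖ := by
    intro ω
    simp only [Sop, gg_isometry]
  have h3 := integral_map (μ := Measure.pi fun _ : Fin n => μ) hmp.measurable.aemeasurable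
    (f := fun ω : Fin n → V => ‖Sop z (T a) ω‖) (Sop_BM z (T a)).meas.aestronglyMeasurable
  rw [hmp.map_eq] at h3
  rw [h3]
  simp only [h1]

lemma Sop_mean_eq {n : ℕ} (z : Fin n → Z) (μ : Measure V) [IsProbabilityMeasure μ]
    (hμ : ∀ T : V ≃ₗᵢ[ℝ] V, MeasurePreserving T μ μ) {a b : V} (hab : ‖a‖ = ‖b‖) :
    ∫ ω, ‖Sop z b ω‖ ∂(Measure.pi fun _ : Fin n => μ)
      = ∫ ω, ‖Sop z a ω‖ ∂(Measure.pi fun _ : Fin n => μ) := by
  have h := Submodule.reflection_sub hab
  rw [← h]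
  exact Sop_mean_isometry z μ _ (hμ _) a

end Sop

end Pool.Agent.Helper93
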