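import Mathlib
import Pool.Agent.Helper93.ES
import Pool.Agent.Helper93.Rand
import Pool.Agent.Helper93.DR

/-!
# The mean of the norm of the random vector is large
-/

set_option autoImplicit false
set_option linter.unusedSectionVars false

namespace Pool.Agent.Helper93

open MeasureTheory
open scoped RealInnerProductSpace

section flat

variable {V : Type*} [MeasurableSpace V]

/-- flattening of a double sequence -/
def flat {k L : ℕ} (ω : Fin k → Fin L → V) : Fin (k * L) → V :=
  fun p => ω (finProdFinEquiv.symm p).1 (finProdFinEquiv.symm p).2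

lemma flat_measurable {k L : ℕ} : Measurable (flat : (Fin k → Fin L → V) → Fin (k * L) → V) := by
  refine measurable_pi_lambda _ fun p => ?_
  exact (measurable_pi_apply (finProdFinEquiv.symm p).2).comp
    (measurable_pi_apply (finProdFinEquiv.symm p).1)

lemma flat_measurePreserving {k L : ℕ} (μ : Measure V) [IsProbabilityMeasure μ] :
    MeasurePreserving (flat : (Fin k → Fin L → V) → Fin (k * L) → V)
      (Measure.pi fun _ : Fin k => Measure.pi fun _ : Fin L => μ)
      (Measure.pi fun _ : Fin (k * L) => μ) := by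
  refine ⟨flat_measurable, ?_⟩
  symm
  apply Measure.pi_eq
  intro s hs
  rw [Measure.map_apply flat_measurable (MeasurableSet.univ_pi hs)]
  have h1 : (flat : (Fin k → Fin L → V) → Fin (k * L) → V) ⁻¹' (Set.univ.pi s)
      = Set.univ.pi (fun i : Fin k => Set.univ.pi (fun l : Fin L => s (finProdFinEquiv (i, l)))) := by
    ext ω
    simp only [Set.mem_preimage, Set.mem_pi, Set.mem_univ, true_implies, flat]
    constructor
    · intro h i l
      have := h (finProdFinEquiv (i, l))
      simpa using this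
    · intro h p
      have := h (finProdFinEquiv.symm p).1 (finProdFinEquiv.symm p).2
      rwa [Prod.mk.eta, Equiv.apply_symm_apply] at this
  rw [h1, Measure.pi_pi]
  simp only [Measure.pi_pi]
  rw [← Equiv.prod_comp finProdFinEquiv (fun p => μ (s p)), Fintype.prod_prod_type]

end flat

section unif

variable (V : Type*) [NormedAddCommGroup V] [InnerProductSpace ℝ V] [MeasurableSpace V]
  [BorelSpace V] [FiniteDimensional ℝ V]

/-- uniform probability measure on the unit ball -/
noncomputable def unifBall : Measure V :=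
  (volume (Metric.ball (0 : V) 1))⁻¹ • (volume.restrict (Metric.ball (0 : V) 1))

instance : IsProbabilityMeasure (unifBall V) := by
  constructor
  rw [unifBall, Measure.smul_apply, Measure.restrict_apply MeasurableSet.univ, Set.univ_inter,
    smul_eq_mul]
  exact ENNReal.inv_mul_cancel (Metric.measure_ball_pos volume 0 one_pos).ne'
    measure_ball_lt_top.ne

lemma unifBall_preserving (T : V ≃ₗᵢ[ℝ] V) : MeasurePreserving T (unifBall V) (unifBall V) := by
  have h1 := (T.measurePreserving).restrict_preimage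
    (s := Metric.ball (0 : V) 1) measurableSet_ball
  have h2 : T ⁻¹' (Metric.ball (0 : V) 1) = Metric.ball (0 : V) 1 := by
    ext v; simp
  rw [h2] at h1
  exact h1.smul_measure _

lemma unifBall_pos {U : Set V} (hU : IsOpen U) {v : V} (hv : v ∈ U) (hv1 : ‖v‖ < 1) :
    0 < unifBall V U := by
  rw [unifBall, Measure.smul_apply, Measure.restrict_apply hU.measurableSet, smul_eq_mul]
  apply ENNReal.mul_pos
  · exact ENNReal.inv_ne_zero.mpr measure_ball_lt_top.ne
  · exact ((hU.inter Metric.isOpen_ball).measure_pos volume ⟨v, hv, by simpa using hv1⟩).ne'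

end unif

section flip

variable {V : Type*} [NormedAddCommGroup V] [InnerProductSpace ℝ V]
variable {Z : Type*} [NormedAddCommGroup Z] [NormedSpace ℝ Z]

/-- block sums -/
noncomputable def tau {L : ℕ} (a : V) (w : Fin L → V) : ℝ := ∑ l, gg a (w l) * (Real.sqrt L)⁻¹

lemma tau_neg {L : ℕ} (a : V) (w : Fin L → V) : tau a (-w) = - tau a w := by
  simp [tau, gg_neg]

/-- flip all blocks except `i` -/
def flip {k L : ℕ} (i : Fin k) (ω : Fin k → Fin L → V) : Fin k → Fin L → V :=
  fun j => if j = i then ω j else -ω j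

/-- the random vector in block form -/
noncomputable def SS {k L : ℕ} (x : Fin k → Z) (a : V) (ω : Fin k → Fin L → V) : Z :=
  ∑ i, tau a (ω i) • x i

lemma SS_flip {k L : ℕ} (x : Fin k → Z) (a : V) (i : Fin k) (ω : Fin k → Fin L → V) :
    SS x a ω + SS x a (flip i ω) = (2 * tau a (ω i)) • x i := by
  unfold SS
  rw [← Finset.sum_add_distrib, Finset.sum_eq_single i]
  · simp only [flip, if_true]
    rw [← add_smul, two_mul]
  · intro j _ hj
    simp only [flip, if_neg hj, tau_neg, neg_smul, add_neg_cancel]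
  · intro h
    exact absurd (Finset.mem_univ i) h

variable [MeasurableSpace V] [BorelSpace V] [FiniteDimensional ℝ V]

lemma tau_continuous {L : ℕ} (a : V) : Continuous (tau a : (Fin L → V) → ℝ) := by
  unfold tau
  refine continuous_finsetSum _ fun l _ => ?_
  exact ((gg_continuous a).comp (continuous_apply l)).mul continuous_const

lemma tau_BM {L : ℕ} (a : V) : BM (tau a : (Fin L → V) → ℝ) := by
  refine ⟨(tau_continuous a).measurable, ∑ l : Fin L, ‖a‖ * (Real.sqrt L)⁻¹, fun w => ?_⟩
  unfold tau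
  refine (Finset.abs_sum_le_sum_abs _ _).trans (Finset.sum_le_sum fun l _ => ?_)
  rw [abs_mul, abs_of_nonneg (by positivity : (0 : ℝ) ≤ (Real.sqrt L)⁻¹)]
  exact mul_le_mul_of_nonneg_right (abs_gg_le a _) (by positivity)

lemma SS_BM {k L : ℕ} (x : Fin k → Z) (a : V) :
    BM (fun ω : Fin k → Fin L → V => ‖SS x a ω‖) := by
  obtain ⟨C, hC⟩ := (tau_BM (L := L) a).bdd
  refine ⟨?_, ∑ i, C * ‖x i‖, fun ω => ?_⟩
  · apply Continuous.measurable
    apply Continuous.norm
    unfold SS
    refine continuous_finsetSum _ fun l _ => ?_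
    exact ((tau_continuous a).comp (continuous_apply l)).smul continuous_const
  · rw [abs_norm]
    unfold SS
    refine (norm_sum_le _ _).trans (Finset.sum_le_sum fun i _ => ?_)
    rw [norm_smul]
    exact mul_le_mul_of_nonneg_right (hC _) (norm_nonneg _)

lemma flip_preserving {k L : ℕ} (μ : Measure V) [IsProbabilityMeasure μ]
    (hμ : MeasurePreserving (fun v : V => -v) μ μ) (i : Fin k) :
    MeasurePreserving (flip i : (Fin k → Fin L → V) → Fin k → Fin L → V)
      (Measure.pi fun _ : Fin k => Measure.pi fun _ : Fin L => μ)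
      (Measure.pi fun _ : Fin k => Measure.pi fun _ : Fin L => μ) := by
  have h1 : MeasurePreserving (fun w : Fin L → V => -w) (Measure.pi fun _ : Fin L => μ)
      (Measure.pi fun _ : Fin L => μ) := measurePreserving_pi _ _ fun _ => hμ
  have h2 : ∀ j : Fin k, MeasurePreserving (fun w : Fin L → V => if j = i then w else -w)
      (Measure.pi fun _ : Fin L => μ) (Measure.pi fun _ : Fin L => μ) := by
    intro j
    by_cases hj : j = i
    · simp only [if_pos hj]
      exact MeasurePreserving.id _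
    · simp only [if_neg hj]
      exact h1
  exact measurePreserving_pi _ _ h2

open Classical in
/-- indicator of a large block -/
noncomputable def Ib {L : ℕ} (a : V) (A : ℝ) (w : Fin L → V) : ℝ := if A ≤ |tau a w| then 1 else 0

lemma Ib_BM {L : ℕ} (a : V) (A : ℝ) : BM (Ib a A : (Fin L → V) → ℝ) := by
  refine ⟨?_, 1, fun w => ?_⟩
  · unfold Ib
    refine Measurable.ite ?_ measurable_const measurable_const
    exact measurableSet_le measurable_const (tau_continuous a).measurable.abs
  · unfold Ib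
    split_ifs <;> simp

lemma Ib_neg {L : ℕ} (a : V) (A : ℝ) (w : Fin L → V) : Ib a A (-w) = Ib a A w := by
  unfold Ib
  rw [tau_neg, abs_neg]

/-- weights -/
noncomputable def Gw {k L : ℕ} (a : V) (A : ℝ) (i : Fin k) (ω : Fin k → Fin L → V) : ℝ :=
  Ib a A (ω i) / ∑ j, Ib a A (ω j)

lemma Ib_nonneg {L : ℕ} (a : V) (A : ℝ) (w : Fin L → V) : 0 ≤ Ib a A w := by
  unfold Ib
  split_ifs <;> norm_num

lemma Gw_nonneg {k L : ℕ} (a : V) (A : ℝ) (i : Fin k) (ω : Fin k → Fin L → V) :
    0 ≤ Gw a A i ω :=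
  div_nonneg (Ib_nonneg _ _ _) (Finset.sum_nonneg fun _ _ => Ib_nonneg _ _ _)

lemma Gw_le_one {k L : ℕ} (a : V) (A : ℝ) (i : Fin k) (ω : Fin k → Fin L → V) :
    Gw a A i ω ≤ 1 := by
  apply div_le_one_of_le₀
  · exact Finset.single_le_sum (f := fun j => Ib a A (ω j)) (fun _ _ => Ib_nonneg _ _ _)
      (Finset.mem_univ i)
  · exact Finset.sum_nonneg fun _ _ => Ib_nonneg _ _ _

lemma Gw_BM {k L : ℕ} (a : V) (A : ℝ) (i : Fin k) :
    BM (Gw a A i : (Fin k → Fin L → V) → ℝ) := by
  refine ⟨?_, 1, fun w => ?_⟩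
  · unfold Gw
    refine Measurable.div ?_ ?_
    · exact (Ib_BM a A).meas.comp (measurable_pi_apply i)
    · exact Finset.measurable_sum _ fun j _ => (Ib_BM a A).meas.comp (measurable_pi_apply j)
  · rw [abs_of_nonneg (Gw_nonneg _ _ _ _)]
    exact Gw_le_one _ _ _ _

lemma Ib_flip {k L : ℕ} (a : V) (A : ℝ) (i j : Fin k) (ω : Fin k → Fin L → V) :
    Ib a A (flip i ω j) = Ib a A (ω j) := by
  unfold flip
  split_ifs
  · rfl
  · exact Ib_neg a A _

lemma Gw_flip {k L : ℕ} (a : V) (A : ℝ) (i : Fin k) (ω : Fin k → Fin L → V) :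
    Gw a A i (flip i ω) = Gw a A i ω := by
  unfold Gw
  simp only [Ib_flip]

lemma sum_Gw {k L : ℕ} (a : V) (A : ℝ) (ω : Fin k → Fin L → V) :
    ∑ i, Gw a A i ω = 1 - ∏ i, (1 - Ib a A (ω i)) := by
  unfold Gw
  rw [← Finset.sum_div]
  by_cases h : ∀ i, Ib a A (ω i) = 0
  · simp [h]
  · push Not at h
    obtain ⟨i, hi⟩ := h
    have h1 : Ib a A (ω i) = 1 := by
      unfold Ib at hi ⊢
      split_ifs at hi ⊢
      · rfl
      · exact absurd rfl hi
    have h2 : ∏ i, (1 - Ib a A (ω i)) = 0 := by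
      apply Finset.prod_eq_zero (Finset.mem_univ i)
      rw [h1, sub_self]
    have h3 : 0 < ∑ i, Ib a A (ω i) := by
      have := Finset.single_le_sum (f := fun j => Ib a A (ω j)) (fun _ _ => Ib_nonneg _ _ _)
        (Finset.mem_univ i)
      rw [h1] at this
      linarith
    rw [h2, sub_zero, div_self h3.ne']

/-- lower bound for the mean in terms of the probability of a large block -/
lemma SS_mean_ge {k L : ℕ} (μ : Measure V) [IsProbabilityMeasure μ]
    (hμ : MeasurePreserving (fun v : V => -v) μ μ) (x : Fin k → Z) (hx : ∀ i, 1 / 3 ≤ ‖x i‖)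
    (a : V) (A : ℝ) :
    A / 3 * (1 - (1 - ∫ w, Ib a A w ∂(Measure.pi fun _ : Fin L => μ)) ^ k)
      ≤ ∫ ω, ‖SS x a ω‖ ∂(Measure.pi fun _ : Fin k => Measure.pi fun _ : Fin L => μ) := by
  set ν := Measure.pi fun _ : Fin L => μ with hν
  set P := Measure.pi fun _ : Fin k => ν with hP
  have hS := SS_BM (L := L) x a
  have step1 : ∀ i : Fin k, A / 3 * ∫ ω, Gw (L := L) a A i ω ∂P ≤ ∫ ω, Gw a A i ω * ‖SS x a ω‖ ∂P := by
    intro i
    have hfp := flip_preserving (L := L) μ hμ i
    have b1 : BM (fun ω : Fin k → Fin L → V => Gw a A i ω * ‖SS x a ω‖) := (Gw_BM a A i).mul hS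
    have b2 : BM (fun ω : Fin k → Fin L → V => Gw a A i ω * ‖SS x a (flip i ω)‖) :=
      (Gw_BM a A i).mul (hS.comp hfp.measurable)
    have e1 : ∫ ω, Gw a A i ω * ‖SS x a (flip i ω)‖ ∂P = ∫ ω, Gw a A i ω * ‖SS x a ω‖ ∂P := by
      have h3 := integral_map (μ := P) hfp.measurable.aemeasurable
        (f := fun ω : Fin k → Fin L → V => Gw a A i ω * ‖SS x a ω‖) b1.meas.aestronglyMeasurable
      rw [hfp.map_eq] at h3
      simp only [Gw_flip] at h3
      exact h3.symm
    have e2 : ∫ ω, Gw a A i ω * ‖SS x a ω‖ ∂P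
        = 1 / 2 * ∫ ω, (Gw a A i ω * ‖SS x a ω‖ + Gw a A i ω * ‖SS x a (flip i ω)‖) ∂P := by
      rw [integral_add (b1.integrable _) (b2.integrable _), e1]
      ring
    rw [e2, ← integral_const_mul, ← integral_const_mul]
    refine integral_mono ?_ ?_ ?_
    · exact ((BM.const (A / 3)).mul (Gw_BM a A i)).integrable _
    · exact ((BM.const (1 / 2)).mul (b1.add b2)).integrable _
    · intro ω
      simp only
      have hG := Gw_nonneg a A i ω
      by_cases hI : A ≤ |tau a (ω i)|
      · have h5 : ‖SS x a ω + SS x a (flip i ω)‖ ≤ ‖SS x a ω‖ + ‖SS x a (flip i ω)‖ :=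
          norm_add_le _ _
        rw [SS_flip, norm_smul, Real.norm_eq_abs, abs_mul, abs_two] at h5
        have h6 : A * (1 / 3) ≤ |tau a (ω i)| * ‖x i‖ :=
          mul_le_mul hI (hx i) (by norm_num) (abs_nonneg _)
        have h7 : A / 3 ≤ 1 / 2 * (‖SS x a ω‖ + ‖SS x a (flip i ω)‖) := by linarith
        calc A / 3 * Gw a A i ω ≤ (1 / 2 * (‖SS x a ω‖ + ‖SS x a (flip i ω)‖)) * Gw a A i ω :=
              mul_le_mul_of_nonneg_right h7 hG
          _ = _ := by ring
      · have h8 : Gw a A i ω = 0 := by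
          unfold Gw Ib
          rw [if_neg hI, zero_div]
        rw [h8]
        simp
  have step2 : ∑ i, ∫ ω, Gw a A i ω * ‖SS x a ω‖ ∂P ≤ ∫ ω, ‖SS x a ω‖ ∂P := by
    rw [← integral_finsetSum _ (fun i _ => ((Gw_BM a A i).mul hS).integrable _)]
    refine integral_mono ?_ (hS.integrable _) ?_
    · exact (BM.sum Finset.univ fun i => (Gw_BM a A i).mul hS).integrable _
    · intro ω
      simp only
      rw [← Finset.sum_mul]
      have h9 : ∑ i, Gw a A i ω ≤ 1 := by
        rw [sum_Gw]
        have : 0 ≤ ∏ i, (1 - Ib a A (ω i)) := by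
          apply Finset.prod_nonneg
          intro i _
          unfold Ib
          split_ifs <;> norm_num
        linarith
      calc (∑ i, Gw a A i ω) * ‖SS x a ω‖ ≤ 1 * ‖SS x a ω‖ :=
            mul_le_mul_of_nonneg_right h9 (norm_nonneg _)
        _ = _ := one_mul _
  have step3 : ∑ i, ∫ ω, Gw (L := L) a A i ω ∂P = 1 - (1 - ∫ w, Ib a A w ∂ν) ^ k := by
    rw [← integral_finsetSum _ (fun i _ => (Gw_BM a A i).integrable _)]
    simp only [sum_Gw]
    have b3 : BM (fun w : Fin L → V => 1 - Ib a A w) := (BM.const 1).sub (Ib_BM a A)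
    have h10 : ∫ ω : Fin k → Fin L → V, ∏ i, (1 - Ib a A (ω i)) ∂P
        = (1 - ∫ w, Ib a A w ∂ν) ^ k := by
      rw [hP, integral_fintype_prod_eq_prod (f := fun (_ : Fin k) (w : Fin L → V) => 1 - Ib a A w)]
      rw [integral_sub (integrable_const _) ((Ib_BM a A).integrable _)]
      simp
    have b4 : BM (fun ω : Fin k → Fin L → V => ∏ i, (1 - Ib a A (ω i))) := by
      refine ⟨?_, 1, fun ω => ?_⟩
      · exact Finset.measurable_prod _ fun i _ => b3.meas.comp (measurable_pi_apply i)
      · rw [Finset.abs_prod]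
        apply Finset.prod_le_one
        · intro i _; exact abs_nonneg _
        · intro i _
          unfold Ib
          split_ifs <;> norm_num
    rw [integral_sub (integrable_const _) (b4.integrable _), h10]
    simp
  calc A / 3 * (1 - (1 - ∫ w, Ib a A w ∂ν) ^ k) = ∑ i, A / 3 * ∫ ω, Gw (L := L) a A i ω ∂P := by
        rw [← Finset.mul_sum, step3]
    _ ≤ ∑ i, ∫ ω, Gw a A i ω * ‖SS x a ω‖ ∂P := Finset.sum_le_sum fun i _ => step1 i
    _ ≤ _ := step2

/-- the probability that a block is large is positive when there are many summands per block -/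
lemma Ib_mean_pos [Nontrivial V] {L : ℕ} {a : V} (ha : ‖a‖ = 1) {A : ℝ}
    (hL : A ≤ Real.sqrt L * (1 / 4)) :
    0 < ∫ w, Ib (L := L) a A w ∂(Measure.pi fun _ : Fin L => unifBall V) := by
  classical
  let J : V → ℝ := fun v => if 1 / 4 < gg a v then 1 else 0
  have hU : IsOpen {v : V | 1 / 4 < gg a v} := isOpen_lt continuous_const (gg_continuous a)
  have bJ : BM J := by
    refine ⟨Measurable.ite hU.measurableSet measurable_const measurable_const, 1, fun v => ?_⟩
    simp only [J]
    split_ifs <;> simp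
  have hJpos : 0 < ∫ v, J v ∂(unifBall V) := by
    have h1 : J = Set.indicator {v : V | 1 / 4 < gg a v} (fun _ => (1 : ℝ)) := by
      ext v
      simp only [J, Set.indicator, Set.mem_ofPred_eq]
    rw [h1, integral_indicator_const _ hU.measurableSet, smul_eq_mul, mul_one]
    have h2 : 0 < unifBall V {v : V | 1 / 4 < gg a v} := by
      apply unifBall_pos V hU (v := (1 / 2 : ℝ) • a)
      · have hn : ‖(1 / 2 : ℝ) • a‖ = 1 / 2 := by
          rw [norm_smul, ha]; norm_num
        change 1 / 4 < gg a ((1 / 2 : ℝ) • a)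
        unfold gg rho
        rw [hn, real_inner_smul_right, real_inner_smul_right, real_inner_self_eq_norm_sq, ha]
        norm_num
      · rw [norm_smul, ha]; norm_num
    exact ENNReal.toReal_pos h2.ne' (measure_ne_top _ _)
  have hle : ∀ w : Fin L → V, ∏ l, J (w l) ≤ Ib a A w := by
    intro w
    by_cases h : ∀ l, 1 / 4 < gg a (w l)
    · have h1 : ∏ l, J (w l) = 1 := by
        apply Finset.prod_eq_one
        intro l _
        simp only [J, if_pos (h l)]
      have h2 : A ≤ |tau a w| := by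
        refine hL.trans (le_trans ?_ (le_abs_self _))
        unfold tau
        rw [← Finset.sum_mul]
        have h3 : (L : ℝ) * (1 / 4) ≤ ∑ l, gg a (w l) := by
          calc (L : ℝ) * (1 / 4) = ∑ l : Fin L, (1 / 4 : ℝ) := by simp
            _ ≤ _ := Finset.sum_le_sum fun l _ => (h l).le
        rcases Nat.eq_zero_or_pos L with hL0 | hL0
        · subst hL0; simp
        · have hs : 0 < Real.sqrt L := Real.sqrt_pos.mpr (by exact_mod_cast hL0)
          rw [← div_eq_mul_inv, le_div_iff₀ hs]
          have := Real.mul_self_sqrt (Nat.cast_nonneg L : (0 : ℝ) ≤ L)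
          nlinarith
      rw [h1, Ib, if_pos h2]
    · push Not at h
      obtain ⟨l, hl⟩ := h
      have h1 : ∏ l, J (w l) = 0 := by
        apply Finset.prod_eq_zero (Finset.mem_univ l)
        simp only [J, if_neg (not_lt.mpr hl)]
      rw [h1]
      exact Ib_nonneg _ _ _
  have h5 : ∫ w : Fin L → V, ∏ l, J (w l) ∂(Measure.pi fun _ : Fin L => unifBall V)
      = (∫ v, J v ∂(unifBall V)) ^ L := by
    rw [integral_fintype_prod_eq_prod (f := fun (_ : Fin L) (v : V) => J v)]
    simp
  have b5 : BM (fun w : Fin L → V => ∏ l, J (w l)) := by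
    refine ⟨?_, 1, fun ω => ?_⟩
    · exact Finset.measurable_prod _ fun i _ => bJ.meas.comp (measurable_pi_apply i)
    · rw [Finset.abs_prod]
      apply Finset.prod_le_one
      · intro i _; exact abs_nonneg _
      · intro i _
        simp only [J]
        split_ifs <;> norm_num
  calc 0 < (∫ v, J v ∂(unifBall V)) ^ L := pow_pos hJpos L
    _ = ∫ w : Fin L → V, ∏ l, J (w l) ∂(Measure.pi fun _ : Fin L => unifBall V) := h5.symm
    _ ≤ _ := integral_mono (b5.integrable _) ((Ib_BM a A).integrable _) hle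

/-- existence of sequences with a large mean -/
theorem exists_large_mean (Z : Type*) [NormedAddCommGroup Z] [NormedSpace ℝ Z]
    (hZ : ¬ FiniteDimensional ℝ Z) [Nontrivial V] (B : ℝ) (hB : 0 ≤ B) :
    ∃ (n : ℕ) (z : Fin n → Z), (∀ b : Fin n → ℝ, ‖∑ i, b i • z i‖ ^ 2 ≤ ∑ i, b i ^ 2) ∧
      ∀ a : V, ‖a‖ = 1 → B ≤ ∫ ω, ‖Sop z a ω‖ ∂(Measure.pi fun _ : Fin n => unifBall V) := by
  obtain ⟨a₀, ha₀⟩ : ∃ a₀ : V, ‖a₀‖ = 1 := by
    obtain ⟨v, hv⟩ := exists_ne (0 : V)
    refine ⟨(‖v‖)⁻¹ • v, ?_⟩
    rw [norm_smul, norm_inv, norm_norm, inv_mul_cancel₀ (norm_ne_zero_iff.mpr hv)]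
  set A : ℝ := 6 * B with hA
  obtain ⟨L, hL⟩ : ∃ L : ℕ, A ≤ Real.sqrt L * (1 / 4) ∧ 0 < L := by
    obtain ⟨L, hL⟩ := exists_nat_ge ((4 * A) ^ 2 + 1)
    refine ⟨L, ?_, ?_⟩
    · have h1 : 4 * A ≤ Real.sqrt L := by
        apply Real.le_sqrt_of_sq_le
        linarith
      linarith
    · have : (0 : ℝ) < L := by nlinarith [sq_nonneg (4 * A)]
      exact_mod_cast this
  obtain ⟨hL1, hL0⟩ := hL
  set p := ∫ w, Ib (L := L) a₀ A w ∂(Measure.pi fun _ : Fin L => unifBall V) with hp
  have hp0 : 0 < p := Ib_mean_pos ha₀ hL1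
  have hp1 : p ≤ 1 := by
    have h1 : ∀ w : Fin L → V, |Ib a₀ A w| ≤ 1 := by
      intro w
      unfold Ib
      split_ifs <;> simp
    exact (le_abs_self _).trans (BM.abs_integral_le h1 _)
  obtain ⟨k, hk⟩ : ∃ k : ℕ, (1 - p) ^ k < 1 / 2 :=
    exists_pow_lt_of_lt_one (by norm_num) (by linarith)
  have hk0 : 0 < k := by
    rcases Nat.eq_zero_or_pos k with h | h
    · subst h; norm_num at hk
    · exact h
  obtain ⟨x, hx1, hx2⟩ := dvoretzky_rogers Z hZ k hk0
  let z : Fin (k * L) → Z := fun q => (Real.sqrt L)⁻¹ • x (finProdFinEquiv.symm q).1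
  have hLs : 0 < Real.sqrt L := Real.sqrt_pos.mpr (by exact_mod_cast hL0)
  refine ⟨k * L, z, ?_, ?_⟩
  · intro b
    have h1 : ∑ q, b q • z q = ∑ i, (∑ l, b (finProdFinEquiv (i, l)) * (Real.sqrt L)⁻¹) • x i := by
      rw [← Equiv.sum_comp finProdFinEquiv (fun q => b q • z q), Fintype.sum_prod_type]
      refine Finset.sum_congr rfl fun i _ => ?_
      rw [Finset.sum_smul]
      refine Finset.sum_congr rfl fun l _ => ?_
      simp only [z, Equiv.symm_apply_apply, smul_smul]
    rw [h1]
    refine (hx1 _).trans ?_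
    rw [← Equiv.sum_comp finProdFinEquiv (fun q => b q ^ 2), Fintype.sum_prod_type]
    refine Finset.sum_le_sum fun i _ => ?_
    rw [← Finset.sum_mul, mul_pow, inv_pow, Real.sq_sqrt (Nat.cast_nonneg L)]
    have h2 := sq_sum_le_card_mul_sum_sq (s := (Finset.univ : Finset (Fin L)))
      (f := fun l => b (finProdFinEquiv (i, l)))
    rw [Finset.card_univ, Fintype.card_fin] at h2
    have hL' : (0 : ℝ) < L := by exact_mod_cast hL0
    rw [← div_eq_mul_inv, div_le_iff₀ hL']
    linarith
  · intro a ha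
    have hmu : ∀ T : V ≃ₗᵢ[ℝ] V, MeasurePreserving T (unifBall V) (unifBall V) :=
      unifBall_preserving V
    rw [Sop_mean_eq z (unifBall V) hmu (show ‖a₀‖ = ‖a‖ by rw [ha, ha₀])]
    have hfl := flat_measurePreserving (k := k) (L := L) (unifBall V)
    have h3 := integral_map (μ := Measure.pi fun _ : Fin k => Measure.pi fun _ : Fin L => unifBall V)
      hfl.measurable.aemeasurable
      (f := fun ω : Fin (k * L) → V => ‖Sop z a₀ ω‖) (Sop_BM z a₀).meas.aestronglyMeasurable
    rw [hfl.map_eq] at h3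
    rw [h3]
    have h4 : ∀ ω : Fin k → Fin L → V, Sop z a₀ (flat ω) = SS x a₀ ω := by
      intro ω
      unfold Sop SS
      rw [← Equiv.sum_comp finProdFinEquiv (fun q => gg a₀ (flat ω q) • z q),
        Fintype.sum_prod_type]
      refine Finset.sum_congr rfl fun i _ => ?_
      unfold tau
      rw [Finset.sum_smul]
      refine Finset.sum_congr rfl fun l _ => ?_
      simp only [z, flat, Equiv.symm_apply_apply, smul_smul]
    simp only [h4]
    have hneg : MeasurePreserving (fun v : V => -v) (unifBall V) (unifBall V) :=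
      hmu (LinearIsometryEquiv.neg ℝ)
    have h5 := SS_mean_ge (L := L) (unifBall V) hneg x hx2 a₀ A
    refine le_trans ?_ h5
    rw [← hp]
    have : A / 3 = 2 * B := by rw [hA]; ring
    rw [this]
    nlinarith

end flip

end Pool.Agent.Helper93
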