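import Mathlib
import Pool.Agent.Helper93.LargeMean

/-!
# Dvoretzky's theorem (isomorphic version, with an absolute constant)
-/

set_option autoImplicit false

namespace Pool.Agent.Helper93

open MeasureTheory

/-- **Dvoretzky's theorem**, with constant `5`: every infinite-dimensional normed space contains
`5`-isomorphic copies of every Euclidean space. -/
theorem dvoretzky_aux (Z : Type*) [NormedAddCommGroup Z] [NormedSpace ℝ Z]
    (hZ : ¬ FiniteDimensional ℝ Z) (V : Type*) [NormedAddCommGroup V] [InnerProductSpace ℝ V]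
    [MeasurableSpace V] [BorelSpace V] [FiniteDimensional ℝ V] [Nontrivial V] :
    ∃ u : V →ₗ[ℝ] Z, ∀ a, ‖a‖ ≤ ‖u a‖ ∧ ‖u a‖ ≤ 5 * ‖a‖ := by
  classical
  -- the net
  obtain ⟨t, ht1, ht2, ht3⟩ := (isCompact_sphere (0 : V) 1).finite_cover_balls
    (show (0 : ℝ) < 1 / 4 by norm_num)
  lift t to Finset V using ht2
  set N : ℝ := (t.card : ℝ) + 1 with hN
  have hN1 : 1 ≤ N := by
    have : (0 : ℝ) ≤ t.card := Nat.cast_nonneg _
    linarith
  obtain ⟨n, z, hz, hM⟩ := exists_large_mean (V := V) Z hZ (8 * N) (by positivity)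
  set P := Measure.pi fun _ : Fin n => unifBall V with hP
  obtain ⟨a₀, ha₀⟩ : ∃ a₀ : V, ‖a₀‖ = 1 := by
    obtain ⟨v, hv⟩ := exists_ne (0 : V)
    refine ⟨(‖v‖)⁻¹ • v, ?_⟩
    rw [norm_smul, norm_inv, norm_norm, inv_mul_cancel₀ (norm_ne_zero_iff.mpr hv)]
  set M : ℝ := ∫ ω, ‖Sop z a₀ ω‖ ∂P with hMdef
  have hMN : 8 * N ≤ M := hM a₀ ha₀
  have hM0 : 0 < M := by linarith
  have hMa : ∀ a : V, ‖a‖ = 1 → ∫ ω, ‖Sop z a ω‖ ∂P = M := fun a ha =>
    Sop_mean_eq z (unifBall V) (unifBall_preserving V) (show ‖a₀‖ = ‖a‖ by rw [ha, ha₀])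
  -- second moment of the deviation
  have hdev : ∀ a : V, ‖a‖ = 1 → ∫ ω, (‖Sop z a ω‖ - M) ^ 2 ∂P ≤ 4 := by
    intro a ha
    have h1 := Sop_Vr hz (unifBall V) a
    rw [ha, one_pow, mul_one] at h1
    have bS := Sop_BM z a
    have h2 : ∀ ω : Fin n → V, (‖Sop z a ω‖ - M) ^ 2
        = ‖Sop z a ω‖ ^ 2 + (-2 * M) * ‖Sop z a ω‖ + M ^ 2 := by
      intro ω; ring
    simp only [h2]
    have i1 := bS.sq
    have i2 := (BM.const (Ω := Fin n → V) (-2 * M)).mul bS
    have i3 := BM.const (Ω := Fin n → V) (M ^ 2)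
    rw [integral_add ((i1.add i2).integrable _) (i3.integrable _),
      integral_add (i1.integrable _) (i2.integrable _), integral_const_mul, hMa a ha]
    simp only [integral_const, probReal_univ, smul_eq_mul, one_mul]
    unfold Vr at h1
    rw [← hP, hMa a ha] at h1
    linarith
  have hsum : ∫ ω, ∑ a ∈ t, (‖Sop z a ω‖ - M) ^ 2 ∂P ≤ 4 * N := by
    rw [integral_finsetSum]
    · calc ∑ a ∈ t, ∫ ω, (‖Sop z a ω‖ - M) ^ 2 ∂P ≤ ∑ a ∈ t, (4 : ℝ) := by
            refine Finset.sum_le_sum fun a ha => hdev a ?_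
            have := ht1 ha
            simpa using this
        _ ≤ 4 * N := by
            rw [Finset.sum_const, nsmul_eq_mul, hN]
            linarith
    · intro a _
      exact ((Sop_BM z a).sub (BM.const M)).sq.integrable _
  obtain ⟨ω, hω⟩ : ∃ ω : Fin n → V, ∑ a ∈ t, (‖Sop z a ω‖ - M) ^ 2 ≤ 4 * N := by
    have hint : Integrable (fun ω : Fin n → V => ∑ a ∈ t, (‖Sop z a ω‖ - M) ^ 2) P :=
      (BM.sum t fun a => ((Sop_BM z a).sub (BM.const M)).sq).integrable _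
    obtain ⟨ω, hω⟩ := exists_le_integral hint
    exact ⟨ω, hω.trans hsum⟩
  have hnet : ∀ a ∈ t, |‖Sop z a ω‖ - M| ≤ M / 4 := by
    intro a ha
    have h1 : (‖Sop z a ω‖ - M) ^ 2 ≤ 4 * N :=
      (Finset.single_le_sum (f := fun a => (‖Sop z a ω‖ - M) ^ 2) (fun _ _ => sq_nonneg _) ha).trans hω
    apply abs_le_of_sq_le_sq _ (by positivity)
    have h2 : 2 * N ≤ M / 4 := by linarith
    nlinarith
  let w : V →ₗ[ℝ] Z :=
    { toFun := fun a => Sop z a ω
      map_add' := fun a b => Sop_add z a b ω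
      map_smul' := fun c a => Sop_smul z c a ω }
  let W : V →L[ℝ] Z := LinearMap.toContinuousLinearMap w
  have hW : ∀ a, W a = Sop z a ω := fun a => rfl
  have happrox : ∀ a : V, ‖a‖ = 1 → ∃ a' ∈ t, ‖a - a'‖ < 1 / 4 := by
    intro a ha
    have h1 : a ∈ Metric.sphere (0 : V) 1 := by simpa using ha
    have h2 := ht3 h1
    simp only [Set.mem_iUnion, Metric.mem_ball, Finset.mem_coe] at h2
    obtain ⟨a', ha', h3⟩ := h2
    exact ⟨a', ha', by rwa [dist_eq_norm] at h3⟩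
  have hK : ‖W‖ ≤ 5 / 3 * M := by
    have h1 : ‖W‖ ≤ 5 / 4 * M + ‖W‖ / 4 := by
      apply ContinuousLinearMap.opNorm_le_of_unit_norm (by positivity)
      intro a ha
      obtain ⟨a', ha', h2⟩ := happrox a ha
      have h3 : W a = W a' + W (a - a') := by rw [← map_add]; congr 1; abel
      rw [h3]
      refine (norm_add_le _ _).trans ?_
      have h4 : ‖W a'‖ ≤ 5 / 4 * M := by
        have := hnet a' ha'
        rw [hW]
        have := (abs_le.mp this).2
        linarith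
      have h5 : ‖W (a - a')‖ ≤ ‖W‖ * (1 / 4) :=
        (W.le_opNorm _).trans (mul_le_mul_of_nonneg_left h2.le (norm_nonneg _))
      linarith
    linarith
  have hlow : ∀ a : V, ‖a‖ = 1 → M / 3 ≤ ‖W a‖ := by
    intro a ha
    obtain ⟨a', ha', h2⟩ := happrox a ha
    have h3 : W a' = W a - W (a - a') := by rw [← map_sub]; congr 1; abel
    have h4 : ‖W a'‖ ≤ ‖W a‖ + ‖W (a - a')‖ := by
      rw [h3]; exact norm_sub_le _ _
    have h5 : 3 / 4 * M ≤ ‖W a'‖ := by
      have := hnet a' ha'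
      rw [hW]
      have := (abs_le.mp this).1
      linarith
    have h6 : ‖W (a - a')‖ ≤ ‖W‖ * (1 / 4) :=
      (W.le_opNorm _).trans (mul_le_mul_of_nonneg_left h2.le (norm_nonneg _))
    linarith
  refine ⟨(3 / M) • w, fun a => ?_⟩
  have hc : (0 : ℝ) < 3 / M := by positivity
  have hval : ‖((3 / M) • w) a‖ = 3 / M * ‖W a‖ := by
    rw [LinearMap.smul_apply, norm_smul, Real.norm_of_nonneg hc.le]
    rfl
  rw [hval]
  constructor
  · by_cases ha : a = 0
    · subst ha; simp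
    · have hna : 0 < ‖a‖ := norm_pos_iff.mpr ha
      have h1 : ‖(‖a‖)⁻¹ • a‖ = 1 := by
        rw [norm_smul, norm_inv, norm_norm, inv_mul_cancel₀ hna.ne']
      have h2 := hlow _ h1
      rw [map_smul, norm_smul, norm_inv, norm_norm] at h2
      rw [inv_mul_eq_div, le_div_iff₀ hna] at h2
      rw [div_mul_eq_mul_div, le_div_iff₀ hM0]
      linarith
  · have h1 := W.le_opNorm a
    have h2 : ‖W a‖ ≤ 5 / 3 * M * ‖a‖ :=
      h1.trans (mul_le_mul_of_nonneg_right hK (norm_nonneg _))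
    calc 3 / M * ‖W a‖ ≤ 3 / M * (5 / 3 * M * ‖a‖) := mul_le_mul_of_nonneg_left h2 hc.le
      _ = 5 * ‖a‖ := by field_simp

/-- Dvoretzky's theorem for `EuclideanSpace ℝ (Fin m)`. -/
theorem dvoretzky (Z : Type*) [NormedAddCommGroup Z] [NormedSpace ℝ Z]
    (hZ : ¬ FiniteDimensional ℝ Z) (m : ℕ) :
    ∃ u : EuclideanSpace ℝ (Fin m) →ₗ[ℝ] Z, ∀ a, ‖a‖ ≤ ‖u a‖ ∧ ‖u a‖ ≤ 5 * ‖a‖ := by
  rcases Nat.eq_zero_or_pos m with h | h
  · subst h
    refine ⟨0, fun a => ?_⟩
    have : a = 0 := Subsingleton.elim _ _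
    subst this
    simp
  · have : Nonempty (Fin m) := ⟨⟨0, h⟩⟩
    exact dvoretzky_aux Z hZ (EuclideanSpace ℝ (Fin m))

end Pool.Agent.Helper93
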