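import Mathlib
import Pool.Agent.Helper93.Dvoretzky

/-!
# Euclidean quotients of infinite-dimensional normed spaces
-/

set_option autoImplicit false

namespace Pool.Agent.Helper93

open scoped RealInnerProductSpace

variable {X : Type*} [NormedAddCommGroup X] [NormedSpace ℝ X]

/-- the dual of an infinite-dimensional normed space is infinite-dimensional -/
lemma dual_infinite (hX : ¬ FiniteDimensional ℝ X) :
    ¬ FiniteDimensional ℝ (StrongDual ℝ X) := by
  intro h
  apply hX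
  have h2 : FiniteDimensional ℝ (StrongDual ℝ (StrongDual ℝ X)) := inferInstance
  exact FiniteDimensional.of_injective
    ((NormedSpace.inclusionInDoubleDualLi ℝ (E := X)).toLinearMap)
    (NormedSpace.inclusionInDoubleDualLi ℝ (E := X)).injective

/-- **Euclidean quotients.** For every `m`, there is a linear surjection `Q` from `X` onto
`EuclideanSpace ℝ (Fin m)` with `‖Q‖ ≤ 5` and whose quotient norm is at most the Euclidean norm. -/
theorem exists_euclidean_quotient (hX : ¬ FiniteDimensional ℝ X) (m : ℕ) :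
    ∃ Q : X →ₗ[ℝ] EuclideanSpace ℝ (Fin m), Function.Surjective Q ∧ (∀ x, ‖Q x‖ ≤ 5 * ‖x‖) ∧
      ∀ x, ∀ ε > 0, ∃ k, Q k = 0 ∧ ‖x + k‖ ≤ ‖Q x‖ + ε := by
  obtain ⟨u, hu⟩ := dvoretzky (StrongDual ℝ X) (dual_infinite hX) m
  let b := EuclideanSpace.basisFun (Fin m) ℝ
  let Q : X →ₗ[ℝ] EuclideanSpace ℝ (Fin m) :=
    { toFun := fun x => ∑ i, (u (b i) x) • b i
      map_add' := by
        intro x y
        simp only [map_add, add_smul, Finset.sum_add_distrib]
      map_smul' := by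
        intro c x
        simp only [map_smul, smul_eq_mul, mul_smul, Finset.smul_sum, RingHom.id_apply] }
  have hQ : ∀ x a, ⟪Q x, a⟫ = u a x := by
    intro x a
    have h1 : a = ∑ i, ⟪b i, a⟫ • b i := (b.sum_repr' a).symm
    have h2 : u a x = ∑ i, ⟪b i, a⟫ * u (b i) x := by
      conv_lhs => rw [h1]
      rw [map_sum]
      simp only [map_smul, sum_apply, smul_apply,
        smul_eq_mul]
    rw [h2]
    change ⟪∑ i, (u (b i) x) • b i, a⟫ = _
    rw [sum_inner]
    refine Finset.sum_congr rfl fun i _ => ?_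
    rw [real_inner_smul_left]
    ring
  have hQn : ∀ x, ‖Q x‖ ≤ 5 * ‖x‖ := by
    intro x
    have h1 : ‖Q x‖ * ‖Q x‖ ≤ 5 * ‖Q x‖ * ‖x‖ := by
      rw [← real_inner_self_eq_norm_mul_norm, hQ]
      calc u (Q x) x ≤ ‖u (Q x) x‖ := Real.le_norm_self _
        _ ≤ ‖u (Q x)‖ * ‖x‖ := (u (Q x)).le_opNorm x
        _ ≤ 5 * ‖Q x‖ * ‖x‖ := mul_le_mul_of_nonneg_right (hu (Q x)).2 (norm_nonneg _)
    by_cases h0 : ‖Q x‖ = 0
    · rw [h0]; positivity
    · have h2 : 0 < ‖Q x‖ := lt_of_le_of_ne (norm_nonneg _) (Ne.symm h0)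
      have h3 : ‖Q x‖ * ‖Q x‖ ≤ ‖Q x‖ * (5 * ‖x‖) := by linarith
      exact le_of_mul_le_mul_left h3 h2
  refine ⟨Q, ?_, hQn, ?_⟩
  · -- surjectivity
    rw [← LinearMap.range_eq_top, ← Submodule.orthogonal_eq_bot_iff, Submodule.eq_bot_iff]
    intro a ha
    have h1 : u a = 0 := by
      ext x
      rw [← hQ x a, zero_apply]
      exact (Submodule.mem_orthogonal _ _).mp ha _ ⟨x, rfl⟩
    have h2 := (hu a).1
    rw [h1, norm_zero] at h2
    exact norm_le_zero_iff.mp h2
  · intro x ε hε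
    let K : Submodule ℝ X := LinearMap.ker Q
    obtain ⟨ψ, hψ1, hψ2⟩ := exists_dual_vector'' ℝ (Submodule.Quotient.mk x : X ⧸ K)
    have hψ2' : ψ (Submodule.Quotient.mk x : X ⧸ K) = ‖(Submodule.Quotient.mk x : X ⧸ K)‖ := by
      simpa using hψ2
    let φ : X →L[ℝ] ℝ := LinearMap.mkContinuous
      ((ψ : (X ⧸ K) →ₗ[ℝ] ℝ).comp K.mkQ) 1 (fun y => by
        rw [one_mul]
        have h1 := ψ.le_opNorm (Submodule.Quotient.mk y : X ⧸ K)
        have h2 : ‖(Submodule.Quotient.mk y : X ⧸ K)‖ ≤ ‖y‖ := Submodule.Quotient.norm_mk_le K y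
        have h3 : ‖ψ‖ * ‖(Submodule.Quotient.mk y : X ⧸ K)‖ ≤ 1 * ‖y‖ :=
          mul_le_mul hψ1 h2 (norm_nonneg _) zero_le_one
        rw [one_mul] at h3
        exact h1.trans h3)
    have hφn : ‖φ‖ ≤ 1 := LinearMap.mkContinuous_norm_le _ zero_le_one _
    have hφapp : ∀ y, φ y = ψ (Submodule.Quotient.mk y : X ⧸ K) := fun y => rfl
    have hspan : (φ : X →ₗ[ℝ] ℝ) ∈ Submodule.span ℝ
        (Set.range fun i : Fin m => (u (b i) : X →ₗ[ℝ] ℝ)) := by
      apply mem_span_of_iInf_ker_le_ker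
      intro y hy
      rw [Submodule.mem_iInf] at hy
      have h1 : Q y = 0 := by
        change ∑ i, (u (b i) y) • b i = 0
        apply Finset.sum_eq_zero
        intro i _
        have := hy i
        rw [LinearMap.mem_ker] at this
        have h2 : u (b i) y = 0 := this
        rw [h2, zero_smul]
      rw [LinearMap.mem_ker]
      change φ y = 0
      rw [hφapp]
      have h2 : (Submodule.Quotient.mk y : X ⧸ K) = 0 := by
        rw [Submodule.Quotient.mk_eq_zero]
        exact h1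
      rw [h2, map_zero]
    rw [Submodule.mem_span_range_iff_exists_fun] at hspan
    obtain ⟨c, hc⟩ := hspan
    let a : EuclideanSpace ℝ (Fin m) := ∑ i, c i • b i
    have hφu : φ = u a := by
      ext y
      have h1 : φ y = (φ : X →ₗ[ℝ] ℝ) y := rfl
      rw [h1, ← hc]
      simp only [a, map_sum, map_smul, LinearMap.sum_apply, LinearMap.smul_apply,
        sum_apply, smul_apply, smul_eq_mul,
        ContinuousLinearMap.coe_coe]
    have ha : ‖a‖ ≤ 1 := by
      refine (hu a).1.trans ?_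
      rw [← hφu]
      exact hφn
    have hnorm : ‖(Submodule.Quotient.mk x : X ⧸ K)‖ ≤ ‖Q x‖ := by
      rw [← hψ2', ← hφapp, hφu, ← hQ]
      calc ⟪Q x, a⟫ ≤ ‖Q x‖ * ‖a‖ := real_inner_le_norm _ _
        _ ≤ ‖Q x‖ * 1 := mul_le_mul_of_nonneg_left ha (norm_nonneg _)
        _ = ‖Q x‖ := mul_one _
    obtain ⟨y, hy1, hy2⟩ := Submodule.Quotient.norm_mk_lt (Submodule.Quotient.mk x : X ⧸ K) hε
    refine ⟨y - x, ?_, ?_⟩
    · have h1 : y - x ∈ K := (Submodule.Quotient.eq K).mp hy1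
      exact h1
    · rw [add_sub_cancel]
      linarith

end Pool.Agent.Helper93
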