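import Mathlib
import Pool.Agent.Helper93.Mean
import Pool.Agent.Helper93.Lip0

/-!
# Gluing countably many Lipschitz functions in disjoint balls
-/

set_option autoImplicit false

namespace Pool.Agent.Helper93

open Filter Topology

variable {X : Type*} [NormedAddCommGroup X] [NormedSpace ℝ X]

/-- the radius of the `i`-th ball -/
noncomputable def rad (i : ℕ) : ℝ := 2 ^ i

/-- the centre of the `i`-th ball -/
noncomputable def cen (e : X) (i : ℕ) : X := (8 * (2 : ℝ) ^ i) • e

/-- cut-off function -/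
noncomputable def chi (t : ℝ) : ℝ := max 0 (min 1 (2 - t))

lemma rad_pos (i : ℕ) : 0 < rad i := by unfold rad; positivity

lemma chi_nonneg (t : ℝ) : 0 ≤ chi t := le_max_left _ _

lemma chi_le_one (t : ℝ) : chi t ≤ 1 := max_le zero_le_one (min_le_left _ _)

lemma chi_of_le {t : ℝ} (h : t ≤ 1) : chi t = 1 := by
  unfold chi
  rw [min_eq_left (by linarith), max_eq_right zero_le_one]

lemma chi_of_ge {t : ℝ} (h : 2 ≤ t) : chi t = 0 := by
  unfold chi
  rw [min_eq_right (by linarith), max_eq_left (by linarith)]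

lemma abs_chi_sub_le (s t : ℝ) : |chi s - chi t| ≤ |s - t| := by
  unfold chi
  have h1 := abs_max_sub_max_le_abs (min 1 (2 - s)) (min 1 (2 - t)) 0
  have h2 := abs_min_sub_min_le_max 1 (2 - s) 1 (2 - t)
  rw [max_comm 0, max_comm 0]
  refine h1.trans (h2.trans ?_)
  simp only [sub_self, abs_zero]
  have : (2 - s) - (2 - t) = -(s - t) := by ring
  rw [this, abs_neg]
  exact max_le (abs_nonneg _) le_rfl

/-- a localised copy of `F` near the `i`-th centre -/
noncomputable def loc (e : X) (i : ℕ) (F : Lip0 X) (x : X) : ℝ :=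
  chi (‖x - cen e i‖ / rad i) * F (x - cen e i)

lemma loc_eq_zero (e : X) (i : ℕ) (F : Lip0 X) {x : X} (h : 2 * rad i ≤ ‖x - cen e i‖) :
    loc e i F x = 0 := by
  have : 2 ≤ ‖x - cen e i‖ / rad i := by
    rw [le_div_iff₀ (rad_pos i)]; exact h
  rw [loc, chi_of_ge this, zero_mul]

lemma loc_sub_le (e : X) (i : ℕ) (F : Lip0 X) (x y : X) :
    |loc e i F x - loc e i F y| ≤ 3 * ‖F‖ * ‖x - y‖ := by
  have key : ∀ x y : X, ‖y - cen e i‖ ≤ ‖x - cen e i‖ →
      |loc e i F x - loc e i F y| ≤ 3 * ‖F‖ * ‖x - y‖ := by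
    intro x y hxy
    have hr := rad_pos i
    by_cases hy : 2 * rad i ≤ ‖y - cen e i‖
    · rw [loc_eq_zero e i F hy, loc_eq_zero e i F (hy.trans hxy)]
      simp only [sub_self, abs_zero]
      positivity
    · push Not at hy
      set a := ‖x - cen e i‖ / rad i
      set b := ‖y - cen e i‖ / rad i
      have h1 : loc e i F x - loc e i F y
          = chi a * (F (x - cen e i) - F (y - cen e i)) + (chi a - chi b) * F (y - cen e i) := by
        simp only [loc]; ring
      have h2 : |F (x - cen e i) - F (y - cen e i)| ≤ ‖F‖ * ‖x - y‖ := by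
        have := F.abs_sub_le (x - cen e i) (y - cen e i)
        rwa [dist_eq_norm, sub_sub_sub_cancel_right] at this
      have h3 : |F (y - cen e i)| ≤ ‖F‖ * (2 * rad i) := by
        have := F.abs_le (y - cen e i)
        rw [dist_zero_right] at this
        exact this.trans (mul_le_mul_of_nonneg_left hy.le (norm_nonneg _))
      have h4 : |chi a - chi b| ≤ ‖x - y‖ / rad i := by
        refine (abs_chi_sub_le a b).trans ?_
        rw [← sub_div, abs_div, abs_of_pos hr]
        refine div_le_div_of_nonneg_right ?_ hr.le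
        have := abs_norm_sub_norm_le (x - cen e i) (y - cen e i)
        rwa [sub_sub_sub_cancel_right] at this
      rw [h1]
      calc |chi a * (F (x - cen e i) - F (y - cen e i)) + (chi a - chi b) * F (y - cen e i)|
          ≤ |chi a * (F (x - cen e i) - F (y - cen e i))| + |(chi a - chi b) * F (y - cen e i)| :=
            abs_add_le _ _
        _ = chi a * |F (x - cen e i) - F (y - cen e i)| + |chi a - chi b| * |F (y - cen e i)| := by
            rw [abs_mul, abs_mul, abs_of_nonneg (chi_nonneg a)]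
        _ ≤ 1 * (‖F‖ * ‖x - y‖) + (‖x - y‖ / rad i) * (‖F‖ * (2 * rad i)) := by
            refine add_le_add ?_ ?_
            · exact mul_le_mul (chi_le_one a) h2 (abs_nonneg _) zero_le_one
            · exact mul_le_mul h4 h3 (abs_nonneg _) (by positivity)
        _ = 3 * ‖F‖ * ‖x - y‖ := by
            field_simp
            ring
  rcases le_total ‖y - cen e i‖ ‖x - cen e i‖ with h | h
  · exact key x y h
  · rw [abs_sub_comm, norm_sub_rev]
    exact key y x h

lemma ball_disjoint {e : X} (he : ‖e‖ = 1) {i j : ℕ} {x : X}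
    (hi : ‖x - cen e i‖ < 2 * rad i) (hj : ‖x - cen e j‖ < 2 * rad j) : i = j := by
  by_contra hij
  have key : ∀ i j : ℕ, i < j → ‖x - cen e i‖ < 2 * rad i → ‖x - cen e j‖ < 2 * rad j → False := by
    intro i j hij hi hj
    have h1 : ‖cen e j - cen e i‖ = 8 * (2 : ℝ) ^ j - 8 * (2 : ℝ) ^ i := by
      rw [cen, cen, ← sub_smul, norm_smul, he, mul_one, Real.norm_eq_abs, abs_of_nonneg]
      have : (2 : ℝ) ^ i ≤ 2 ^ j := pow_le_pow_right₀ (by norm_num) hij.le
      linarith
    have h2 : ‖cen e j - cen e i‖ ≤ ‖x - cen e i‖ + ‖x - cen e j‖ := by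
      have : cen e j - cen e i = (x - cen e i) - (x - cen e j) := by abel
      rw [this]
      exact norm_sub_le _ _
    have h3 : (2 : ℝ) * 2 ^ i ≤ 2 ^ j := by
      rw [← pow_succ']
      exact pow_le_pow_right₀ (by norm_num) hij
    unfold rad at hi hj
    have h4 : (0 : ℝ) < 2 ^ i := by positivity
    linarith
  rcases lt_or_gt_of_ne hij with h | h
  · exact key i j h hi hj
  · exact key j i h hj hi

open Classical in
/-- index of the ball containing `x` (or `0` if there is none) -/
noncomputable def idx (e : X) (x : X) : ℕ :=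
  if h : ∃ i, ‖x - cen e i‖ < 2 * rad i then h.choose else 0

lemma idx_eq {e : X} (he : ‖e‖ = 1) {x : X} {i : ℕ} (hi : ‖x - cen e i‖ < 2 * rad i) :
    idx e x = i := by
  have h : ∃ i, ‖x - cen e i‖ < 2 * rad i := ⟨i, hi⟩
  rw [idx, dif_pos h]
  exact ball_disjoint he h.choose_spec hi

lemma loc_eq_zero_of_ne {e : X} (he : ‖e‖ = 1) {x : X} {i : ℕ} (hi : i ≠ idx e x) (F : Lip0 X) :
    loc e i F x = 0 := by
  apply loc_eq_zero
  by_contra h
  push Not at h
  exact hi (idx_eq he h).symm

/-- gluing a sequence of functions in disjoint balls -/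
noncomputable def glue (e : X) (F : ℕ → Lip0 X) (x : X) : ℝ := loc e (idx e x) (F (idx e x)) x

lemma glue_eq {e : X} (he : ‖e‖ = 1) (F : ℕ → Lip0 X) {x : X} {i : ℕ}
    (hi : ‖x - cen e i‖ < 2 * rad i) : glue e F x = loc e i (F i) x := by
  rw [glue, idx_eq he hi]

lemma glue_sub_le {e : X} (he : ‖e‖ = 1) (F : ℕ → Lip0 X) (C : ℝ) (hC : ∀ i, ‖F i‖ ≤ C) (x y : X) :
    |glue e F x - glue e F y| ≤ 6 * C * ‖x - y‖ := by
  have hC0 : 0 ≤ C := (norm_nonneg _).trans (hC 0)
  have hl : ∀ i x y, |loc e i (F i) x - loc e i (F i) y| ≤ 3 * C * ‖x - y‖ := by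
    intro i x y
    refine (loc_sub_le e i (F i) x y).trans ?_
    have := hC i
    gcongr
  unfold glue
  set i := idx e x
  set j := idx e y
  by_cases hij : i = j
  · rw [← hij]
    refine (hl i x y).trans ?_
    have : 0 ≤ ‖x - y‖ := norm_nonneg _
    nlinarith [mul_nonneg hC0 this]
  · have h1 : loc e i (F i) y = 0 := loc_eq_zero_of_ne he hij _
    have h2 : loc e j (F j) x = 0 := loc_eq_zero_of_ne he (Ne.symm hij) _
    have h3 := hl i x y
    have h4 := hl j x y
    rw [h1, sub_zero] at h3
    rw [h2, zero_sub, abs_neg] at h4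
    calc |loc e i (F i) x - loc e j (F j) y| ≤ |loc e i (F i) x| + |loc e j (F j) y| := abs_sub _ _
      _ ≤ 6 * C * ‖x - y‖ := by linarith

lemma glue_zero {e : X} (he : ‖e‖ = 1) (F : ℕ → Lip0 X) : glue e F 0 = 0 := by
  unfold glue
  apply loc_eq_zero
  rw [zero_sub, norm_neg, cen, norm_smul, he, mul_one, Real.norm_eq_abs, abs_of_nonneg (by positivity), rad]
  have : (0 : ℝ) < 2 ^ idx e (0 : X) := by positivity
  linarith

/-- value of the glued function near the centre -/
lemma glue_center {e : X} (he : ‖e‖ = 1) (F : ℕ → Lip0 X) {i : ℕ} {x : X} (hx : ‖x‖ ≤ rad i) :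
    glue e F (cen e i + x) = F i x := by
  have hr := rad_pos i
  have h1 : ‖cen e i + x - cen e i‖ < 2 * rad i := by
    rw [add_sub_cancel_left]; linarith
  rw [glue_eq he F h1, loc, add_sub_cancel_left, chi_of_le, one_mul]
  rw [div_le_one hr]
  exact hx

lemma glue_add (e : X) (F G : ℕ → Lip0 X) (x : X) :
    glue e (fun i => F i + G i) x = glue e F x + glue e G x := by
  simp only [glue, loc, Lip0.add_apply]
  ring

lemma glue_smul (e : X) (c : ℝ) (F : ℕ → Lip0 X) (x : X) :
    glue e (fun i => c • F i) x = c * glue e F x := by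
  simp only [glue, loc, Lip0.smul_apply]
  ring

lemma rad_tendsto : Tendsto rad atTop atTop := tendsto_pow_atTop_atTop_of_one_lt (by norm_num)

end Pool.Agent.Helper93
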