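import Mathlib
import Pool.Agent.Helper93.Mean
import Pool.Agent.Helper93.Lip0
import Pool.Agent.Helper93.Periodic
import Pool.Agent.Helper93.Glue

/-!
# The transfer theorem
-/

set_option autoImplicit false

namespace Pool.Agent.Helper93

open Filter Topology

variable {X : Type*} [NormedAddCommGroup X] [NormedSpace ℝ X]
variable {Y : Type*} [NormedAddCommGroup Y] [NormedSpace ℝ Y]

/-- The kernel of a linear map, as an additive subgroup. -/
def kerG (A : X →ₗ[ℝ] Y) : AddSubgroup X := A.toAddMonoidHom.ker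

lemma mem_kerG (A : X →ₗ[ℝ] Y) (x : X) : x ∈ kerG A ↔ A x = 0 := by
  simp [kerG, AddMonoidHom.mem_ker]

/-- `T_m f`: cut off `f` at radius about `2^m` and compose with `A`. -/
noncomputable def Tm (C : ℝ) (A : X →ₗ[ℝ] Y) (hA : ∀ x, ‖A x‖ ≤ C * ‖x‖) (m : ℕ) (f : Lip0 Y) :
    Lip0 X :=
  Lip0.mk' (fun x => loc (0 : Y) m f (A x))
    (by
      rw [map_zero]
      unfold loc cen
      simp)
    (3 * ‖f‖ * C)
    (fun x y => by
      refine (loc_sub_le (0 : Y) m f (A x) (A y)).trans ?_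
      rw [← map_sub, dist_eq_norm, mul_assoc (3 * ‖f‖)]
      exact mul_le_mul_of_nonneg_left (hA _) (by positivity))

lemma Tm_apply (C : ℝ) (A : X →ₗ[ℝ] Y) (hA : ∀ x, ‖A x‖ ≤ C * ‖x‖) (m : ℕ) (f : Lip0 Y) (x : X) :
    Tm C A hA m f x = chi (‖A x‖ / rad m) * f (A x) := by
  simp [Tm, loc, cen]

lemma Tm_norm_le (C : ℝ) (hC : 0 ≤ C) (A : X →ₗ[ℝ] Y) (hA : ∀ x, ‖A x‖ ≤ C * ‖x‖) (m : ℕ)
    (f : Lip0 Y) : ‖Tm C A hA m f‖ ≤ 3 * ‖f‖ * C := by
  apply Lip0.norm_le_of_forall (by positivity)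
  intro x y
  simp only [Tm, Lip0.mk'_apply]
  refine (loc_sub_le (0 : Y) m f (A x) (A y)).trans ?_
  rw [← map_sub, dist_eq_norm, mul_assoc (3 * ‖f‖)]
  exact mul_le_mul_of_nonneg_left (hA _) (by positivity)

lemma Tm_bdd (C : ℝ) (A : X →ₗ[ℝ] Y) (hA : ∀ x, ‖A x‖ ≤ C * ‖x‖) (m : ℕ)
    (f : Lip0 Y) : Bdd (fun x => Tm C A hA m f x) := by
  refine ⟨‖f‖ * (2 * rad m), fun x => ?_⟩
  have hr := rad_pos m
  beta_reduce
  rw [Tm_apply]
  by_cases h : 2 * rad m ≤ ‖A x‖
  · have : 2 ≤ ‖A x‖ / rad m := by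
      rw [le_div_iff₀ hr]; exact h
    rw [chi_of_ge this, zero_mul, abs_zero]
    positivity
  · push Not at h
    rw [abs_mul, abs_of_nonneg (chi_nonneg _)]
    have h1 := f.abs_le (A x)
    rw [dist_zero_right] at h1
    calc chi (‖A x‖ / rad m) * |f (A x)| ≤ 1 * (‖f‖ * ‖A x‖) :=
          mul_le_mul (chi_le_one _) h1 (abs_nonneg _) zero_le_one
      _ ≤ ‖f‖ * (2 * rad m) := by
          rw [one_mul]
          exact mul_le_mul_of_nonneg_left h.le (norm_nonneg _)

lemma Tm_periodic (C : ℝ) (A : X →ₗ[ℝ] Y) (hA : ∀ x, ‖A x‖ ≤ C * ‖x‖) (m : ℕ)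
    (f : Lip0 Y) (x w : X) (hw : w ∈ kerG A) : Tm C A hA m f (x + w) = Tm C A hA m f x := by
  rw [mem_kerG] at hw
  rw [Tm_apply, Tm_apply, map_add, hw, add_zero]

lemma Tm_add (C : ℝ) (A : X →ₗ[ℝ] Y) (hA : ∀ x, ‖A x‖ ≤ C * ‖x‖) (m : ℕ)
    (f g : Lip0 Y) : Tm C A hA m (f + g) = Tm C A hA m f + Tm C A hA m g := by
  apply Lip0.ext'
  intro x
  rw [Lip0.add_apply, Tm_apply, Tm_apply, Tm_apply, Lip0.add_apply]
  ring

lemma Tm_smul (C : ℝ) (A : X →ₗ[ℝ] Y) (hA : ∀ x, ‖A x‖ ≤ C * ‖x‖) (m : ℕ) (c : ℝ)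
    (f : Lip0 Y) : Tm C A hA m (c • f) = c • Tm C A hA m f := by
  apply Lip0.ext'
  intro x
  rw [Lip0.smul_apply, Tm_apply, Tm_apply, Lip0.smul_apply]
  ring

/-- the ultrafilter on `ℕ` used for limits -/
noncomputable abbrev hyp : Ultrafilter ℕ := hyperfilter ℕ

lemma hyp_le : (hyp : Filter ℕ) ≤ atTop := Nat.hyperfilter_le_atTop

/-- recentred germs of `g` at infinity along the `m`-th sequence of centres -/
noncomputable def bfun (e : X) (m : ℕ) (g : Lip0 X) (x : X) : ℝ :=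
  ulim hyp (fun j => g (cen e (Nat.pair m j) + x) - g (cen e (Nat.pair m j)))

lemma bfun_bdd (e : X) (m : ℕ) (g : Lip0 X) (x : X) :
    Bdd (fun j => g (cen e (Nat.pair m j) + x) - g (cen e (Nat.pair m j))) :=
  ⟨‖g‖ * ‖x‖, fun j => by
    have := g.abs_sub_le (cen e (Nat.pair m j) + x) (cen e (Nat.pair m j))
    rwa [dist_eq_norm, add_sub_cancel_left] at this⟩

lemma bfun_sub_le (e : X) (m : ℕ) (g : Lip0 X) (x y : X) :
    |bfun e m g x - bfun e m g y| ≤ ‖g‖ * ‖x - y‖ := by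
  rw [bfun, bfun, ← ulim_sub _ (bfun_bdd e m g x) (bfun_bdd e m g y)]
  apply abs_ulim_le
  intro j
  have := g.abs_sub_le (cen e (Nat.pair m j) + x) (cen e (Nat.pair m j) + y)
  rw [dist_eq_norm, add_sub_add_left_eq_sub] at this
  convert this using 2
  ring

/-- `B_m g` as an element of `Lip0 X` -/
noncomputable def Bm (e : X) (m : ℕ) (g : Lip0 X) : Lip0 X :=
  Lip0.mk' (bfun e m g) (by simp [bfun, ulim_const]) ‖g‖
    (fun x y => by rw [dist_eq_norm]; exact bfun_sub_le e m g x y)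

lemma Bm_norm_le (e : X) (m : ℕ) (g : Lip0 X) : ‖Bm e m g‖ ≤ ‖g‖ := by
  apply Lip0.norm_le_of_forall (norm_nonneg _)
  intro x y
  rw [dist_eq_norm]
  exact bfun_sub_le e m g x y

lemma Bm_add (e : X) (m : ℕ) (f g : Lip0 X) : Bm e m (f + g) = Bm e m f + Bm e m g := by
  apply Lip0.ext'
  intro x
  simp only [Bm, Lip0.mk'_apply, Lip0.add_apply]
  unfold bfun
  rw [← ulim_add _ (bfun_bdd e m f x) (bfun_bdd e m g x)]
  congr 1
  ext j
  simp only [Lip0.add_apply]
  ring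

lemma Bm_smul (e : X) (m : ℕ) (c : ℝ) (f : Lip0 X) : Bm e m (c • f) = c • Bm e m f := by
  apply Lip0.ext'
  intro x
  simp only [Bm, Lip0.mk'_apply, Lip0.smul_apply]
  unfold bfun
  rw [← ulim_smul _ c (bfun_bdd e m f x)]
  congr 1
  ext j
  simp only [Lip0.smul_apply]
  ring

/-- The abstract transfer theorem.  Suppose we have linear maps `A m : X → Y`, uniformly bounded,
and maps `σ m : Y → X` such that `A m (σ m y) → y`, and such that modulo `ker (A m)` the map
`σ m` is `C`-Lipschitz.  Then `Lip0 Y` is complemented in `Lip0 X`. -/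
theorem transfer (e : X) (he : ‖e‖ = 1) (C : ℝ) (hC : 0 ≤ C)
    (A : ℕ → X →ₗ[ℝ] Y) (hA : ∀ m x, ‖A m x‖ ≤ C * ‖x‖)
    (σ : ℕ → Y → X)
    (hσ0 : ∀ m, A m (σ m 0) = 0)
    (hσ : ∀ y, Tendsto (fun m => A m (σ m y)) atTop (𝓝 y))
    (hlip : ∀ m y y', ∀ ε > 0, ∃ k, A m k = 0 ∧ ‖σ m y - σ m y' + k‖ ≤ C * ‖y - y'‖ + ε) :
    ∃ (T : Lip0 Y →L[ℝ] Lip0 X) (S : Lip0 X →L[ℝ] Lip0 Y), ∀ f, S (T f) = f := by
  -- the operator T
  let F : Lip0 Y → ℕ → Lip0 X := fun f i =>
    Tm C (A (Nat.unpair i).1) (hA (Nat.unpair i).1) (Nat.unpair i).1 f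
  have hF : ∀ f i, ‖F f i‖ ≤ 3 * ‖f‖ * C := fun f i => Tm_norm_le C hC _ _ _ f
  have hT : ∀ f x y, |glue e (F f) x - glue e (F f) y| ≤ (18 * C * ‖f‖) * dist x y := by
    intro f x y
    refine (glue_sub_le he (F f) _ (hF f) x y).trans ?_
    rw [dist_eq_norm]
    apply le_of_eq
    ring
  let T0 : Lip0 Y →ₗ[ℝ] Lip0 X :=
    { toFun := fun f => Lip0.mk' (glue e (F f)) (glue_zero he _) (18 * C * ‖f‖) (hT f)
      map_add' := by
        intro f g
        apply Lip0.ext'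
        intro x
        simp only [Lip0.mk'_apply, Lip0.add_apply]
        rw [← glue_add]
        congr 1
        ext i
        simp only [F, Tm_add]
      map_smul' := by
        intro c f
        apply Lip0.ext'
        intro x
        simp only [Lip0.mk'_apply, Lip0.smul_apply, RingHom.id_apply]
        rw [← glue_smul]
        congr 1
        ext i
        simp only [F, Tm_smul] }
  let T : Lip0 Y →L[ℝ] Lip0 X := T0.mkContinuous (18 * C) (fun f =>
    Lip0.norm_le_of_forall (by positivity) (hT f))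
  have hTapp : ∀ f x, T f x = glue e (F f) x := fun f x => rfl
  -- the operator S
  let s : Lip0 X → Y → ℕ → ℝ := fun g y m => Rav (kerG (A m)) (Bm e m g) (σ m y)
  have hs : ∀ g y y' m, |s g y m - s g y' m| ≤ 2 * C * ‖g‖ * ‖y - y'‖ := by
    intro g y y' m
    apply le_of_forall_pos_le_add
    intro ε hε
    have hε' : 0 < ε / (2 * ‖g‖ + 1) := by positivity
    obtain ⟨k, hk, hk2⟩ := hlip m y y' _ hε'
    have h1 : Rav (kerG (A m)) (Bm e m g) (σ m y) = Rav (kerG (A m)) (Bm e m g) (σ m y + k) := by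
      rw [Rav_add_mem _ _ _ ((mem_kerG _ _).mpr hk)]
    have h2 := Rav_sub_le (kerG (A m)) (Bm e m g) (σ m y + k) (σ m y')
    have h3 := Bm_norm_le e m g
    have h4 : σ m y + k - σ m y' = σ m y - σ m y' + k := by abel
    rw [h4] at h2
    simp only [s]
    rw [h1]
    refine h2.trans ?_
    calc 2 * ‖Bm e m g‖ * ‖σ m y - σ m y' + k‖
        ≤ 2 * ‖g‖ * (C * ‖y - y'‖ + ε / (2 * ‖g‖ + 1)) := by gcongr
      _ = 2 * C * ‖g‖ * ‖y - y'‖ + (2 * ‖g‖) * (ε / (2 * ‖g‖ + 1)) := by ring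
      _ ≤ 2 * C * ‖g‖ * ‖y - y'‖ + ε := by
          gcongr
          rw [mul_div_assoc', div_le_iff₀ (by positivity)]
          nlinarith [norm_nonneg g]
  have hs0 : ∀ g m, s g 0 m = 0 := by
    intro g m
    simp only [s]
    have : σ m 0 = 0 + σ m 0 := by rw [zero_add]
    rw [this, Rav_add_mem _ _ _ ((mem_kerG _ _).mpr (hσ0 m)), Rav_zero]
  have hsb : ∀ g y, Bdd (s g y) := by
    intro g y
    refine ⟨2 * C * ‖g‖ * ‖y‖, fun m => ?_⟩
    have := hs g y 0 m
    rwa [hs0, sub_zero, sub_zero] at this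
  have hS : ∀ g y y', |ulim hyp (s g y) - ulim hyp (s g y')| ≤ (2 * C * ‖g‖) * dist y y' := by
    intro g y y'
    rw [← ulim_sub _ (hsb g y) (hsb g y'), dist_eq_norm]
    apply abs_ulim_le
    intro m
    exact hs g y y' m
  let S0 : Lip0 X →ₗ[ℝ] Lip0 Y :=
    { toFun := fun g => Lip0.mk' (fun y => ulim hyp (s g y))
        (by
          have : s g 0 = fun _ => 0 := by
            ext m; exact hs0 g m
          rw [this, ulim_const]) (2 * C * ‖g‖) (hS g)
      map_add' := by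
        intro f g
        apply Lip0.ext'
        intro y
        simp only [Lip0.mk'_apply, Lip0.add_apply]
        rw [← ulim_add _ (hsb f y) (hsb g y)]
        congr 1
        ext m
        simp only [s, Bm_add, Rav_add]
      map_smul' := by
        intro c f
        apply Lip0.ext'
        intro y
        simp only [Lip0.mk'_apply, Lip0.smul_apply, RingHom.id_apply]
        rw [← ulim_smul _ c (hsb f y)]
        congr 1
        ext m
        simp only [s, Bm_smul, Rav_smul] }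
  let S : Lip0 X →L[ℝ] Lip0 Y := S0.mkContinuous (2 * C) (fun f =>
    Lip0.norm_le_of_forall (by positivity) (hS f))
  refine ⟨T, S, fun f => ?_⟩
  apply Lip0.ext'
  intro y
  have hBT : ∀ m, Bm e m (T f) = Tm C (A m) (hA m) m f := by
    intro m
    apply Lip0.ext'
    intro x
    simp only [Bm, Lip0.mk'_apply]
    unfold bfun
    apply ulim_eq
    have hev : ∀ᶠ j in atTop, ‖x‖ ≤ rad (Nat.pair m j) := by
      have h1 : ∀ᶠ i in atTop, ‖x‖ ≤ rad i := rad_tendsto.eventually_ge_atTop _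
      have h2 : Tendsto (fun j => Nat.pair m j) atTop atTop :=
        tendsto_atTop_mono (fun j => Nat.right_le_pair m j) tendsto_id
      exact h2.eventually h1
    have hev2 : ∀ᶠ j in (hyp : Filter ℕ),
        Tm C (A m) (hA m) m f x = T f (cen e (Nat.pair m j) + x) - T f (cen e (Nat.pair m j)) := by
      filter_upwards [hyp_le hev] with j hj
      have e1 : T f (cen e (Nat.pair m j) + x) = F f (Nat.pair m j) x := by
        rw [hTapp, glue_center he (F f) hj]
      have e2 : T f (cen e (Nat.pair m j)) = 0 := by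
        have h0 : ‖(0 : X)‖ ≤ rad (Nat.pair m j) := by
          rw [norm_zero]; exact (rad_pos _).le
        have := glue_center he (F f) h0
        rw [add_zero] at this
        rw [hTapp, this, Lip0.map_zero]
      rw [e1, e2, sub_zero]
      simp only [F, Nat.unpair_pair]
    exact (tendsto_const_nhds).congr' hev2
  have hs1 : s (T f) y = fun m => chi (‖A m (σ m y)‖ / rad m) * f (A m (σ m y)) := by
    ext m
    simp only [s]
    rw [hBT, Rav_of_periodic _ _ (Tm_bdd C (A m) (hA m) m f)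
      (fun x w hw => Tm_periodic C (A m) (hA m) m f x w hw), Tm_apply]
  change ulim hyp (s (T f) y) = f y
  rw [hs1]
  apply ulim_eq
  refine Tendsto.mono_left ?_ hyp_le
  have h1 : Tendsto (fun m => f (A m (σ m y))) atTop (𝓝 (f y)) := by
    obtain ⟨K, hK⟩ := f.lipschitz'
    exact (hK.continuous.tendsto y).comp (hσ y)
  have h2 : Tendsto (fun m => ‖A m (σ m y)‖ / rad m) atTop (𝓝 0) := by
    exact (hσ y).norm.div_atTop rad_tendsto
  have h3 : Tendsto (fun m => chi (‖A m (σ m y)‖ / rad m)) atTop (𝓝 1) := by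
    have h4 : ∀ᶠ m in atTop, ‖A m (σ m y)‖ / rad m < 1 := h2.eventually_lt_const zero_lt_one
    refine tendsto_const_nhds.congr' ?_
    filter_upwards [h4] with m hm
    rw [chi_of_le hm.le]
  have := h3.mul h1
  rwa [one_mul] at this

end Pool.Agent.Helper93
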