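import Mathlib
import Pool.Agent.Helper93.Transfer
import Pool.Agent.Helper93.Quot

/-!
# `Lip₀(H)` is complemented in `Lip₀(X)` for every infinite-dimensional `X`
and every separable Hilbert space `H`
-/

set_option autoImplicit false

namespace Pool.Agent.Helper93

open Filter Topology TopologicalSpace

variable {H : Type*} [NormedAddCommGroup H] [InnerProductSpace ℝ H] [SeparableSpace H]

variable (H) in
/-- an increasing sequence of finite-dimensional subspaces with dense union -/
noncomputable def Em (m : ℕ) : Submodule ℝ H :=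
  Submodule.span ℝ (denseSeq H '' Set.Iio m)

instance (m : ℕ) : FiniteDimensional ℝ (Em H m) :=
  FiniteDimensional.span_of_finite ℝ ((Set.finite_Iio m).image _)

lemma Em_mono : Monotone (Em H) := by
  intro m n hmn
  apply Submodule.span_mono
  exact Set.image_mono (Set.Iio_subset_Iio hmn)

lemma Em_dense : ⊤ ≤ (⨆ m, Em H m).topologicalClosure := by
  intro x _
  change x ∈ closure ((⨆ m, Em H m : Submodule ℝ H) : Set H)
  have h1 : Set.range (denseSeq H) ⊆ ((⨆ m, Em H m : Submodule ℝ H) : Set H) := by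
    rintro _ ⟨n, rfl⟩
    have h2 : denseSeq H n ∈ Em H (n + 1) := by
      apply Submodule.subset_span
      exact ⟨n, Nat.lt_succ_self n, rfl⟩
    exact (le_iSup (Em H) (n + 1)) h2
  exact closure_mono h1 (denseRange_denseSeq H x)

/-- **Main theorem** (operator form). -/
theorem main_operators (X : Type*) [NormedAddCommGroup X] [NormedSpace ℝ X]
    (hX : ¬ FiniteDimensional ℝ X)
    (H : Type*) [NormedAddCommGroup H] [InnerProductSpace ℝ H] [SeparableSpace H] :
    ∃ (T : Lip0 H →L[ℝ] Lip0 X) (S : Lip0 X →L[ℝ] Lip0 H), ∀ f, S (T f) = f := by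
  have hnt : Nontrivial X := by
    by_contra h
    rw [not_nontrivial_iff_subsingleton] at h
    exact hX inferInstance
  obtain ⟨e, he⟩ : ∃ e : X, ‖e‖ = 1 := by
    obtain ⟨v, hv⟩ := exists_ne (0 : X)
    refine ⟨(‖v‖)⁻¹ • v, ?_⟩
    rw [norm_smul, norm_inv, norm_norm, inv_mul_cancel₀ (norm_ne_zero_iff.mpr hv)]
  -- finite-dimensional subspaces of `H`, identified with Euclidean spaces
  let d : ℕ → ℕ := fun m => Module.finrank ℝ (Em H m)
  let r : ∀ m, Em H m ≃ₗᵢ[ℝ] EuclideanSpace ℝ (Fin (d m)) := fun m =>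
    (stdOrthonormalBasis ℝ (Em H m)).repr
  choose Q hQs hQn hQq using fun m => exists_euclidean_quotient (X := X) hX (d m)
  have hσ : ∀ m, ∃ σ : EuclideanSpace ℝ (Fin (d m)) →ₗ[ℝ] X, (Q m).comp σ = LinearMap.id :=
    fun m => LinearMap.exists_rightInverse_of_surjective (Q m) (LinearMap.range_eq_top.mpr (hQs m))
  choose σ hσ2 using hσ
  have hσ3 : ∀ m v, Q m (σ m v) = v := fun m v => by
    have := LinearMap.congr_fun (hσ2 m) v
    simpa using this
  -- the maps `A m : X → H` and `p m : H → ℝ^(d m)`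
  let A : ℕ → X →ₗ[ℝ] H := fun m =>
    (Em H m).subtype.comp ((r m).symm.toLinearEquiv.toLinearMap.comp (Q m))
  have hA : ∀ m x, A m x = ((r m).symm (Q m x) : H) := fun m x => rfl
  let p : ∀ m, H →ₗ[ℝ] EuclideanSpace ℝ (Fin (d m)) := fun m =>
    (r m).toLinearEquiv.toLinearMap.comp ((Em H m).orthogonalProjectionOnto : H →ₗ[ℝ] Em H m)
  have hp : ∀ m y, p m y = r m ((Em H m).orthogonalProjectionOnto y) := fun m y => rfl
  refine transfer e he 5 (by norm_num) A ?_ (fun m y => σ m (p m y)) ?_ ?_ ?_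
  · intro m x
    rw [hA, ← Submodule.coe_norm, LinearIsometryEquiv.norm_map]
    exact hQn m x
  · intro m
    simp
  · intro y
    have h1 : ∀ m, A m (σ m (p m y)) = (Em H m).starProjection y := by
      intro m
      rw [hA, hσ3, hp, LinearIsometryEquiv.symm_apply_apply]
      rfl
    simp only [h1]
    exact Submodule.starProjection_tendsto_self (Em H) Em_mono y Em_dense
  · intro m y y' ε hε
    obtain ⟨k, hk1, hk2⟩ := hQq m (σ m (p m y) - σ m (p m y')) ε hε
    refine ⟨k, ?_, hk2.trans ?_⟩
    · rw [hA, hk1, map_zero]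
      rfl
    · have h1 : Q m (σ m (p m y) - σ m (p m y')) = p m (y - y') := by
        rw [map_sub, hσ3, hσ3, map_sub]
      rw [h1, hp, LinearIsometryEquiv.norm_map]
      have h2 : ‖(Em H m).orthogonalProjectionOnto (y - y')‖ ≤ ‖y - y'‖ :=
        (Em H m).norm_orthogonalProjectionOnto_apply_le (y - y')
      have h3 := norm_nonneg (y - y')
      linarith

end Pool.Agent.Helper93
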