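import Mathlib
import Pool.Agent.Helper93.Mean
import Pool.Agent.Helper93.Lip0
import Pool.Agent.Helper93.Glue
import Pool.Agent.Helper93.Compl

/-!
# Gluing arbitrary families of Lipschitz functions in disjoint balls

If `X` contains a `κ × ℕ`-indexed family of disjoint balls of the same size away from `0`,
then the `ℓ_∞`-sum of `κ` copies of `Lip₀(X)` is complemented in `Lip₀(X)`.
-/

set_option autoImplicit false
set_option linter.unusedSectionVars false

namespace Pool.Agent.Helper93

open Filter Topology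
open scoped ENNReal

variable {X : Type*} [NormedAddCommGroup X] [NormedSpace ℝ X]

/-- rescaling `f ↦ t⁻¹ f(t ·)` -/
noncomputable def rescale (t : ℝ) (ht : 0 < t) (f : Lip0 X) : Lip0 X :=
  Lip0.mk' (fun x => t⁻¹ * f (t • x)) (by simp) ‖f‖ (fun x y => by
    rw [← mul_sub, abs_mul, abs_of_pos (inv_pos.mpr ht)]
    have h1 := f.abs_sub_le (t • x) (t • y)
    rw [dist_eq_norm, ← smul_sub, norm_smul, Real.norm_eq_abs, abs_of_pos ht] at h1
    rw [dist_eq_norm]
    calc t⁻¹ * |f (t • x) - f (t • y)| ≤ t⁻¹ * (‖f‖ * (t * ‖x - y‖)) :=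
          mul_le_mul_of_nonneg_left h1 (inv_pos.mpr ht).le
      _ = ‖f‖ * ‖x - y‖ := by field_simp)

lemma rescale_apply (t : ℝ) (ht : 0 < t) (f : Lip0 X) (x : X) :
    rescale t ht f x = t⁻¹ * f (t • x) := rfl

lemma rescale_norm_le (t : ℝ) (ht : 0 < t) (f : Lip0 X) : ‖rescale t ht f‖ ≤ ‖f‖ := by
  apply Lip0.norm_le_of_forall (norm_nonneg _)
  intro x y
  rw [rescale_apply, rescale_apply, ← mul_sub, abs_mul, abs_of_pos (inv_pos.mpr ht)]
  have h1 := f.abs_sub_le (t • x) (t • y)
  rw [dist_eq_norm, ← smul_sub, norm_smul, Real.norm_eq_abs, abs_of_pos ht] at h1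
  rw [dist_eq_norm]
  calc t⁻¹ * |f (t • x) - f (t • y)| ≤ t⁻¹ * (‖f‖ * (t * ‖x - y‖)) :=
        mul_le_mul_of_nonneg_left h1 (inv_pos.mpr ht).le
    _ = ‖f‖ * ‖x - y‖ := by field_simp

variable {I : Type*}

/-- a family of centres whose `2r`-balls are disjoint and do not meet `0` -/
structure SepFam (c : I → X) (r : ℝ) : Prop where
  pos : 0 < r
  disj : ∀ i j x, ‖x - c i‖ < 2 * r → ‖x - c j‖ < 2 * r → i = j
  zero : ∀ i, 2 * r ≤ ‖c i‖

/-- localised copy of `F` near `c` -/
noncomputable def gloc (c : X) (r : ℝ) (F : Lip0 X) (x : X) : ℝ :=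
  chi (‖x - c‖ / r) * F (x - c)

lemma gloc_eq_zero (c : X) {r : ℝ} (hr : 0 < r) (F : Lip0 X) {x : X} (h : 2 * r ≤ ‖x - c‖) :
    gloc c r F x = 0 := by
  have : 2 ≤ ‖x - c‖ / r := by
    rw [le_div_iff₀ hr]; exact h
  rw [gloc, chi_of_ge this, zero_mul]

lemma gloc_sub_le (c : X) {r : ℝ} (hr : 0 < r) (F : Lip0 X) (x y : X) :
    |gloc c r F x - gloc c r F y| ≤ 3 * ‖F‖ * ‖x - y‖ := by
  have key : ∀ x y : X, ‖y - c‖ ≤ ‖x - c‖ →
      |gloc c r F x - gloc c r F y| ≤ 3 * ‖F‖ * ‖x - y‖ := by
    intro x y hxy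
    by_cases hy : 2 * r ≤ ‖y - c‖
    · rw [gloc_eq_zero c hr F hy, gloc_eq_zero c hr F (hy.trans hxy)]
      simp only [sub_self, abs_zero]
      positivity
    · push Not at hy
      set a := ‖x - c‖ / r
      set b := ‖y - c‖ / r
      have h1 : gloc c r F x - gloc c r F y
          = chi a * (F (x - c) - F (y - c)) + (chi a - chi b) * F (y - c) := by
        simp only [gloc]; ring
      have h2 : |F (x - c) - F (y - c)| ≤ ‖F‖ * ‖x - y‖ := by
        have := F.abs_sub_le (x - c) (y - c)
        rwa [dist_eq_norm, sub_sub_sub_cancel_right] at this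
      have h3 : |F (y - c)| ≤ ‖F‖ * (2 * r) := by
        have := F.abs_le (y - c)
        rw [dist_zero_right] at this
        exact this.trans (mul_le_mul_of_nonneg_left hy.le (norm_nonneg _))
      have h4 : |chi a - chi b| ≤ ‖x - y‖ / r := by
        refine (abs_chi_sub_le a b).trans ?_
        rw [← sub_div, abs_div, abs_of_pos hr]
        refine div_le_div_of_nonneg_right ?_ hr.le
        have := abs_norm_sub_norm_le (x - c) (y - c)
        rwa [sub_sub_sub_cancel_right] at this
      rw [h1]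
      calc |chi a * (F (x - c) - F (y - c)) + (chi a - chi b) * F (y - c)|
          ≤ |chi a * (F (x - c) - F (y - c))| + |(chi a - chi b) * F (y - c)| :=
            abs_add_le _ _
        _ = chi a * |F (x - c) - F (y - c)| + |chi a - chi b| * |F (y - c)| := by
            rw [abs_mul, abs_mul, abs_of_nonneg (chi_nonneg a)]
        _ ≤ 1 * (‖F‖ * ‖x - y‖) + (‖x - y‖ / r) * (‖F‖ * (2 * r)) := by
            refine add_le_add ?_ ?_
            · exact mul_le_mul (chi_le_one _) h2 (abs_nonneg _) zero_le_one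
            · exact mul_le_mul h4 h3 (abs_nonneg _) (by positivity)
        _ = 3 * ‖F‖ * ‖x - y‖ := by
            field_simp
            ring
  rcases le_total ‖y - c‖ ‖x - c‖ with h | h
  · exact key x y h
  · rw [abs_sub_comm, norm_sub_rev]
    exact key y x h

open Classical in
/-- gluing a family of functions in disjoint balls -/
noncomputable def gglue (c : I → X) (r : ℝ) (F : I → Lip0 X) (x : X) : ℝ :=
  if h : ∃ i, ‖x - c i‖ < 2 * r then gloc (c h.choose) r (F h.choose) x else 0

lemma gglue_eq {c : I → X} {r : ℝ} (hc : SepFam c r) (F : I → Lip0 X) {x : X} {i : I}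
    (hi : ‖x - c i‖ < 2 * r) : gglue c r F x = gloc (c i) r (F i) x := by
  have h : ∃ i, ‖x - c i‖ < 2 * r := ⟨i, hi⟩
  have h2 : h.choose = i := hc.disj _ _ x h.choose_spec hi
  rw [gglue, dif_pos h, h2]

lemma gglue_eq_zero {c : I → X} {r : ℝ} (F : I → Lip0 X) {x : X}
    (h : ¬ ∃ i, ‖x - c i‖ < 2 * r) : gglue c r F x = 0 := by
  rw [gglue, dif_neg h]

lemma gglue_zero {c : I → X} {r : ℝ} (hc : SepFam c r) (F : I → Lip0 X) : gglue c r F 0 = 0 := by
  apply gglue_eq_zero
  rintro ⟨i, hi⟩
  have := hc.zero i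
  rw [zero_sub, norm_neg] at hi
  linarith

lemma gglue_sub_le {c : I → X} {r : ℝ} (hc : SepFam c r) (F : I → Lip0 X) (C : ℝ) (hC0 : 0 ≤ C)
    (hC : ∀ i, ‖F i‖ ≤ C) (x y : X) :
    |gglue c r F x - gglue c r F y| ≤ 6 * C * ‖x - y‖ := by
  have hr := hc.pos
  have hl : ∀ i x y, |gloc (c i) r (F i) x - gloc (c i) r (F i) y| ≤ 3 * C * ‖x - y‖ := by
    intro i x y
    refine (gloc_sub_le (c i) hr (F i) x y).trans ?_
    have := hC i
    gcongr
  have hn : 0 ≤ C * ‖x - y‖ := by positivity
  by_cases hx : ∃ i, ‖x - c i‖ < 2 * r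
  · obtain ⟨i, hi⟩ := hx
    by_cases hy : ∃ j, ‖y - c j‖ < 2 * r
    · obtain ⟨j, hj⟩ := hy
      by_cases hij : i = j
      · subst hij
        rw [gglue_eq hc F hi, gglue_eq hc F hj]
        refine (hl i x y).trans ?_
        linarith
      · have h1 : gloc (c i) r (F i) y = 0 := by
          apply gloc_eq_zero _ hr
          by_contra h
          push Not at h
          exact hij (hc.disj _ _ y h hj)
        have h2 : gloc (c j) r (F j) x = 0 := by
          apply gloc_eq_zero _ hr
          by_contra h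
          push Not at h
          exact hij (hc.disj _ _ x hi h)
        have h3 := hl i x y
        have h4 := hl j x y
        rw [h1, sub_zero] at h3
        rw [h2, zero_sub, abs_neg] at h4
        rw [gglue_eq hc F hi, gglue_eq hc F hj]
        calc |gloc (c i) r (F i) x - gloc (c j) r (F j) y|
            ≤ |gloc (c i) r (F i) x| + |gloc (c j) r (F j) y| := abs_sub _ _
          _ ≤ 6 * C * ‖x - y‖ := by linarith
    · rw [gglue_eq hc F hi, gglue_eq_zero F hy]
      have h1 : gloc (c i) r (F i) y = 0 := by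
        apply gloc_eq_zero _ hr
        by_contra h
        push Not at h
        exact hy ⟨i, h⟩
      have h3 := hl i x y
      rw [h1] at h3
      linarith
  · rw [gglue_eq_zero F hx]
    by_cases hy : ∃ j, ‖y - c j‖ < 2 * r
    · obtain ⟨j, hj⟩ := hy
      rw [gglue_eq hc F hj]
      have h1 : gloc (c j) r (F j) x = 0 := by
        apply gloc_eq_zero _ hr
        by_contra h
        push Not at h
        exact hx ⟨j, h⟩
      have h3 := hl j x y
      rw [h1] at h3
      linarith
    · rw [gglue_eq_zero F hy, sub_self, abs_zero]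
      linarith

lemma gglue_center {c : I → X} {r : ℝ} (hc : SepFam c r) (F : I → Lip0 X) {i : I} {x : X}
    (hx : ‖x‖ ≤ r) : gglue c r F (c i + x) = F i x := by
  have hr := hc.pos
  have h1 : ‖c i + x - c i‖ < 2 * r := by
    rw [add_sub_cancel_left]; linarith
  rw [gglue_eq hc F h1, gloc, add_sub_cancel_left, chi_of_le, one_mul]
  rw [div_le_one hr]
  exact hx

lemma gglue_add (c : I → X) (r : ℝ) (F G : I → Lip0 X) (x : X) :
    gglue c r (fun i => F i + G i) x = gglue c r F x + gglue c r G x := by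
  unfold gglue
  split_ifs with h
  · simp only [gloc, Lip0.add_apply]
    ring
  · ring

lemma gglue_smul (c : I → X) (r : ℝ) (a : ℝ) (F : I → Lip0 X) (x : X) :
    gglue c r (fun i => a • F i) x = a * gglue c r F x := by
  unfold gglue
  split_ifs with h
  · simp only [gloc, Lip0.smul_apply]
    ring
  · ring

/-- the ultrafilter on `ℕ` used for limits -/
noncomputable abbrev hypN : Ultrafilter ℕ := hyperfilter ℕ

lemma hypN_le : (hypN : Filter ℕ) ≤ atTop := Nat.hyperfilter_le_atTop

/-- The `ℓ_∞`-sum of `κ` copies of `Lip₀(X)` is complemented in `Lip₀(X)` if `X` contains a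
separated family indexed by `κ × ℕ`. -/
theorem linf_ce_of_sepFam {K : Type*} {c : K × ℕ → X} {r : ℝ} (hc : SepFam c r) :
    CE (lp (fun _ : K => Lip0 X) ∞) (Lip0 X) := by
  have hpos : ∀ m : ℕ, (0 : ℝ) < 2 ^ m := fun m => by positivity
  let F : (lp (fun _ : K => Lip0 X) ∞) → K × ℕ → Lip0 X := fun g p =>
    rescale (2 ^ p.2) (hpos _) (g p.1)
  have hF : ∀ g p, ‖F g p‖ ≤ ‖g‖ := fun g p =>
    (rescale_norm_le _ _ _).trans (linf_norm_apply_le g p.1)
  have hJ : ∀ g x y, |gglue c r (F g) x - gglue c r (F g) y| ≤ 6 * ‖g‖ * dist x y := by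
    intro g x y
    rw [dist_eq_norm]
    exact gglue_sub_le hc (F g) ‖g‖ (norm_nonneg _) (hF g) x y
  let J0 : (lp (fun _ : K => Lip0 X) ∞) →ₗ[ℝ] Lip0 X :=
    { toFun := fun g => Lip0.mk' (gglue c r (F g)) (gglue_zero hc _) (6 * ‖g‖) (hJ g)
      map_add' := by
        intro f g
        apply Lip0.ext'
        intro x
        simp only [Lip0.mk'_apply, Lip0.add_apply]
        rw [← gglue_add]
        congr 1
        ext p
        apply Lip0.ext'
        intro y
        simp only [F, rescale_apply, lp.coeFn_add, Pi.add_apply, Lip0.add_apply]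
        ring
      map_smul' := by
        intro a f
        apply Lip0.ext'
        intro x
        simp only [Lip0.mk'_apply, Lip0.smul_apply, RingHom.id_apply]
        rw [← gglue_smul]
        congr 1
        ext p
        apply Lip0.ext'
        intro y
        simp only [F, rescale_apply, lp.coeFn_smul, Pi.smul_apply, Lip0.smul_apply]
        ring }
  let J : (lp (fun _ : K => Lip0 X) ∞) →L[ℝ] Lip0 X := J0.mkContinuous 6 (fun g =>
    Lip0.norm_le_of_forall (by positivity) (hJ g))
  have hJapp : ∀ g x, J g x = gglue c r (F g) x := fun g x => rfl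
  -- blow-ups
  let b : Lip0 X → K → X → ℕ → ℝ := fun f k y m =>
    (2 : ℝ) ^ m * (f (c (k, m) + ((2 : ℝ) ^ m)⁻¹ • y) - f (c (k, m)))
  have hb : ∀ f k y y' m, |b f k y m - b f k y' m| ≤ ‖f‖ * dist y y' := by
    intro f k y y' m
    simp only [b]
    rw [← mul_sub, sub_sub_sub_cancel_right, abs_mul, abs_of_pos (hpos m)]
    have h1 := f.abs_sub_le (c (k, m) + ((2 : ℝ) ^ m)⁻¹ • y) (c (k, m) + ((2 : ℝ) ^ m)⁻¹ • y')
    rw [dist_eq_norm, add_sub_add_left_eq_sub, ← smul_sub, norm_smul, Real.norm_eq_abs,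
      abs_of_pos (inv_pos.mpr (hpos m))] at h1
    rw [dist_eq_norm]
    calc (2 : ℝ) ^ m * _ ≤ 2 ^ m * (‖f‖ * (((2 : ℝ) ^ m)⁻¹ * ‖y - y'‖)) :=
          mul_le_mul_of_nonneg_left h1 (hpos m).le
      _ = ‖f‖ * ‖y - y'‖ := by field_simp
  have hb0 : ∀ f k m, b f k 0 m = 0 := by
    intro f k m
    simp [b]
  have hbb : ∀ f k y, Bdd (b f k y) := by
    intro f k y
    refine ⟨‖f‖ * dist y 0, fun m => ?_⟩
    have := hb f k y 0 m
    rwa [hb0, sub_zero] at this
  have hQ : ∀ f k y y', |ulim hypN (b f k y) - ulim hypN (b f k y')| ≤ ‖f‖ * dist y y' := by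
    intro f k y y'
    rw [← ulim_sub _ (hbb f k y) (hbb f k y')]
    apply abs_ulim_le
    intro m
    exact hb f k y y' m
  let Q0 : ∀ k : K, Lip0 X →ₗ[ℝ] Lip0 X := fun k =>
    { toFun := fun f => Lip0.mk' (fun y => ulim hypN (b f k y))
        (by
          have : b f k 0 = fun _ => 0 := by
            ext m; exact hb0 f k m
          rw [this, ulim_const]) ‖f‖ (hQ f k)
      map_add' := by
        intro f g
        apply Lip0.ext'
        intro y
        simp only [Lip0.mk'_apply, Lip0.add_apply]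
        rw [← ulim_add _ (hbb f k y) (hbb g k y)]
        congr 1
        ext m
        simp only [b, Lip0.add_apply]
        ring
      map_smul' := by
        intro a f
        apply Lip0.ext'
        intro y
        simp only [Lip0.mk'_apply, Lip0.smul_apply, RingHom.id_apply]
        rw [← ulim_smul _ a (hbb f k y)]
        congr 1
        ext m
        simp only [b, Lip0.smul_apply]
        ring }
  have hQ0 : ∀ k f, ‖Q0 k f‖ ≤ 1 * ‖f‖ := by
    intro k f
    rw [one_mul]
    exact Lip0.norm_le_of_forall (norm_nonneg _) (hQ f k)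
  refine ⟨J, linfPi Q0 1 zero_le_one hQ0, fun g => ?_⟩
  apply lp.ext
  ext k
  apply Lip0.ext'
  intro y
  change ulim hypN (b (J g) k y) = g k y
  apply ulim_eq
  refine Tendsto.mono_left ?_ hypN_le
  have hev : ∀ᶠ m : ℕ in atTop, ‖((2 : ℝ) ^ m)⁻¹ • y‖ ≤ r := by
    have h1 : Tendsto (fun m : ℕ => ‖((2 : ℝ) ^ m)⁻¹ • y‖) atTop (𝓝 0) := by
      have h2 : Tendsto (fun m : ℕ => ((2 : ℝ) ^ m)⁻¹) atTop (𝓝 0) :=
        tendsto_inv_atTop_zero.comp (tendsto_pow_atTop_atTop_of_one_lt (by norm_num))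
      have h3 := (h2.smul_const y).norm
      simpa using h3
    exact (h1.eventually_lt_const hc.pos).mono fun m hm => hm.le
  refine tendsto_const_nhds.congr' ?_
  filter_upwards [hev] with m hm
  have e1 : J g (c (k, m) + ((2 : ℝ) ^ m)⁻¹ • y) = F g (k, m) (((2 : ℝ) ^ m)⁻¹ • y) := by
    rw [hJapp, gglue_center hc (F g) hm]
  have e2 : J g (c (k, m)) = 0 := by
    have h0 : ‖(0 : X)‖ ≤ r := by
      rw [norm_zero]; exact hc.pos.le
    have := gglue_center hc (F g) (i := (k, m)) h0
    rw [add_zero] at this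
    rw [hJapp, this, Lip0.map_zero]
  simp only [b]
  rw [e1, e2, sub_zero]
  simp only [F, rescale_apply]
  rw [smul_smul, mul_inv_cancel₀ (hpos m).ne', one_smul, ← mul_assoc, mul_inv_cancel₀ (hpos m).ne',
    one_mul]

end Pool.Agent.Helper93
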