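import Mathlib
import Pool.Agent.Helper93.Transfer
import Pool.Agent.Helper93.Compl

/-!
# The transfer theorem with norm bounds, and quotients of `ℓ₁^m`
-/

set_option autoImplicit false

namespace Pool.Agent.Helper93

open Filter Topology
open scoped ENNReal

section transfer

variable {X : Type*} [NormedAddCommGroup X] [NormedSpace ℝ X]
variable {Y : Type*} [NormedAddCommGroup Y] [NormedSpace ℝ Y]

/-- The abstract transfer theorem, with norm bounds.  Suppose we have linear maps `A m : X → Y`, uniformly bounded,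
and maps `σ m : Y → X` such that `A m (σ m y) → y`, and such that modulo `ker (A m)` the map
`σ m` is `C`-Lipschitz.  Then `Lip0 Y` is complemented in `Lip0 X`. -/
theorem transfer_uc (e : X) (he : ‖e‖ = 1) (C : ℝ) (hC : 0 ≤ C)
    (A : ℕ → X →ₗ[ℝ] Y) (hA : ∀ m x, ‖A m x‖ ≤ C * ‖x‖)
    (σ : ℕ → Y → X)
    (hσ0 : ∀ m, A m (σ m 0) = 0)
    (hσ : ∀ y, Tendsto (fun m => A m (σ m y)) atTop (𝓝 y))
    (hlip : ∀ m y y', ∀ ε > 0, ∃ k, A m k = 0 ∧ ‖σ m y - σ m y' + k‖ ≤ C * ‖y - y'‖ + ε) :
    UC (18 * C) (Lip0 Y) (Lip0 X) := by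
  -- the operator T
  let F : Lip0 Y → ℕ → Lip0 X := fun f i =>
    Tm C (A (Nat.unpair i).1) (hA (Nat.unpair i).1) (Nat.unpair i).1 f
  have hF : ∀ f i, ‖F f i‖ ≤ 3 * ‖f‖ * C := fun f i => Tm_norm_le C hC _ _ _ f
  have hT : ∀ f x y, |glue e (F f) x - glue e (F f) y| ≤ (18 * C * ‖f‖) * dist x y := by
    intro f x y
    refine (glue_sub_le he (F f) _ (hF f) x y).trans ?_
    rw [dist_eq_norm]
    apply le_of_eq
    ring
  let T0 : Lip0 Y →ₗ[ℝ] Lip0 X :=
    { toFun := fun f => Lip0.mk' (glue e (F f)) (glue_zero he _) (18 * C * ‖f‖) (hT f)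
      map_add' := by
        intro f g
        apply Lip0.ext'
        intro x
        simp only [Lip0.mk'_apply, Lip0.add_apply]
        rw [← glue_add]
        congr 1
        ext i
        simp only [F, Tm_add]
      map_smul' := by
        intro c f
        apply Lip0.ext'
        intro x
        simp only [Lip0.mk'_apply, Lip0.smul_apply, RingHom.id_apply]
        rw [← glue_smul]
        congr 1
        ext i
        simp only [F, Tm_smul] }
  let T : Lip0 Y →L[ℝ] Lip0 X := T0.mkContinuous (18 * C) (fun f =>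
    Lip0.norm_le_of_forall (by positivity) (hT f))
  have hTapp : ∀ f x, T f x = glue e (F f) x := fun f x => rfl
  -- the operator S
  let s : Lip0 X → Y → ℕ → ℝ := fun g y m => Rav (kerG (A m)) (Bm e m g) (σ m y)
  have hs : ∀ g y y' m, |s g y m - s g y' m| ≤ 2 * C * ‖g‖ * ‖y - y'‖ := by
    intro g y y' m
    apply le_of_forall_pos_le_add
    intro ε hε
    have hε' : 0 < ε / (2 * ‖g‖ + 1) := by positivity
    obtain ⟨k, hk, hk2⟩ := hlip m y y' _ hε'
    have h1 : Rav (kerG (A m)) (Bm e m g) (σ m y) = Rav (kerG (A m)) (Bm e m g) (σ m y + k) := by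
      rw [Rav_add_mem _ _ _ ((mem_kerG _ _).mpr hk)]
    have h2 := Rav_sub_le (kerG (A m)) (Bm e m g) (σ m y + k) (σ m y')
    have h3 := Bm_norm_le e m g
    have h4 : σ m y + k - σ m y' = σ m y - σ m y' + k := by abel
    rw [h4] at h2
    simp only [s]
    rw [h1]
    refine h2.trans ?_
    calc 2 * ‖Bm e m g‖ * ‖σ m y - σ m y' + k‖
        ≤ 2 * ‖g‖ * (C * ‖y - y'‖ + ε / (2 * ‖g‖ + 1)) := by gcongr
      _ = 2 * C * ‖g‖ * ‖y - y'‖ + (2 * ‖g‖) * (ε / (2 * ‖g‖ + 1)) := by ring
      _ ≤ 2 * C * ‖g‖ * ‖y - y'‖ + ε := by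
          gcongr
          rw [mul_div_assoc', div_le_iff₀ (by positivity)]
          nlinarith [norm_nonneg g]
  have hs0 : ∀ g m, s g 0 m = 0 := by
    intro g m
    simp only [s]
    have : σ m 0 = 0 + σ m 0 := by rw [zero_add]
    rw [this, Rav_add_mem _ _ _ ((mem_kerG _ _).mpr (hσ0 m)), Rav_zero]
  have hsb : ∀ g y, Bdd (s g y) := by
    intro g y
    refine ⟨2 * C * ‖g‖ * ‖y‖, fun m => ?_⟩
    have := hs g y 0 m
    rwa [hs0, sub_zero, sub_zero] at this
  have hS : ∀ g y y', |ulim hyp (s g y) - ulim hyp (s g y')| ≤ (2 * C * ‖g‖) * dist y y' := by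
    intro g y y'
    rw [← ulim_sub _ (hsb g y) (hsb g y'), dist_eq_norm]
    apply abs_ulim_le
    intro m
    exact hs g y y' m
  let S0 : Lip0 X →ₗ[ℝ] Lip0 Y :=
    { toFun := fun g => Lip0.mk' (fun y => ulim hyp (s g y))
        (by
          have : s g 0 = fun _ => 0 := by
            ext m; exact hs0 g m
          rw [this, ulim_const]) (2 * C * ‖g‖) (hS g)
      map_add' := by
        intro f g
        apply Lip0.ext'
        intro y
        simp only [Lip0.mk'_apply, Lip0.add_apply]
        rw [← ulim_add _ (hsb f y) (hsb g y)]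
        congr 1
        ext m
        simp only [s, Bm_add, Rav_add]
      map_smul' := by
        intro c f
        apply Lip0.ext'
        intro y
        simp only [Lip0.mk'_apply, Lip0.smul_apply, RingHom.id_apply]
        rw [← ulim_smul _ c (hsb f y)]
        congr 1
        ext m
        simp only [s, Bm_smul, Rav_smul] }
  let S : Lip0 X →L[ℝ] Lip0 Y := S0.mkContinuous (2 * C) (fun f =>
    Lip0.norm_le_of_forall (by positivity) (hS f))
  refine ⟨T, S, fun f => ?_, LinearMap.mkContinuous_norm_le _ (by positivity) _,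
    (LinearMap.mkContinuous_norm_le _ (by positivity) _).trans (by linarith)⟩
  apply Lip0.ext'
  intro y
  have hBT : ∀ m, Bm e m (T f) = Tm C (A m) (hA m) m f := by
    intro m
    apply Lip0.ext'
    intro x
    simp only [Bm, Lip0.mk'_apply]
    unfold bfun
    apply ulim_eq
    have hev : ∀ᶠ j in atTop, ‖x‖ ≤ rad (Nat.pair m j) := by
      have h1 : ∀ᶠ i in atTop, ‖x‖ ≤ rad i := rad_tendsto.eventually_ge_atTop _
      have h2 : Tendsto (fun j => Nat.pair m j) atTop atTop :=
        tendsto_atTop_mono (fun j => Nat.right_le_pair m j) tendsto_id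
      exact h2.eventually h1
    have hev2 : ∀ᶠ j in (hyp : Filter ℕ),
        Tm C (A m) (hA m) m f x = T f (cen e (Nat.pair m j) + x) - T f (cen e (Nat.pair m j)) := by
      filter_upwards [hyp_le hev] with j hj
      have e1 : T f (cen e (Nat.pair m j) + x) = F f (Nat.pair m j) x := by
        rw [hTapp, glue_center he (F f) hj]
      have e2 : T f (cen e (Nat.pair m j)) = 0 := by
        have h0 : ‖(0 : X)‖ ≤ rad (Nat.pair m j) := by
          rw [norm_zero]; exact (rad_pos _).le
        have := glue_center he (F f) h0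
        rw [add_zero] at this
        rw [hTapp, this, Lip0.map_zero]
      rw [e1, e2, sub_zero]
      simp only [F, Nat.unpair_pair]
    exact (tendsto_const_nhds).congr' hev2
  have hs1 : s (T f) y = fun m => chi (‖A m (σ m y)‖ / rad m) * f (A m (σ m y)) := by
    ext m
    simp only [s]
    rw [hBT, Rav_of_periodic _ _ (Tm_bdd C (A m) (hA m) m f)
      (fun x w hw => Tm_periodic C (A m) (hA m) m f x w hw), Tm_apply]
  change ulim hyp (s (T f) y) = f y
  rw [hs1]
  apply ulim_eq
  refine Tendsto.mono_left ?_ hyp_le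
  have h1 : Tendsto (fun m => f (A m (σ m y))) atTop (𝓝 (f y)) := by
    obtain ⟨K, hK⟩ := f.lipschitz'
    exact (hK.continuous.tendsto y).comp (hσ y)
  have h2 : Tendsto (fun m => ‖A m (σ m y)‖ / rad m) atTop (𝓝 0) := by
    exact (hσ y).norm.div_atTop rad_tendsto
  have h3 : Tendsto (fun m => chi (‖A m (σ m y)‖ / rad m)) atTop (𝓝 1) := by
    have h4 : ∀ᶠ m in atTop, ‖A m (σ m y)‖ / rad m < 1 := h2.eventually_lt_const zero_lt_one
    refine tendsto_const_nhds.congr' ?_
    filter_upwards [h4] with m hm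
    rw [chi_of_le hm.le]
  have := h3.mul h1
  rwa [one_mul] at this

end transfer

end Pool.Agent.Helper93
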