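import Mathlib
import Pool.Agent.Helper93.TransferUC

/-!
# Finite-dimensional spaces are quotients of `ℓ₁^m`
-/

set_option autoImplicit false

namespace Pool.Agent.Helper93

open Filter Topology
open scoped ENNReal

/-- `ℓ₁^n` -/
abbrev L1n (n : ℕ) : Type := PiLp 1 (fun _ : Fin n => ℝ)

section functor

variable {X Y : Type*} [NormedAddCommGroup X] [NormedSpace ℝ X]
  [NormedAddCommGroup Y] [NormedSpace ℝ Y]

/-- composition with a bounded linear map -/
noncomputable def lipComp (A : X →L[ℝ] Y) : Lip0 Y →L[ℝ] Lip0 X :=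
  LinearMap.mkContinuous
    { toFun := fun f => Lip0.mk' (fun x => f (A x)) (by simp) (‖A‖ * ‖f‖) (fun x y => by
        refine (f.abs_sub_le _ _).trans ?_
        rw [dist_eq_norm, ← map_sub, dist_eq_norm]
        calc ‖f‖ * ‖A (x - y)‖ ≤ ‖f‖ * (‖A‖ * ‖x - y‖) :=
              mul_le_mul_of_nonneg_left (A.le_opNorm _) (norm_nonneg _)
          _ = ‖A‖ * ‖f‖ * ‖x - y‖ := by ring)
      map_add' := fun f g => rfl
      map_smul' := fun c f => rfl } ‖A‖ (fun f =>
    Lip0.norm_le_of_forall (by positivity) (fun x y => by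
        refine (f.abs_sub_le (A x) (A y)).trans ?_
        rw [dist_eq_norm, ← map_sub, dist_eq_norm]
        calc ‖f‖ * ‖A (x - y)‖ ≤ ‖f‖ * (‖A‖ * ‖x - y‖) :=
              mul_le_mul_of_nonneg_left (A.le_opNorm _) (norm_nonneg _)
          _ = ‖A‖ * ‖f‖ * ‖x - y‖ := by ring))

@[simp] lemma lipComp_apply (A : X →L[ℝ] Y) (f : Lip0 Y) (x : X) : lipComp A f x = f (A x) := rfl

lemma lipComp_norm_le (A : X →L[ℝ] Y) : ‖lipComp A‖ ≤ ‖A‖ :=
  LinearMap.mkContinuous_norm_le _ (norm_nonneg _) _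

lemma UC.lip {C : ℝ} (h : UC C X Y) : UC C (Lip0 X) (Lip0 Y) := by
  obtain ⟨T, S, h1, h2, h3⟩ := h
  refine ⟨lipComp S, lipComp T, fun f => ?_, (lipComp_norm_le S).trans h3,
    (lipComp_norm_le T).trans h2⟩
  apply Lip0.ext'
  intro x
  simp only [lipComp_apply, h1]

end functor

section quotient

variable (G : Type*) [NormedAddCommGroup G] [NormedSpace ℝ G] [FiniteDimensional ℝ G]

lemma exists_net : ∃ (m : ℕ) (y : Fin (m + 1) → G), (∀ k, ‖y k‖ ≤ 1) ∧
    ∀ v : G, ‖v‖ ≤ 1 → ∃ k, ‖v - y k‖ ≤ 1 / 2 := by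
  have : ProperSpace G := FiniteDimensional.proper ℝ G
  obtain ⟨t, ht1, ht2, ht3⟩ := (isCompact_closedBall (0 : G) 1).finite_cover_balls
    (show (0 : ℝ) < 1 / 2 by norm_num)
  have : Finite t := ht2
  obtain ⟨m, ⟨e⟩⟩ := Finite.exists_equiv_fin t
  refine ⟨m, Fin.cons 0 (fun k => ((e.symm k : t) : G)), ?_, ?_⟩
  · intro k
    refine Fin.cases ?_ (fun k => ?_) k
    · simp
    · have := ht1 (e.symm k).2
      rw [mem_closedBall_zero_iff] at this
      simpa using this
  · intro v hv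
    have h1 := ht3 (mem_closedBall_zero_iff.mpr hv)
    simp only [Set.mem_iUnion, exists_prop] at h1
    obtain ⟨x, hx, hxv⟩ := h1
    refine ⟨(e ⟨x, hx⟩).succ, ?_⟩
    rw [Metric.mem_ball, dist_eq_norm] at hxv
    simp only [Fin.cons_succ, Equiv.symm_apply_apply]
    exact hxv.le

/-- every finite-dimensional normed space is a `2`-quotient of some `ℓ₁^m` -/
theorem exists_l1_quotient : ∃ (m : ℕ) (A : L1n (m + 1) →ₗ[ℝ] G), (∀ x, ‖A x‖ ≤ ‖x‖) ∧
    ∀ y, ∃ x, A x = y ∧ ‖x‖ ≤ 2 * ‖y‖ := by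
  obtain ⟨m, z, hz1, hz2⟩ := exists_net G
  let A : L1n (m + 1) →ₗ[ℝ] G :=
    { toFun := fun x => ∑ k, x k • z k
      map_add' := fun x y => by
        simp only [PiLp.add_apply, add_smul, Finset.sum_add_distrib]
      map_smul' := fun c x => by
        simp only [PiLp.smul_apply, smul_eq_mul, mul_smul, Finset.smul_sum, RingHom.id_apply] }
  have hAapp : ∀ x, A x = ∑ k, x k • z k := fun x => rfl
  have hA : ∀ x, ‖A x‖ ≤ ‖x‖ := by
    intro x
    rw [hAapp, PiLp.norm_eq_of_L1]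
    refine (norm_sum_le _ _).trans (Finset.sum_le_sum fun k _ => ?_)
    rw [norm_smul]
    exact mul_le_of_le_one_right (norm_nonneg _) (hz1 k)
  refine ⟨m, A, hA, fun y => ?_⟩
  -- approximate preimages
  have happ : ∀ y : G, ∃ x : L1n (m + 1), ‖x‖ ≤ ‖y‖ ∧ ‖y - A x‖ ≤ ‖y‖ / 2 := by
    intro y
    by_cases hy : y = 0
    · refine ⟨0, by simp, by simp [hy]⟩
    · have hy' : 0 < ‖y‖ := norm_pos_iff.mpr hy
      obtain ⟨k, hk⟩ := hz2 (‖y‖⁻¹ • y) (by
        rw [norm_smul, norm_inv, norm_norm, inv_mul_cancel₀ hy'.ne'])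
      refine ⟨PiLp.single 1 k ‖y‖, ?_, ?_⟩
      · rw [PiLp.norm_single, norm_norm]
      · have h1 : A (PiLp.single 1 k ‖y‖) = ‖y‖ • z k := by
          rw [hAapp, Finset.sum_eq_single k]
          · rw [PiLp.single_eq_same]
          · intro j _ hj
            rw [PiLp.single_eq_of_ne 1 hj, zero_smul]
          · intro h
            exact absurd (Finset.mem_univ k) h
        have h2 : y - ‖y‖ • z k = ‖y‖ • (‖y‖⁻¹ • y - z k) := by
          rw [smul_sub, smul_smul, mul_inv_cancel₀ hy'.ne', one_smul]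
        rw [h1, h2, norm_smul, norm_norm]
        calc ‖y‖ * ‖‖y‖⁻¹ • y - z k‖ ≤ ‖y‖ * (1 / 2) :=
              mul_le_mul_of_nonneg_left hk hy'.le
          _ = ‖y‖ / 2 := by ring
  choose h hh1 hh2 using happ
  let g : G → G := fun y => y - A (h y)
  have hg : ∀ n, ‖g^[n] y‖ ≤ (1 / 2) ^ n * ‖y‖ := by
    intro n
    induction n with
    | zero => simp
    | succ n ih =>
      rw [Function.iterate_succ_apply']
      calc ‖g (g^[n] y)‖ ≤ ‖g^[n] y‖ / 2 := hh2 _
        _ ≤ ((1 / 2) ^ n * ‖y‖) / 2 := by gcongr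
        _ = (1 / 2) ^ (n + 1) * ‖y‖ := by ring
  let u : ℕ → L1n (m + 1) := fun n => h (g^[n] y)
  have hu : ∀ n, ‖u n‖ ≤ (1 / 2) ^ n * ‖y‖ := fun n => (hh1 _).trans (hg n)
  have hgeo : HasSum (fun n : ℕ => (1 / 2 : ℝ) ^ n * ‖y‖) (2 * ‖y‖) :=
    hasSum_geometric_two.mul_right _
  have hsum : Summable u := Summable.of_norm_bounded hgeo.summable hu
  let x := ∑' n, u n
  have hx : HasSum u x := hsum.hasSum
  have hAc : Continuous A := LinearMap.continuous_of_finiteDimensional A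
  have hAx : HasSum (fun n => A (u n)) (A x) := hx.map A hAc
  have h1 : ∀ N, ∑ n ∈ Finset.range N, A (u n) = y - g^[N] y := by
    intro N
    induction N with
    | zero => simp
    | succ N ih =>
      rw [Finset.sum_range_succ, ih, Function.iterate_succ_apply']
      change y - g^[N] y + A (h (g^[N] y)) = y - (g^[N] y - A (h (g^[N] y)))
      abel
  have h2 : Tendsto (fun N => ∑ n ∈ Finset.range N, A (u n)) atTop (𝓝 y) := by
    simp only [h1]
    have h3 : Tendsto (fun N => g^[N] y) atTop (𝓝 0) := by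
      apply squeeze_zero_norm hg
      have := (tendsto_pow_atTop_nhds_zero_of_lt_one (show (0 : ℝ) ≤ 1 / 2 by norm_num)
        (by norm_num)).mul_const ‖y‖
      simpa using this
    have := (tendsto_const_nhds (x := y)).sub h3
    simpa using this
  refine ⟨x, tendsto_nhds_unique hAx.tendsto_sum_nat h2, ?_⟩
  exact tsum_of_norm_bounded hgeo hu

/-- `Lip₀` of a finite-dimensional space is uniformly complemented in `Lip₀(ℓ₁^m)` for some `m`. -/
theorem lip_uc_l1n : ∃ m : ℕ, UC 36 (Lip0 G) (Lip0 (L1n m)) := by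
  obtain ⟨m, A, hA1, hA2⟩ := exists_l1_quotient G
  choose σ hσ1 hσ2 using hA2
  have he : ‖(PiLp.single 1 0 (1 : ℝ) : L1n (m + 1))‖ = 1 := by
    rw [PiLp.norm_single, norm_one]
  have h := transfer_uc (X := L1n (m + 1)) (Y := G) (PiLp.single 1 0 (1 : ℝ)) he 2 (by norm_num)
    (fun _ => A) (fun _ x => (hA1 x).trans (by linarith [norm_nonneg x])) (fun _ => σ)
    (fun _ => hσ1 0) (fun y => by simp only [hσ1]; exact tendsto_const_nhds)
    (fun _ y y' ε hε => ⟨σ (y - y') - (σ y - σ y'), by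
      rw [map_sub, map_sub, hσ1, hσ1, hσ1, sub_self], by
      rw [add_sub_cancel]
      linarith [hσ2 (y - y')]⟩)
  norm_num at h
  exact ⟨m + 1, h⟩

end quotient

end Pool.Agent.Helper93
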