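import Mathlib
import Pool.Agent.Helper93.GlueGen

/-!
# Density character and separated families of unit vectors
-/

set_option autoImplicit false

namespace Pool.Agent.Helper93

open Filter Topology Cardinal
open scoped ENNReal

universe u

/-- The density character of a topological space: the least cardinality of a dense subset. -/
noncomputable def dens (X : Type u) [TopologicalSpace X] : Cardinal.{u} :=
  sInf {c | ∃ D : Set X, Dense D ∧ Cardinal.mk D = c}

lemma dens_le {X : Type u} [TopologicalSpace X] {D : Set X} (hD : Dense D) : dens X ≤ #D :=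
  csInf_le' ⟨D, hD, rfl⟩

lemma exists_dense_card_eq (X : Type u) [TopologicalSpace X] :
    ∃ D : Set X, Dense D ∧ #D = dens X :=
  csInf_mem (s := {c | ∃ D : Set X, Dense D ∧ Cardinal.mk D = c}) ⟨_, Set.univ, dense_univ, rfl⟩

variable {E : Type u} [NormedAddCommGroup E] [NormedSpace ℝ E]

/-- a maximal `1/2`-separated subset of the unit sphere -/
lemma exists_maximal_sep (E : Type u) [NormedAddCommGroup E] [NormedSpace ℝ E] :
    ∃ S : Set E, (∀ x ∈ S, ‖x‖ = 1) ∧ (∀ x ∈ S, ∀ y ∈ S, x ≠ y → 1 / 2 ≤ ‖x - y‖) ∧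
      ∀ z : E, ‖z‖ = 1 → (∀ x ∈ S, 1 / 2 ≤ ‖z - x‖) → z ∈ S := by
  obtain ⟨S, hS⟩ := zorn_subset
    {S : Set E | (∀ x ∈ S, ‖x‖ = 1) ∧ ∀ x ∈ S, ∀ y ∈ S, x ≠ y → 1 / 2 ≤ ‖x - y‖} (by
      intro c hc hchain
      refine ⟨⋃₀ c, ⟨?_, ?_⟩, fun s hs => Set.subset_sUnion_of_mem hs⟩
      · rintro x ⟨s, hs, hx⟩
        exact (hc hs).1 x hx
      · rintro x ⟨s, hs, hx⟩ y ⟨t, ht, hy⟩ hxy
        rcases hchain.total hs ht with h | h
        · exact (hc ht).2 x (h hx) y hy hxy
        · exact (hc hs).2 x hx y (h hy) hxy)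
  refine ⟨S, hS.prop.1, hS.prop.2, fun z hz hzS => ?_⟩
  have h1 : insert z S ∈ {S : Set E | (∀ x ∈ S, ‖x‖ = 1) ∧
      ∀ x ∈ S, ∀ y ∈ S, x ≠ y → 1 / 2 ≤ ‖x - y‖} := by
    refine ⟨?_, ?_⟩
    · rintro x (rfl | hx)
      · exact hz
      · exact hS.prop.1 x hx
    · rintro x (rfl | hx) y (rfl | hy) hxy
      · exact absurd rfl hxy
      · exact hzS y hy
      · rw [norm_sub_rev]; exact hzS x hx
      · exact hS.prop.2 x hx y hy hxy
  exact hS.le_of_ge h1 (Set.subset_insert z S) (Set.mem_insert z S)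

lemma dense_span_of_maximal {S : Set E}
    (hS : ∀ z : E, ‖z‖ = 1 → (∀ x ∈ S, 1 / 2 ≤ ‖z - x‖) → z ∈ S) :
    (Submodule.span ℝ S).topologicalClosure = ⊤ := by
  by_contra hne
  have h1 : ∃ x : E, x ∉ (Submodule.span ℝ S).topologicalClosure := by
    by_contra h
    push Not at h
    exact hne (eq_top_iff.mpr fun x _ => h x)
  obtain ⟨z, hz1, hz2, hz3⟩ := riesz_lemma_of_lt_one (𝕜 := ℝ)
    (Submodule.isClosed_topologicalClosure _) h1 (show (1 / 2 : ℝ) < 1 by norm_num)
  have h2 : ∀ x ∈ S, x ∈ (Submodule.span ℝ S).topologicalClosure := fun x hx =>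
    (Submodule.le_topologicalClosure _) (Submodule.subset_span hx)
  exact hz1 (h2 z (hS z hz2 fun x hx => hz3 x (h2 x hx)))

/-- rational combinations of elements of `S` -/
noncomputable def ratComb (S : Set E) (c : S →₀ ℚ) : E := c.sum fun s q => (q : ℝ) • (s : E)

lemma dense_range_ratComb {S : Set E} (hS : (Submodule.span ℝ S).topologicalClosure = ⊤) :
    Dense (Set.range (ratComb S)) := by
  classical
  have hadd : ∀ c d : S →₀ ℚ, ratComb S (c + d) = ratComb S c + ratComb S d := by
    intro c d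
    unfold ratComb
    rw [Finsupp.sum_add_index']
    · intro s; simp
    · intro s a b; push_cast; rw [add_smul]
  have hsmul : ∀ (q : ℚ) (c : S →₀ ℚ), ratComb S (q • c) = (q : ℝ) • ratComb S c := by
    intro q c
    unfold ratComb
    rw [Finsupp.sum_smul_index' (fun s => by simp), Finsupp.smul_sum]
    apply Finsupp.sum_congr
    intro s _
    rw [smul_smul]
    simp
  -- the closure is a subspace
  let W : Submodule ℝ E :=
    { carrier := closure (Set.range (ratComb S))
      zero_mem' := subset_closure ⟨0, by simp [ratComb]⟩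
      add_mem' := by
        intro a b ha hb
        refine map_mem_closure₂ continuous_add ha hb ?_
        rintro _ ⟨c, rfl⟩ _ ⟨d, rfl⟩
        exact ⟨c + d, hadd c d⟩
      smul_mem' := by
        intro r x hx
        have hr : r ∈ closure (Set.range ((↑) : ℚ → ℝ)) := Rat.denseRange_cast r
        refine map_mem_closure₂ continuous_smul hr hx ?_
        rintro _ ⟨q, rfl⟩ _ ⟨c, rfl⟩
        exact ⟨q • c, hsmul q c⟩ }
  have hSW : S ⊆ W := by
    intro s hs
    apply subset_closure
    refine ⟨Finsupp.single ⟨s, hs⟩ 1, ?_⟩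
    simp [ratComb]
  have h1 : Submodule.span ℝ S ≤ W := Submodule.span_le.mpr hSW
  have hW : IsClosed (W : Set E) := isClosed_closure
  have h2 : (Submodule.span ℝ S).topologicalClosure ≤ W :=
    Submodule.topologicalClosure_minimal _ h1 hW
  intro x
  have : x ∈ (Submodule.span ℝ S).topologicalClosure := by rw [hS]; trivial
  exact h2 this

/-- In an infinite-dimensional normed space there is a `1/2`-separated family of unit vectors
whose cardinality is at least the density character. -/
theorem exists_sep_card_ge (hE : ¬ FiniteDimensional ℝ E) :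
    ∃ S : Set E, (∀ x ∈ S, ‖x‖ = 1) ∧ (∀ x ∈ S, ∀ y ∈ S, x ≠ y → 1 / 2 ≤ ‖x - y‖) ∧
      ℵ₀ ≤ #S ∧ dens E ≤ #S := by
  obtain ⟨S, hS1, hS2, hS3⟩ := exists_maximal_sep E
  have hd := dense_span_of_maximal hS3
  have hinf : S.Infinite := by
    intro hfin
    apply hE
    have : FiniteDimensional ℝ (Submodule.span ℝ S) := FiniteDimensional.span_of_finite ℝ hfin
    have h2 : Submodule.span ℝ S = ⊤ := by
      rw [← hd]
      exact ((Submodule.span ℝ S).closed_of_finiteDimensional.submodule_topologicalClosure_eq).symm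
    rw [h2] at this
    exact Module.Finite.of_surjective (Submodule.topEquiv (R := ℝ) (M := E)).toLinearMap
      (Submodule.topEquiv (R := ℝ) (M := E)).surjective
  have hinf' : Infinite S := hinf.to_subtype
  refine ⟨S, hS1, hS2, Cardinal.aleph0_le_mk S, ?_⟩
  calc dens E ≤ #(Set.range (ratComb S)) := dens_le (dense_range_ratComb hd)
    _ ≤ #(S →₀ ℚ) := Cardinal.mk_range_le
    _ = #S := by
        rw [Cardinal.mk_finsupp_lift_of_infinite]
        simp

/-- The `ℓ_∞`-sum of `K` copies of `Lip₀(E)` is complemented in `Lip₀(E)` whenever `#K` is at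
most the density character of `E`. -/
theorem linf_ce (hE : ¬ FiniteDimensional ℝ E) (K : Type u) (hK : #K ≤ dens E) :
    CE (lp (fun _ : K => Lip0 E) ∞) (Lip0 E) := by
  obtain ⟨S, hS1, hS2, hS3, hS4⟩ := exists_sep_card_ge hE
  have h1 : #(K × ℕ) ≤ #S := by
    rw [Cardinal.mk_prod, Cardinal.lift_id', Cardinal.mk_nat]
    simp only [Cardinal.lift_aleph0]
    exact (Cardinal.mul_le_max_of_aleph0_le_right le_rfl).trans (max_le (hK.trans hS4) hS3)
  obtain ⟨f⟩ : Nonempty (K × ℕ ↪ S) := h1
  refine linf_ce_of_sepFam (c := fun p => (f p : E)) (r := 1 / 16) ⟨by norm_num, ?_, ?_⟩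
  · intro i j x hi hj
    by_contra hij
    have h2 : (f i : E) ≠ f j := fun h => hij (f.injective (Subtype.ext h))
    have h3 := hS2 _ (f i).2 _ (f j).2 h2
    have h4 : ‖(f i : E) - f j‖ ≤ ‖x - f i‖ + ‖x - f j‖ := by
      have : (f i : E) - f j = (x - f j) - (x - f i) := by abel
      rw [this, add_comm]
      exact norm_sub_le _ _
    linarith
  · intro i
    rw [hS1 _ (f i).2]
    norm_num

end Pool.Agent.Helper93
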