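import Mathlib
import Pool.Agent.Helper93.SepVec

/-!
# Local determination

If `Lip₀` of every finite-dimensional subspace of `Y` is uniformly complemented in `Lip₀(E)`,
then `Lip₀(Y)` is complemented in an `ℓ_∞`-sum of copies of `Lip₀(E)`.
-/

set_option autoImplicit false

namespace Pool.Agent.Helper93

open Filter Topology Cardinal
open scoped ENNReal

universe u

/-- restriction of Lipschitz functions to a subspace -/
noncomputable def resV {Y : Type*} [NormedAddCommGroup Y] [NormedSpace ℝ Y]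
    (V : Submodule ℝ Y) : Lip0 Y →ₗ[ℝ] Lip0 V where
  toFun f := Lip0.mk' (fun y => f (y : Y)) (by simp) ‖f‖ (fun x y => f.abs_sub_le x y)
  map_add' f g := rfl
  map_smul' c f := rfl

lemma resV_apply {Y : Type*} [NormedAddCommGroup Y] [NormedSpace ℝ Y]
    (V : Submodule ℝ Y) (f : Lip0 Y) (y : V) : resV V f y = f (y : Y) := rfl

lemma resV_norm_le {Y : Type*} [NormedAddCommGroup Y] [NormedSpace ℝ Y]
    (V : Submodule ℝ Y) (f : Lip0 Y) : ‖resV V f‖ ≤ ‖f‖ :=
  Lip0.norm_le_of_forall (norm_nonneg _) (fun x y => f.abs_sub_le x y)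

section approx

variable {Y : Type u} [NormedAddCommGroup Y] [NormedSpace ℝ Y] (D : Set Y)

/-- the finite-dimensional subspace spanned by a finite subset of `D` -/
def spanF (i : Finset D) : Submodule ℝ Y := Submodule.span ℝ (Subtype.val '' (i : Set D))

instance (i : Finset D) : FiniteDimensional ℝ (spanF D i) :=
  FiniteDimensional.span_of_finite ℝ ((Finset.finite_toSet i).image _)

open Classical in
lemma exists_approx (i : Finset D) (y : Y) : ∃ v : spanF D i, dist (v : Y) y ≤ dist 0 y ∧
    ∀ d ∈ i, dist (v : Y) y ≤ dist (d : Y) y := by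
  obtain ⟨v, hv, hmin⟩ := Finset.exists_min_image (insert (0 : Y) (i.image Subtype.val))
    (fun v => dist v y) ⟨0, Finset.mem_insert_self _ _⟩
  have hv' : v ∈ spanF D i := by
    rcases Finset.mem_insert.mp hv with rfl | h
    · exact Submodule.zero_mem _
    · obtain ⟨d, hd, rfl⟩ := Finset.mem_image.mp h
      exact Submodule.subset_span ⟨d, hd, rfl⟩
  refine ⟨⟨v, hv'⟩, hmin 0 (Finset.mem_insert_self _ _), fun d hd => hmin _ ?_⟩
  exact Finset.mem_insert_of_mem (Finset.mem_image_of_mem _ hd)

/-- approximations of `y` in the subspaces -/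
noncomputable def apx (i : Finset D) (y : Y) : spanF D i := (exists_approx D i y).choose

lemma apx_norm_le (i : Finset D) (y : Y) : ‖(apx D i y : Y)‖ ≤ 2 * ‖y‖ := by
  have h : dist (apx D i y : Y) y ≤ dist 0 y := (exists_approx D i y).choose_spec.1
  rw [dist_zero_left] at h
  have h2 : ‖(apx D i y : Y)‖ ≤ dist (apx D i y : Y) y + ‖y‖ := by
    rw [dist_eq_norm]
    calc ‖(apx D i y : Y)‖ = ‖((apx D i y : Y) - y) + y‖ := by rw [sub_add_cancel]
      _ ≤ _ := norm_add_le _ _
  have h3 : dist (apx D i y : Y) y ≤ ‖y‖ := h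
  linarith

lemma apx_tendsto (hD : Dense D) (y : Y) :
    Tendsto (fun i : Finset D => (apx D i y : Y)) atTop (𝓝 y) := by
  rw [Metric.tendsto_nhds]
  intro ε hε
  obtain ⟨d, hd, hdy⟩ := Metric.dense_iff.mp hD y ε hε
  filter_upwards [eventually_ge_atTop ({⟨d, hdy⟩} : Finset D)] with i hi
  have h1 : (⟨d, hdy⟩ : D) ∈ i := hi (Finset.mem_singleton_self _)
  have h2 := (exists_approx D i y).choose_spec.2 _ h1
  exact lt_of_le_of_lt h2 (Metric.mem_ball.mp hd)

end approx

lemma finset_neBot (D : Type*) : (atTop : Filter (Finset D)).NeBot := by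
  classical
  infer_instance

/-- an ultrafilter on finite subsets refining `atTop` -/
noncomputable def finUltra (D : Type*) : Ultrafilter (Finset D) :=
  @Ultrafilter.of _ atTop (finset_neBot D)

lemma finUltra_le (D : Type*) : (finUltra D : Filter (Finset D)) ≤ atTop :=
  @Ultrafilter.of_le _ atTop (finset_neBot D)

lemma abs_ulim_le_of_tendsto {I : Type*} (U : Ultrafilter I) {f h : I → ℝ} {L : ℝ} (hf : Bdd f)
    (h1 : ∀ i, |f i| ≤ h i) (h2 : Tendsto h U (𝓝 L)) : |ulim U f| ≤ L :=
  le_of_tendsto_of_tendsto (tendsto_ulim U hf).abs h2 (Eventually.of_forall h1)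

theorem local_ce {Y : Type u} [NormedAddCommGroup Y] [NormedSpace ℝ Y]
    {E : Type*} [NormedAddCommGroup E] [NormedSpace ℝ E] (D : Set Y) (hD : Dense D)
    (C : ℝ) (hC : 0 ≤ C)
    (hloc : ∀ V : Submodule ℝ Y, FiniteDimensional ℝ V → UC C (Lip0 V) (Lip0 E)) :
    CE (Lip0 Y) (lp (fun _ : Finset D => Lip0 E) ∞) := by
  choose T S hTS hT hS using fun i : Finset D => hloc (spanF D i) inferInstance
  let T0 : ∀ i : Finset D, Lip0 Y →ₗ[ℝ] Lip0 E := fun i =>
    (T i : Lip0 (spanF D i) →ₗ[ℝ] Lip0 E).comp (resV (spanF D i))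
  have hT0 : ∀ i f, ‖T0 i f‖ ≤ C * ‖f‖ := fun i f =>
    ((T i).le_opNorm _).trans (mul_le_mul (hT i) (resV_norm_le _ f) (norm_nonneg _) hC)
  let s : lp (fun _ : Finset D => Lip0 E) ∞ → Y → Finset D → ℝ := fun g y i =>
    S i (g i) (apx D i y)
  have hSg : ∀ (g : lp (fun _ : Finset D => Lip0 E) ∞) i, ‖S i (g i)‖ ≤ C * ‖g‖ := fun g i =>
    ((S i).le_opNorm _).trans (mul_le_mul (hS i) (linf_norm_apply_le g i) (norm_nonneg _) hC)
  have hsb : ∀ g y, Bdd (s g y) := by
    intro g y
    refine ⟨C * ‖g‖ * (2 * ‖y‖), fun i => ?_⟩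
    have h1 := (S i (g i)).abs_le (apx D i y)
    rw [dist_zero_right] at h1
    refine h1.trans (mul_le_mul (hSg g i) (apx_norm_le D i y) (norm_nonneg _) (by positivity))
  have hsub : ∀ g y y', |ulim (finUltra D) (s g y) - ulim (finUltra D) (s g y')|
      ≤ (C * ‖g‖) * dist y y' := by
    intro g y y'
    rw [← ulim_sub _ (hsb g y) (hsb g y')]
    refine abs_ulim_le_of_tendsto (finUltra D) ((hsb g y).sub (hsb g y'))
      (h := fun i => (C * ‖g‖) * dist (apx D i y : Y) (apx D i y' : Y)) ?_ ?_
    · intro i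
      refine ((S i (g i)).abs_sub_le _ _).trans ?_
      exact mul_le_mul_of_nonneg_right (hSg g i) dist_nonneg
    · exact (((apx_tendsto D hD y).dist (apx_tendsto D hD y')).const_mul _).mono_left
        (finUltra_le D)
  have hs0 : ∀ g, ulim (finUltra D) (s g 0) = 0 := by
    intro g
    apply ulim_eq
    have h1 : s g 0 = fun _ => 0 := by
      ext i
      have h2 : apx D i (0 : Y) = 0 := by
        have := apx_norm_le D i (0 : Y)
        rw [norm_zero, mul_zero] at this
        exact Subtype.ext (norm_le_zero_iff.mp this)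
      simp only [s, h2, Lip0.map_zero]
    rw [h1]
    exact tendsto_const_nhds
  let S0 : lp (fun _ : Finset D => Lip0 E) ∞ →ₗ[ℝ] Lip0 Y :=
    { toFun := fun g => Lip0.mk' (fun y => ulim (finUltra D) (s g y)) (hs0 g) (C * ‖g‖) (hsub g)
      map_add' := by
        intro f g
        apply Lip0.ext'
        intro y
        simp only [Lip0.mk'_apply, Lip0.add_apply]
        rw [← ulim_add _ (hsb f y) (hsb g y)]
        congr 1
        ext i
        simp only [s, lp.coeFn_add, Pi.add_apply, map_add, Lip0.add_apply]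
      map_smul' := by
        intro c f
        apply Lip0.ext'
        intro y
        simp only [Lip0.mk'_apply, Lip0.smul_apply, RingHom.id_apply]
        rw [← ulim_smul _ c (hsb f y)]
        congr 1
        ext i
        simp only [s, lp.coeFn_smul, Pi.smul_apply, map_smul, Lip0.smul_apply] }
  refine ⟨linfPi T0 C hC hT0, S0.mkContinuous C (fun g =>
    Lip0.norm_le_of_forall (by positivity) (hsub g)), fun f => ?_⟩
  apply Lip0.ext'
  intro y
  change ulim (finUltra D) (s (linfPi T0 C hC hT0 f) y) = f y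
  have h1 : s (linfPi T0 C hC hT0 f) y = fun i => f (apx D i y : Y) := by
    ext i
    change S i (T i (resV (spanF D i) f)) (apx D i y) = _
    rw [hTS, resV_apply]
  rw [h1]
  apply ulim_eq
  obtain ⟨K, hK⟩ := f.lipschitz'
  exact ((hK.continuous.tendsto y).comp (apx_tendsto D hD y)).mono_left (finUltra_le D)

/-- If `Lip₀` of every finite-dimensional subspace of `Y` is uniformly complemented in `Lip₀(E)`
and `dens Y ≤ dens E`, then `Lip₀(Y)` is complemented in `Lip₀(E)`. -/
theorem ce_of_local {Y E : Type u} [NormedAddCommGroup Y] [NormedSpace ℝ Y]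
    [NormedAddCommGroup E] [NormedSpace ℝ E] (hE : ¬ FiniteDimensional ℝ E)
    (hYE : dens Y ≤ dens E) (C : ℝ) (hC : 0 ≤ C)
    (hloc : ∀ V : Submodule ℝ Y, FiniteDimensional ℝ V → UC C (Lip0 V) (Lip0 E)) :
    CE (Lip0 Y) (Lip0 E) := by
  obtain ⟨D, hD, hDc⟩ := exists_dense_card_eq Y
  refine (local_ce D hD C hC hloc).trans (linf_ce hE (Finset D) ?_)
  have hinf : ℵ₀ ≤ dens E := by
    obtain ⟨D', hD', hDc'⟩ := exists_dense_card_eq E
    rw [← hDc']
    by_contra h
    push Not at h
    rw [Cardinal.lt_aleph0_iff_set_finite] at h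
    have h1 : D' = Set.univ := by
      have := h.isClosed.closure_eq
      rw [← this, hD'.closure_eq]
    rw [h1] at h
    have : Finite E := Set.finite_univ_iff.mp h
    exact hE inferInstance
  by_cases h : Finite D
  · have h2 : #(Finset D) < ℵ₀ := Cardinal.mk_lt_aleph0
    exact h2.le.trans hinf
  · have : Infinite D := not_finite_iff_infinite.mp h
    rw [Cardinal.mk_finset_of_infinite, hDc]
    exact hYE

end Pool.Agent.Helper93
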