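import Mathlib
import Pool.Agent.Helper93.LocalDet
import Pool.Agent.Helper93.L1Quot

/-!
# Facts on the spaces `ℓ_p(κ)`
-/

set_option autoImplicit false

namespace Pool.Agent.Helper93

open Filter Topology Cardinal
open scoped ENNReal

universe u

section

variable (p : ℝ≥0∞) [hp1 : Fact (1 ≤ p)]

lemma toReal_pos_of (hp : p ≠ ∞) : 0 < p.toReal :=
  ENNReal.toReal_pos (zero_lt_one.trans_le hp1.out).ne' hp

/-- `ℓ_p^n` is `1`-complemented in `ℓ_p(ι)` -/
theorem piLp_uc_lp (hp : p ≠ ∞) {ι : Type*} {n : ℕ} (e : Fin n ↪ ι) :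
    UC 1 (PiLp p (fun _ : Fin n => ℝ)) (lp (fun _ : ι => ℝ) p) := by
  classical
  have hpr := toReal_pos_of p hp
  let T0 : PiLp p (fun _ : Fin n => ℝ) →ₗ[ℝ] lp (fun _ : ι => ℝ) p :=
    { toFun := fun x => ∑ k, lp.single p (e k) (x k)
      map_add' := fun x y => by
        rw [← Finset.sum_add_distrib]
        refine Finset.sum_congr rfl fun k _ => ?_
        rw [← lp.single_add]
        rfl
      map_smul' := fun c x => by
        rw [RingHom.id_apply, Finset.smul_sum]
        refine Finset.sum_congr rfl fun k _ => ?_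
        rw [← lp.single_smul]
        rfl }
  have hT0 : ∀ x, T0 x = ∑ k, lp.single p (e k) (x k) := fun x => rfl
  have hTn : ∀ x, ‖T0 x‖ = ‖x‖ := by
    intro x
    let f : ι → ℝ := Function.extend e (fun k => x k) 0
    have hf : ∀ k, f (e k) = x k := fun k => e.injective.extend_apply _ _ _
    have h1 := lp.norm_sum_single (E := fun _ : ι => ℝ) hpr f (Finset.univ.map e)
    rw [Finset.sum_map, Finset.sum_map] at h1
    simp only [hf] at h1
    have h2 : ‖x‖ ^ p.toReal = ∑ k, ‖x k‖ ^ p.toReal := by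
      rw [PiLp.norm_eq_sum hpr, ← Real.rpow_mul (by positivity), one_div,
        inv_mul_cancel₀ hpr.ne', Real.rpow_one]
    rw [← hT0, ← h2] at h1
    exact Real.rpow_left_injOn hpr.ne' (norm_nonneg _) (norm_nonneg _) h1
  let S0 : lp (fun _ : ι => ℝ) p →ₗ[ℝ] PiLp p (fun _ : Fin n => ℝ) :=
    { toFun := fun f => WithLp.toLp p (fun k => f (e k))
      map_add' := fun x y => rfl
      map_smul' := fun c x => rfl }
  have hSn : ∀ f, ‖S0 f‖ ≤ 1 * ‖f‖ := by
    intro f
    rw [one_mul]
    have h1 := lp.sum_rpow_le_norm_rpow hpr f (Finset.univ.map e)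
    rw [Finset.sum_map] at h1
    have h2 : ‖S0 f‖ ^ p.toReal = ∑ k, ‖f (e k)‖ ^ p.toReal := by
      rw [PiLp.norm_eq_sum hpr, ← Real.rpow_mul (by positivity), one_div,
        inv_mul_cancel₀ hpr.ne', Real.rpow_one]
      rfl
    rw [← h2] at h1
    exact (Real.rpow_le_rpow_iff (norm_nonneg _) (norm_nonneg _) hpr).mp h1
  refine ⟨T0.mkContinuous 1 (fun x => by rw [hTn, one_mul]), S0.mkContinuous 1 hSn, ?_,
    LinearMap.mkContinuous_norm_le _ zero_le_one _, LinearMap.mkContinuous_norm_le _ zero_le_one _⟩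
  intro x
  ext k
  change (T0 x) (e k) = x k
  rw [hT0, lp.coeFn_sum, Finset.sum_apply, Finset.sum_eq_single k]
  · exact lp.single_apply_self (E := fun _ : ι => ℝ) p (e k) (x k)
  · intro j _ hj
    exact lp.single_apply_ne (E := fun _ : ι => ℝ) p (e j) (x j)
      (fun h => hj (e.injective h).symm)
  · intro h
    exact absurd (Finset.mem_univ k) h

end

/-- lower bound for the density character from a separated family -/
lemma le_dens_of_sep {X : Type u} [PseudoMetricSpace X] {K : Type u} (c : K → X) {r : ℝ}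
    (hr : 0 < r) (hc : ∀ i j, i ≠ j → r ≤ dist (c i) (c j)) : #K ≤ dens X := by
  obtain ⟨D, hD, hDc⟩ := exists_dense_card_eq X
  have h1 : ∀ k, ∃ d : D, dist (c k) d < r / 2 := by
    intro k
    obtain ⟨d, hd, hdD⟩ := Metric.dense_iff.mp hD (c k) (r / 2) (by linarith)
    exact ⟨⟨d, hdD⟩, by rw [dist_comm]; exact hd⟩
  choose f hf using h1
  rw [← hDc]
  refine Cardinal.mk_le_of_injective (f := f) ?_
  intro i j hij
  by_contra hne
  have h2 := hc i j hne
  have h3 := hf i
  have h4 := hf j
  rw [← hij] at h4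
  have h5 := dist_triangle_right (c i) (c j) (f i : X)
  linarith

section

variable (p : ℝ≥0∞) [hp1 : Fact (1 ≤ p)] (K : Type u) [Infinite K]

open Classical in
theorem dens_lp (hp : p ≠ ∞) : dens (lp (fun _ : K => ℝ) p) = #K := by
  have hp0 : 0 < p := zero_lt_one.trans_le hp1.out
  apply le_antisymm
  · let S : Set (lp (fun _ : K => ℝ) p) :=
      Set.range (fun k => lp.single (E := fun _ : K => ℝ) p k (1 : ℝ))
    have hS : (Submodule.span ℝ S).topologicalClosure = ⊤ := by
      rw [eq_top_iff]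
      intro f _
      have h1 := lp.hasSum_single hp f
      have h2 : ∀ k, lp.single (E := fun _ : K => ℝ) p k (f k) ∈ Submodule.span ℝ S := by
        intro k
        have : lp.single (E := fun _ : K => ℝ) p k (f k)
            = f k • lp.single (E := fun _ : K => ℝ) p k (1 : ℝ) := by
          rw [← lp.single_smul, smul_eq_mul, mul_one]
        rw [this]
        exact Submodule.smul_mem _ _ (Submodule.subset_span ⟨k, rfl⟩)
      exact mem_closure_of_tendsto h1
        (Eventually.of_forall fun s => Submodule.sum_mem _ fun k _ => h2 k)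
    calc dens (lp (fun _ : K => ℝ) p) ≤ #(Set.range (ratComb S)) := dens_le (dense_range_ratComb hS)
      _ ≤ #(S →₀ ℚ) := Cardinal.mk_range_le
      _ ≤ #K := by
        have h3 : #S ≤ #K := Cardinal.mk_range_le
        by_cases hfin : Finite S
        · have : Nonempty S := ⟨⟨_, Classical.arbitrary K, rfl⟩⟩
          rw [Cardinal.mk_finsupp_lift_of_infinite']
          simp only [Cardinal.mk_eq_aleph0, Cardinal.lift_aleph0]
          exact max_le (by simpa using h3) (Cardinal.aleph0_le_mk K)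
        · have : Infinite S := not_finite_iff_infinite.mp hfin
          rw [Cardinal.mk_finsupp_lift_of_infinite]
          simp only [Cardinal.mk_eq_aleph0, Cardinal.lift_aleph0]
          exact max_le (by simpa using h3) (Cardinal.aleph0_le_mk K)
  · refine le_dens_of_sep (fun k => lp.single (E := fun _ : K => ℝ) p k (1 : ℝ)) zero_lt_one ?_
    intro i j hij
    rw [dist_eq_norm]
    have h1 := lp.norm_apply_le_norm hp0.ne'
      (lp.single (E := fun _ : K => ℝ) p i (1 : ℝ) - lp.single (E := fun _ : K => ℝ) p j (1 : ℝ)) i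
    rw [lp.coeFn_sub, Pi.sub_apply, lp.single_apply_self, lp.single_apply_ne _ _ _ hij, sub_zero,
      norm_one] at h1
    exact h1

end

lemma dens_lt_aleph0_iff_aux {E : Type u} [NormedAddCommGroup E] [NormedSpace ℝ E]
    (hE : ¬ FiniteDimensional ℝ E) : ℵ₀ ≤ dens E := by
  obtain ⟨D', hD', hDc'⟩ := exists_dense_card_eq E
  rw [← hDc']
  by_contra h
  push Not at h
  rw [Cardinal.lt_aleph0_iff_set_finite] at h
  have h1 : D' = Set.univ := by
    have := h.isClosed.closure_eq
    rw [← this, hD'.closure_eq]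
  rw [h1] at h
  have : Finite E := Set.finite_univ_iff.mp h
  exact hE inferInstance

/-- the density character of an infinite-dimensional separable normed space is `ℵ₀` -/
lemma dens_eq_aleph0 {E : Type u} [NormedAddCommGroup E] [NormedSpace ℝ E]
    [TopologicalSpace.SeparableSpace E] (hE : ¬ FiniteDimensional ℝ E) : dens E = ℵ₀ := by
  apply le_antisymm _ (dens_lt_aleph0_iff_aux hE)
  obtain ⟨D, hDc, hD⟩ := TopologicalSpace.exists_countable_dense E
  exact (dens_le hD).trans (Cardinal.mk_le_aleph0_iff.mpr hDc.to_subtype)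

/-- `ℓ_p(κ)` is infinite-dimensional -/
lemma lp_not_finiteDimensional (p : ℝ≥0∞) [hp1 : Fact (1 ≤ p)] (hp : p ≠ ∞) (K : Type*)
    [Infinite K] : ¬ FiniteDimensional ℝ (lp (fun _ : K => ℝ) p) := by
  intro h
  have hle : ∀ n : ℕ, n ≤ Module.finrank ℝ (lp (fun _ : K => ℝ) p) := by
    intro n
    obtain ⟨e⟩ : Nonempty (Fin n ↪ K) := ⟨(Function.Embedding.trans Fin.valEmbedding
      (Infinite.natEmbedding K))⟩
    obtain ⟨T, S, hTS, -, -⟩ := piLp_uc_lp p hp e
    have hinj : Function.Injective T := fun a b hab => by rw [← hTS a, ← hTS b, hab]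
    have := LinearMap.finrank_le_finrank_of_injective
      (f := (T : PiLp p (fun _ : Fin n => ℝ) →ₗ[ℝ] lp (fun _ : K => ℝ) p)) hinj
    have h2 : Module.finrank ℝ (PiLp p (fun _ : Fin n => ℝ)) = n := by
      rw [(WithLp.linearEquiv p ℝ (Fin n → ℝ)).finrank_eq]
      simp
    rwa [h2] at this
  have := hle (Module.finrank ℝ (lp (fun _ : K => ℝ) p) + 1)
  omega

/-- `ℓ_p(ℕ)` is separable -/
lemma lp_separable (p : ℝ≥0∞) [hp1 : Fact (1 ≤ p)] (hp : p ≠ ∞) :
    TopologicalSpace.SeparableSpace (lp (fun _ : ℕ => ℝ) p) := by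
  have h := dens_lp p ℕ hp
  obtain ⟨D, hD, hDc⟩ := exists_dense_card_eq (lp (fun _ : ℕ => ℝ) p)
  rw [h, Cardinal.mk_nat] at hDc
  exact ⟨⟨D, Cardinal.le_aleph0_iff_set_countable.mp hDc.le, hD⟩⟩

end Pool.Agent.Helper93
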