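import Mathlib
import Pool.Agent.Helper93.LpFacts

/-!
# Finite rank approximation of the identity of `Lip₀(ℓ₁^n)`
-/

set_option autoImplicit false

namespace Pool.Agent.Helper93

open Filter Topology
open scoped ENNReal

/-- sum of shifted integer quotients -/
lemma sum_shift_div (M : ℕ) (hM : 0 < M) (k : ℤ) :
    ∑ i ∈ Finset.range M, (k + i) / (M : ℤ) = k := by
  have hM' : (M : ℤ) ≠ 0 := by exact_mod_cast hM.ne'
  have h0 : ∑ i ∈ Finset.range M, ((0 : ℤ) + i) / (M : ℤ) = 0 := by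
    apply Finset.sum_eq_zero
    intro i hi
    rw [Finset.mem_range] at hi
    rw [zero_add]
    exact Int.ediv_eq_zero_of_lt (by positivity) (by exact_mod_cast hi)
  have hstep : ∀ k : ℤ, ∑ i ∈ Finset.range M, ((k + 1) + i) / (M : ℤ)
      = ∑ i ∈ Finset.range M, (k + i) / (M : ℤ) + 1 := by
    intro k
    have h1 : ∑ i ∈ Finset.range M, ((k + 1) + i) / (M : ℤ)
        = ∑ i ∈ Finset.range M, (k + ((i + 1 : ℕ) : ℤ)) / (M : ℤ) := by
      refine Finset.sum_congr rfl fun i _ => ?_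
      congr 1
      push_cast
      ring
    have h2 := Finset.sum_range_succ' (fun i : ℕ => (k + (i : ℤ)) / (M : ℤ)) M
    have h3 := Finset.sum_range_succ (fun i : ℕ => (k + (i : ℤ)) / (M : ℤ)) M
    have h4 : (k + (M : ℤ)) / (M : ℤ) = k / (M : ℤ) + 1 := by
      rw [Int.add_ediv_of_dvd_right (dvd_refl _), Int.ediv_self hM']
    rw [h1]
    rw [h3, h4] at h2
    simp only [Nat.cast_zero, add_zero] at h2
    linarith
  induction k using Int.induction_on with
  | zero => exact h0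
  | succ k ih => rw [hstep, ih]
  | pred k ih =>
    have := hstep (-k - 1)
    rw [sub_add_cancel, ih] at this
    linarith

lemma sum_abs_shift_div (M : ℕ) (hM : 0 < M) (k k' : ℤ) :
    ∑ i ∈ Finset.range M, |(k + i) / (M : ℤ) - (k' + i) / (M : ℤ)| = |k - k'| := by
  have hM' : (0 : ℤ) < M := by exact_mod_cast hM
  have key : ∀ k k' : ℤ, k' ≤ k →
      ∑ i ∈ Finset.range M, |(k + i) / (M : ℤ) - (k' + i) / (M : ℤ)| = |k - k'| := by
    intro k k' h
    rw [abs_of_nonneg (by linarith : 0 ≤ k - k')]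
    have h1 : ∑ i ∈ Finset.range M, |(k + i) / (M : ℤ) - (k' + i) / (M : ℤ)|
        = ∑ i ∈ Finset.range M, ((k + i) / (M : ℤ) - (k' + i) / (M : ℤ)) := by
      refine Finset.sum_congr rfl fun i _ => abs_of_nonneg ?_
      have : (k' + i) / (M : ℤ) ≤ (k + i) / (M : ℤ) := Int.ediv_le_ediv hM' (by linarith)
      linarith
    rw [h1, Finset.sum_sub_distrib, sum_shift_div M hM, sum_shift_div M hM]
  rcases le_total k' k with h | h
  · exact key k k' h
  · rw [abs_sub_comm k k', ← key k' k h]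
    exact Finset.sum_congr rfl fun i _ => abs_sub_comm _ _

section interp

variable {n : ℕ}

/-- clamping to `[-N, N]` -/
noncomputable def clampN (N : ℕ) (t : ℝ) : ℝ := max (-(N : ℝ)) (min (N : ℝ) t)

lemma abs_clampN_sub_le (N : ℕ) (s t : ℝ) : |clampN N s - clampN N t| ≤ |s - t| := by
  unfold clampN
  have h1 := abs_max_sub_max_le_abs (min (N : ℝ) s) (min (N : ℝ) t) (-(N : ℝ))
  have h2 := abs_min_sub_min_le_max (N : ℝ) s (N : ℝ) t
  rw [max_comm (-(N : ℝ)), max_comm (-(N : ℝ))]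
  refine h1.trans (h2.trans ?_)
  simp only [sub_self, abs_zero]
  exact max_le (abs_nonneg _) le_rfl

lemma abs_clampN_le (N : ℕ) (t : ℝ) : |clampN N t| ≤ N := by
  have hN : (0 : ℝ) ≤ N := Nat.cast_nonneg N
  unfold clampN
  rw [abs_le]
  exact ⟨le_max_left _ _, max_le (by linarith) (min_le_left _ _)⟩

lemma clampN_of_abs_le {N : ℕ} {t : ℝ} (h : |t| ≤ N) : clampN N t = t := by
  rw [abs_le] at h
  unfold clampN
  rw [min_eq_right h.2, max_eq_right h.1]

/-- fine index -/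
noncomputable def fineIdx (N M : ℕ) (t : ℝ) : ℤ := ⌊(M : ℝ) * 2 ^ N * clampN N t⌋

/-- coarse index with offset `i` -/
noncomputable def coarseIdx (N M i : ℕ) (t : ℝ) : ℤ := (fineIdx N M t + i) / (M : ℤ)

/-- grid point -/
noncomputable def gridPt (N : ℕ) (z : Fin n → ℤ) : L1n n :=
  WithLp.toLp 1 (fun j => (z j : ℝ) * ((2 : ℝ) ^ N)⁻¹)

lemma dist_gridPt (N : ℕ) (z w : Fin n → ℤ) :
    dist (gridPt N z) (gridPt N w) = ∑ j, ((|z j - w j| : ℤ) : ℝ) * ((2 : ℝ) ^ N)⁻¹ := by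
  rw [PiLp.dist_eq_of_L1]
  refine Finset.sum_congr rfl fun j _ => ?_
  have h2 : (0 : ℝ) < (2 ^ N)⁻¹ := by positivity
  change dist ((z j : ℝ) * ((2 : ℝ) ^ N)⁻¹) ((w j : ℝ) * ((2 : ℝ) ^ N)⁻¹) = _
  rw [Real.dist_eq, ← sub_mul, abs_mul, abs_of_pos h2]
  push_cast
  rfl

lemma coarseIdx_bound (N M i : ℕ) (hi : i < M) (t : ℝ) :
    coarseIdx N M i t ∈ Set.Icc (-((N * 2 ^ N : ℕ) : ℤ)) ((N * 2 ^ N : ℕ) : ℤ) := by
  have hM : (0 : ℤ) < M := by exact_mod_cast (Nat.zero_le i).trans_lt hi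
  have hMr : (0 : ℝ) < M := by exact_mod_cast hM
  have h1 := abs_le.mp (abs_clampN_le N t)
  have hp : (0 : ℝ) < (M : ℝ) * 2 ^ N := by positivity
  have h2 : -((M : ℤ) * (N * 2 ^ N : ℕ)) ≤ fineIdx N M t := by
    rw [fineIdx, Int.le_floor]
    push_cast
    nlinarith
  have h3 : fineIdx N M t ≤ (M : ℤ) * (N * 2 ^ N : ℕ) := by
    have : ((fineIdx N M t : ℤ) : ℝ) ≤ (M : ℝ) * (N * 2 ^ N : ℕ) := by
      refine (Int.floor_le _).trans ?_
      push_cast
      nlinarith
    exact_mod_cast this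
  constructor
  · rw [coarseIdx, Int.le_ediv_iff_mul_le hM]
    have : (0 : ℤ) ≤ (i : ℤ) := by positivity
    nlinarith
  · rw [coarseIdx]
    have h4 : (fineIdx N M t + i) / (M : ℤ) < (N * 2 ^ N : ℕ) + 1 := by
      rw [Int.ediv_lt_iff_lt_mul hM]
      have : (i : ℤ) < M := by exact_mod_cast hi
      nlinarith
    linarith

lemma fineIdx_zero (N M : ℕ) : fineIdx N M 0 = 0 := by
  have : clampN N 0 = 0 := clampN_of_abs_le (by simp)
  rw [fineIdx, this, mul_zero, Int.floor_zero]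

lemma coarseIdx_zero (N M i : ℕ) (hi : i < M) : coarseIdx N M i 0 = 0 := by
  rw [coarseIdx, fineIdx_zero, zero_add]
  exact Int.ediv_eq_zero_of_lt (by positivity) (by exact_mod_cast hi)

lemma abs_fineIdx_sub_le (N M : ℕ) (s t : ℝ) :
    ((|fineIdx N M s - fineIdx N M t| : ℤ) : ℝ) ≤ (M : ℝ) * 2 ^ N * |s - t| + 1 := by
  have h1 := abs_clampN_sub_le N s t
  have hp : (0 : ℝ) ≤ (M : ℝ) * 2 ^ N := by positivity
  set a := (M : ℝ) * 2 ^ N * clampN N s
  set b := (M : ℝ) * 2 ^ N * clampN N t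
  have hab : |a - b| ≤ (M : ℝ) * 2 ^ N * |s - t| := by
    have : a - b = (M : ℝ) * 2 ^ N * (clampN N s - clampN N t) := by ring
    rw [this, abs_mul, abs_of_nonneg hp]
    exact mul_le_mul_of_nonneg_left h1 hp
  have h3 := Int.floor_le a
  have h4 := Int.lt_floor_add_one a
  have h5 := Int.floor_le b
  have h6 := Int.lt_floor_add_one b
  have h7 := abs_le.mp hab
  have e1 : fineIdx N M s = ⌊a⌋ := rfl
  have e2 : fineIdx N M t = ⌊b⌋ := rfl
  rw [e1, e2]
  push_cast
  rw [abs_le]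
  constructor <;> linarith [h7.1, h7.2]

/-- the averaged sampling of `f` -/
noncomputable def samp (N M : ℕ) (f : Lip0 (L1n n)) (x : L1n n) : ℝ :=
  (∑ i ∈ Finset.range M, f (gridPt N (fun j => coarseIdx N M i (x j)))) / M

lemma samp_zero (N M : ℕ) (f : Lip0 (L1n n)) : samp N M f 0 = 0 := by
  unfold samp
  rw [Finset.sum_eq_zero, zero_div]
  intro i hi
  rw [Finset.mem_range] at hi
  have h1 : (gridPt N (fun j => coarseIdx N M i ((0 : L1n n) j)) : L1n n) = 0 := by
    ext j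
    change ((coarseIdx N M i 0 : ℤ) : ℝ) * _ = 0
    rw [coarseIdx_zero N M i hi]
    simp
  rw [h1, Lip0.map_zero]

lemma samp_sub_le (N M : ℕ) (hM : 0 < M) (f : Lip0 (L1n n)) (x y : L1n n) :
    |samp N M f x - samp N M f y| ≤ ‖f‖ * (dist x y + n * ((2 : ℝ) ^ N)⁻¹ / M) := by
  have hMr : (0 : ℝ) < M := by exact_mod_cast hM
  have h2 : (0 : ℝ) < (2 ^ N)⁻¹ := by positivity
  have h2' : (0 : ℝ) < 2 ^ N := by positivity
  unfold samp
  rw [← sub_div, abs_div, abs_of_pos hMr, div_le_iff₀ hMr, ← Finset.sum_sub_distrib]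
  refine (Finset.abs_sum_le_sum_abs _ _).trans ?_
  calc ∑ i ∈ Finset.range M, |f (gridPt N (fun j => coarseIdx N M i (x j)))
        - f (gridPt N (fun j => coarseIdx N M i (y j)))|
      ≤ ∑ i ∈ Finset.range M, ‖f‖ * ∑ j, ((|coarseIdx N M i (x j)
          - coarseIdx N M i (y j)| : ℤ) : ℝ) * ((2 : ℝ) ^ N)⁻¹ := by
        refine Finset.sum_le_sum fun i _ => ?_
        have := f.abs_sub_le (gridPt N (fun j => coarseIdx N M i (x j)))
          (gridPt N (fun j => coarseIdx N M i (y j)))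
        rwa [dist_gridPt] at this
    _ = ‖f‖ * ∑ j, ((|fineIdx N M (x j) - fineIdx N M (y j)| : ℤ) : ℝ) * ((2 : ℝ) ^ N)⁻¹ := by
        rw [← Finset.mul_sum, Finset.sum_comm]
        congr 1
        refine Finset.sum_congr rfl fun j _ => ?_
        rw [← Finset.sum_mul]
        congr 1
        rw [← sum_abs_shift_div M hM (fineIdx N M (x j)) (fineIdx N M (y j))]
        push_cast
        rfl
    _ ≤ ‖f‖ * ∑ j, ((M : ℝ) * 2 ^ N * |x j - y j| + 1) * ((2 : ℝ) ^ N)⁻¹ := by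
        refine mul_le_mul_of_nonneg_left (Finset.sum_le_sum fun j _ => ?_) (norm_nonneg _)
        exact mul_le_mul_of_nonneg_right (abs_fineIdx_sub_le N M _ _) h2.le
    _ = ‖f‖ * (dist x y + n * ((2 : ℝ) ^ N)⁻¹ / M) * M := by
        rw [PiLp.dist_eq_of_L1]
        have h3 : ∀ j, ((M : ℝ) * 2 ^ N * |x j - y j| + 1) * ((2 : ℝ) ^ N)⁻¹
            = M * dist (x j) (y j) + ((2 : ℝ) ^ N)⁻¹ := by
          intro j
          rw [Real.dist_eq]
          field_simp
        simp only [h3]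
        rw [Finset.sum_add_distrib, ← Finset.mul_sum]
        simp only [Finset.sum_const, Finset.card_univ, Fintype.card_fin, nsmul_eq_mul]
        field_simp

lemma samp_add (N M : ℕ) (f g : Lip0 (L1n n)) (x : L1n n) :
    samp N M (f + g) x = samp N M f x + samp N M g x := by
  simp only [samp, Lip0.add_apply, Finset.sum_add_distrib, add_div]

lemma samp_smul (N M : ℕ) (c : ℝ) (f : Lip0 (L1n n)) (x : L1n n) :
    samp N M (c • f) x = c * samp N M f x := by
  simp only [samp, Lip0.smul_apply, ← Finset.mul_sum, mul_div_assoc]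

lemma samp_bdd (N : ℕ) (f : Lip0 (L1n n)) (x : L1n n) :
    Bdd (fun L : ℕ => samp N (L + 1) f x) := by
  refine ⟨‖f‖ * (dist x 0 + n), fun L => ?_⟩
  have h := samp_sub_le N (L + 1) (Nat.succ_pos L) f x 0
  rw [samp_zero, sub_zero] at h
  refine h.trans (mul_le_mul_of_nonneg_left ?_ (norm_nonneg _))
  have h2 : ((2 : ℝ) ^ N)⁻¹ ≤ 1 := inv_le_one_of_one_le₀ (one_le_pow₀ (by norm_num))
  have h3 : (n : ℝ) * ((2 : ℝ) ^ N)⁻¹ / ((L + 1 : ℕ) : ℝ) ≤ n := by
    rw [div_le_iff₀ (by positivity)]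
    have h4 : (1 : ℝ) ≤ ((L + 1 : ℕ) : ℝ) := by exact_mod_cast Nat.succ_le_succ (Nat.zero_le L)
    have h5 : (0 : ℝ) ≤ n := Nat.cast_nonneg n
    nlinarith [mul_le_mul_of_nonneg_left h2 h5]
  linarith

lemma lim_samp_sub_le (N : ℕ) (f : Lip0 (L1n n)) (x y : L1n n) :
    |ulim hypN (fun L : ℕ => samp N (L + 1) f x) - ulim hypN (fun L : ℕ => samp N (L + 1) f y)|
      ≤ ‖f‖ * dist x y := by
  rw [← ulim_sub _ (samp_bdd N f x) (samp_bdd N f y)]
  refine abs_ulim_le_of_tendsto hypN ((samp_bdd N f x).sub (samp_bdd N f y))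
    (h := fun L : ℕ => ‖f‖ * (dist x y + n * ((2 : ℝ) ^ N)⁻¹ / ((L + 1 : ℕ) : ℝ))) ?_ ?_
  · intro L
    exact samp_sub_le N (L + 1) (Nat.succ_pos L) f x y
  · refine Tendsto.mono_left ?_ hypN_le
    have h1 : Tendsto (fun L : ℕ => (n * ((2 : ℝ) ^ N)⁻¹) / ((L + 1 : ℕ) : ℝ)) atTop (𝓝 0) :=
      tendsto_const_nhds.div_atTop
        (tendsto_natCast_atTop_atTop.comp (tendsto_add_atTop_nat 1))
    have := ((tendsto_const_nhds (x := dist x y)).add h1).const_mul ‖f‖
    simpa using this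

/-- the finite rank operator -/
noncomputable def interp (N : ℕ) : Lip0 (L1n n) →ₗ[ℝ] Lip0 (L1n n) where
  toFun f := Lip0.mk' (fun x => ulim hypN (fun L : ℕ => samp N (L + 1) f x))
    (by simp only [samp_zero, ulim_const]) ‖f‖ (lim_samp_sub_le N f)
  map_add' f g := by
    apply Lip0.ext'
    intro x
    simp only [Lip0.mk'_apply, Lip0.add_apply]
    rw [← ulim_add _ (samp_bdd N f x) (samp_bdd N g x)]
    simp only [samp_add]
  map_smul' c f := by
    apply Lip0.ext'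
    intro x
    simp only [Lip0.mk'_apply, Lip0.smul_apply, RingHom.id_apply]
    rw [← ulim_smul _ c (samp_bdd N f x)]
    simp only [samp_smul]

lemma interp_apply (N : ℕ) (f : Lip0 (L1n n)) (x : L1n n) :
    interp N f x = ulim hypN (fun L : ℕ => samp N (L + 1) f x) := rfl

lemma interp_norm_le (N : ℕ) (f : Lip0 (L1n n)) : ‖interp N f‖ ≤ ‖f‖ :=
  Lip0.norm_le_of_forall (norm_nonneg _) (lim_samp_sub_le N f)

lemma abs_interp_sub_le (N : ℕ) (f : Lip0 (L1n n)) (x : L1n n) (hx : ∀ j, |x j| ≤ N) :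
    |interp N f x - f x| ≤ ‖f‖ * (n * (2 * ((2 : ℝ) ^ N)⁻¹)) := by
  rw [interp_apply]
  have h1 : ulim hypN (fun L : ℕ => samp N (L + 1) f x) - f x
      = ulim hypN (fun L : ℕ => samp N (L + 1) f x - f x) := by
    rw [ulim_sub _ (samp_bdd N f x) (Bdd.const _), ulim_const]
  rw [h1]
  apply abs_ulim_le
  intro L
  have hMr : (0 : ℝ) < ((L + 1 : ℕ) : ℝ) := by positivity
  have h2' : (0 : ℝ) < 2 ^ N := by positivity
  have h3 : samp N (L + 1) f x - f x
      = (∑ i ∈ Finset.range (L + 1), (f (gridPt N (fun j => coarseIdx N (L + 1) i (x j))) - f x))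
        / ((L + 1 : ℕ) : ℝ) := by
    rw [samp, Finset.sum_sub_distrib, sub_div]
    simp only [Finset.sum_const, Finset.card_range, nsmul_eq_mul]
    field_simp
  rw [h3, abs_div, abs_of_pos hMr, div_le_iff₀ hMr]
  refine (Finset.abs_sum_le_sum_abs _ _).trans ?_
  have h4 : ∀ i ∈ Finset.range (L + 1),
      |f (gridPt N (fun j => coarseIdx N (L + 1) i (x j))) - f x|
        ≤ ‖f‖ * (n * (2 * ((2 : ℝ) ^ N)⁻¹)) := by
    intro i hi
    rw [Finset.mem_range] at hi
    refine (f.abs_sub_le _ _).trans (mul_le_mul_of_nonneg_left ?_ (norm_nonneg _))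
    rw [PiLp.dist_eq_of_L1]
    have h5 : ∀ j ∈ (Finset.univ : Finset (Fin n)),
        dist (gridPt N (fun j => coarseIdx N (L + 1) i (x j)) j) (x j) ≤ 2 * ((2 : ℝ) ^ N)⁻¹ := by
      intro j _
      change dist (((coarseIdx N (L + 1) i (x j) : ℤ) : ℝ) * ((2 : ℝ) ^ N)⁻¹) (x j) ≤ _
      set q := coarseIdx N (L + 1) i (x j)
      set k := fineIdx N (L + 1) (x j)
      have hkd : k = ⌊((L + 1 : ℕ) : ℝ) * 2 ^ N * x j⌋ := by
        simp only [k, fineIdx, clampN_of_abs_le (hx j)]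
      have hk1 : (k : ℝ) ≤ ((L + 1 : ℕ) : ℝ) * 2 ^ N * x j := by
        rw [hkd]
        exact Int.floor_le _
      have hk2 : ((L + 1 : ℕ) : ℝ) * 2 ^ N * x j < k + 1 := by
        rw [hkd]
        exact Int.lt_floor_add_one _
      have hMz : (0 : ℤ) < ((L + 1 : ℕ) : ℤ) := by positivity
      have hq1 : q * ((L + 1 : ℕ) : ℤ) ≤ k + i := Int.ediv_mul_le _ hMz.ne'
      have hq2 : k + i < (q + 1) * ((L + 1 : ℕ) : ℤ) := Int.lt_ediv_add_one_mul_self _ hMz
      have hq1' : (q : ℝ) * ((L + 1 : ℕ) : ℝ) ≤ k + i := by exact_mod_cast hq1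
      have hq2' : (k : ℝ) + i < (q + 1) * ((L + 1 : ℕ) : ℝ) := by exact_mod_cast hq2
      have hi' : (i : ℝ) + 1 ≤ ((L + 1 : ℕ) : ℝ) := by exact_mod_cast hi
      have hi0 : (0 : ℝ) ≤ i := Nat.cast_nonneg i
      have hM1 : (1 : ℝ) ≤ ((L + 1 : ℕ) : ℝ) := by exact_mod_cast Nat.succ_le_succ (Nat.zero_le L)
      have h6 : |(q : ℝ) - 2 ^ N * x j| ≤ 2 := by
        rw [abs_le]
        constructor
        · have : (2 ^ N * x j - q) * ((L + 1 : ℕ) : ℝ) ≤ 2 * ((L + 1 : ℕ) : ℝ) := by nlinarith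
          have := le_of_mul_le_mul_right this hMr
          linarith
        · have : (q - 2 ^ N * x j) * ((L + 1 : ℕ) : ℝ) ≤ 2 * ((L + 1 : ℕ) : ℝ) := by nlinarith
          have := le_of_mul_le_mul_right this hMr
          linarith
      rw [Real.dist_eq]
      have h7 : (q : ℝ) * ((2 : ℝ) ^ N)⁻¹ - x j = ((q : ℝ) - 2 ^ N * x j) * ((2 : ℝ) ^ N)⁻¹ := by
        field_simp
      rw [h7, abs_mul, abs_of_pos (inv_pos.mpr h2')]
      exact mul_le_mul_of_nonneg_right h6 (inv_pos.mpr h2').le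
    refine (Finset.sum_le_sum h5).trans ?_
    simp
  refine (Finset.sum_le_sum h4).trans ?_
  simp only [Finset.sum_const, Finset.card_range, nsmul_eq_mul]
  rw [mul_comm]

instance interp_finite (N : ℕ) : FiniteDimensional ℝ (LinearMap.range (interp (n := n) N)) := by
  let J := Fin n → Finset.Icc (-((N * 2 ^ N : ℕ) : ℤ)) ((N * 2 ^ N : ℕ) : ℤ)
  let ρ : Lip0 (L1n n) →ₗ[ℝ] (J → ℝ) :=
    { toFun := fun f z => f (gridPt N (fun j => (z j : ℤ)))
      map_add' := fun f g => rfl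
      map_smul' := fun c f => rfl }
  have hker : LinearMap.ker ρ ≤ LinearMap.ker (interp (n := n) N) := by
    intro f hf
    rw [LinearMap.mem_ker] at hf ⊢
    have hf' : ∀ z : J, f (gridPt N (fun j => (z j : ℤ))) = 0 := fun z => congrFun hf z
    apply Lip0.ext'
    intro x
    rw [interp_apply, Lip0.zero_apply]
    have : ∀ L : ℕ, samp N (L + 1) f x = 0 := by
      intro L
      rw [samp, Finset.sum_eq_zero, zero_div]
      intro i hi
      rw [Finset.mem_range] at hi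
      exact hf' (fun j => ⟨coarseIdx N (L + 1) i (x j),
        Finset.mem_Icc.mpr (coarseIdx_bound N (L + 1) i hi (x j))⟩)
    simp only [this, ulim_const]
  have h1 : FiniteDimensional ℝ (Lip0 (L1n n) ⧸ LinearMap.ker ρ) :=
    LinearEquiv.finiteDimensional ρ.quotKerEquivRange.symm
  have h2 : LinearMap.range (interp (n := n) N)
      = LinearMap.range ((LinearMap.ker ρ).liftQ (interp N) hker) := by
    rw [Submodule.range_liftQ]
  rw [h2]
  infer_instance

end interp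

/-- If all finite-dimensional spaces are `C`-complemented in `Z`, then `Lip₀(ℓ₁^n)` is
`C`-complemented in the `ℓ_∞`-sum of countably many copies of `Z`. -/
theorem l1n_uc_linf (n : ℕ) {Z : Type*} [NormedAddCommGroup Z] [NormedSpace ℝ Z] (C : ℝ)
    (hZ : ∀ (G : Type) [NormedAddCommGroup G] [NormedSpace ℝ G] [FiniteDimensional ℝ G],
      UC C G Z) : UC C (Lip0 (L1n n)) (lp (fun _ : ℕ => Z) ∞) := by
  choose T S hTS hT hS using fun N : ℕ => hZ (LinearMap.range (interp (n := n) N))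
  have hC : 0 ≤ C := (norm_nonneg (T 0)).trans (hT 0)
  let T0 : ∀ N : ℕ, Lip0 (L1n n) →ₗ[ℝ] Z := fun N =>
    (T N : LinearMap.range (interp (n := n) N) →ₗ[ℝ] Z).comp (interp N).rangeRestrict
  have hT0 : ∀ N f, ‖T0 N f‖ ≤ C * ‖f‖ := fun N f =>
    ((T N).le_opNorm _).trans (mul_le_mul (hT N) (interp_norm_le N f) (norm_nonneg _) hC)
  let s : lp (fun _ : ℕ => Z) ∞ → L1n n → ℕ → ℝ := fun z x N =>
    (S N (z N) : Lip0 (L1n n)) x
  have hSz : ∀ (z : lp (fun _ : ℕ => Z) ∞) N, ‖(S N (z N) : Lip0 (L1n n))‖ ≤ C * ‖z‖ :=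
    fun z N =>
    ((S N).le_opNorm _).trans (mul_le_mul (hS N) (linf_norm_apply_le z N) (norm_nonneg _) hC)
  have hsb : ∀ z x, Bdd (s z x) := by
    intro z x
    refine ⟨C * ‖z‖ * dist x 0, fun N => ?_⟩
    exact ((S N (z N) : Lip0 (L1n n)).abs_le x).trans
      (mul_le_mul_of_nonneg_right (hSz z N) dist_nonneg)
  have hsub : ∀ z x y, |ulim hypN (s z x) - ulim hypN (s z y)| ≤ (C * ‖z‖) * dist x y := by
    intro z x y
    rw [← ulim_sub _ (hsb z x) (hsb z y)]
    apply abs_ulim_le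
    intro N
    exact ((S N (z N) : Lip0 (L1n n)).abs_sub_le x y).trans
      (mul_le_mul_of_nonneg_right (hSz z N) dist_nonneg)
  let S0 : lp (fun _ : ℕ => Z) ∞ →ₗ[ℝ] Lip0 (L1n n) :=
    { toFun := fun z => Lip0.mk' (fun x => ulim hypN (s z x))
        (by simp only [s, Lip0.map_zero, ulim_const]) (C * ‖z‖) (hsub z)
      map_add' := by
        intro z w
        apply Lip0.ext'
        intro x
        simp only [Lip0.mk'_apply, Lip0.add_apply]
        rw [← ulim_add _ (hsb z x) (hsb w x)]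
        congr 1
        ext N
        simp only [s, lp.coeFn_add, Pi.add_apply, map_add, Submodule.coe_add, Lip0.add_apply]
      map_smul' := by
        intro c z
        apply Lip0.ext'
        intro x
        simp only [Lip0.mk'_apply, Lip0.smul_apply, RingHom.id_apply]
        rw [← ulim_smul _ c (hsb z x)]
        congr 1
        ext N
        simp only [s, lp.coeFn_smul, Pi.smul_apply, map_smul, Submodule.coe_smul,
          Lip0.smul_apply] }
  refine ⟨linfPi T0 C hC hT0, S0.mkContinuous C (fun z =>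
    Lip0.norm_le_of_forall (by positivity) (hsub z)), fun f => ?_,
    linfPi_norm_le _ _ _ _, LinearMap.mkContinuous_norm_le _ hC _⟩
  apply Lip0.ext'
  intro x
  change ulim hypN (s (linfPi T0 C hC hT0 f) x) = f x
  have h1 : s (linfPi T0 C hC hT0 f) x = fun N => interp N f x := by
    ext N
    change (S N (T N ((interp N).rangeRestrict f)) : Lip0 (L1n n)) x = _
    rw [hTS]
    rfl
  rw [h1]
  apply ulim_eq
  refine Tendsto.mono_left ?_ hypN_le
  rw [tendsto_iff_norm_sub_tendsto_zero]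
  have h2 : Tendsto (fun N : ℕ => ‖f‖ * (n * (2 * ((2 : ℝ) ^ N)⁻¹))) atTop (𝓝 0) := by
    have h3 : Tendsto (fun m : ℕ => ((2 : ℝ) ^ m)⁻¹) atTop (𝓝 0) :=
      tendsto_inv_atTop_zero.comp (tendsto_pow_atTop_atTop_of_one_lt (by norm_num))
    have := ((h3.const_mul 2).const_mul (n : ℝ)).const_mul ‖f‖
    simpa using this
  refine squeeze_zero' (Eventually.of_forall fun _ => norm_nonneg _) ?_ h2
  have h4 : ∀ᶠ N : ℕ in atTop, ‖x‖ ≤ N := tendsto_natCast_atTop_atTop.eventually_ge_atTop _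
  filter_upwards [h4] with N hN
  rw [Real.norm_eq_abs]
  apply abs_interp_sub_le N f x
  intro j
  exact (PiLp.norm_apply_le x j).trans hN

end Pool.Agent.Helper93
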