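import Mathlib
import Pool.Agent.Helper93.Interp
import Pool.Agent.Helper93.DualLip
import Pool.Agent.Helper93.Final

/-!
# Classification of the spaces `Lip₀(E)`
-/

set_option autoImplicit false

namespace Pool.Agent.Helper93

open Filter Topology Cardinal
open scoped ENNReal

universe u v

/-- `Lip₀(ℓ₁^n)` is uniformly complemented in `Lip₀(E)` -/
def LipUniv (E : Type u) [NormedAddCommGroup E] [NormedSpace ℝ E] : Prop :=
  ∃ C : ℝ, ∀ n : ℕ, UC C (Lip0 (L1n n)) (Lip0 E)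

section

variable {E : Type u} [NormedAddCommGroup E] [NormedSpace ℝ E]

/-- countable `ℓ_∞`-sums of `Lip₀(E)` are complemented in `Lip₀(E)` -/
theorem linf_nat_ce (hE : ¬ FiniteDimensional ℝ E) :
    CE (lp (fun _ : ℕ => Lip0 E) ∞) (Lip0 E) := by
  obtain ⟨S, hS1, hS2, hS3, -⟩ := exists_sep_card_ge hE
  have hinf : Infinite S := Cardinal.infinite_iff.mpr hS3
  let f : ℕ × ℕ ↪ S := Nat.pairEquiv.toEmbedding.trans (Infinite.natEmbedding S)
  refine linf_ce_of_sepFam (c := fun p => (f p : E)) (r := 1 / 16) ⟨by norm_num, ?_, ?_⟩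
  · intro i j x hi hj
    by_contra hij
    have h2 : (f i : E) ≠ f j := fun h => hij (f.injective (Subtype.ext h))
    have h3 := hS2 _ (f i).2 _ (f j).2 h2
    have h4 : ‖(f i : E) - f j‖ ≤ ‖x - f i‖ + ‖x - f j‖ := by
      have : (f i : E) - f j = (x - f j) - (x - f i) := by abel
      rw [this, add_comm]
      exact norm_sub_le _ _
    linarith
  · intro i
    rw [hS1 _ (f i).2]
    norm_num

lemma LipUniv.of_ce {F : Type v} [NormedAddCommGroup F] [NormedSpace ℝ F] (h : LipUniv E)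
    (hEF : CE (Lip0 E) (Lip0 F)) : LipUniv F := by
  obtain ⟨C, hC⟩ := h
  obtain ⟨C', -, hC'⟩ := hEF.uc
  exact ⟨C * C', fun n => (hC n).trans hC'⟩

/-- if `E` contains uniformly complemented copies of `ℓ₁^n` then `E` is universal -/
lemma LipUniv.of_l1n (h : ∃ C : ℝ, ∀ n : ℕ, UC C (L1n n) E) : LipUniv E := by
  obtain ⟨C, hC⟩ := h
  exact ⟨C, fun n => (hC n).lip⟩

lemma l1n_uc_l1 (K : Type u) [Infinite K] (n : ℕ) : UC 1 (L1n n) (lp (fun _ : K => ℝ) 1) := by
  obtain ⟨e⟩ : Nonempty (Fin n ↪ K) := ⟨(Function.Embedding.trans Fin.valEmbedding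
    (Infinite.natEmbedding K))⟩
  exact piLp_uc_lp 1 ENNReal.one_ne_top e

lemma lipUniv_l1 (K : Type u) [Infinite K] : LipUniv (lp (fun _ : K => ℝ) 1) :=
  LipUniv.of_l1n ⟨1, l1n_uc_l1 K⟩

/-- universal spaces have the expected universality property -/
theorem LipUniv.ce {Y : Type u} [NormedAddCommGroup Y] [NormedSpace ℝ Y] (h : LipUniv E)
    (hE : ¬ FiniteDimensional ℝ E) (hYE : dens Y ≤ dens E) : CE (Lip0 Y) (Lip0 E) := by
  obtain ⟨C, hC⟩ := h
  have hC0 : 0 ≤ C := by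
    obtain ⟨T, S, -, hT, -⟩ := hC 0
    exact (norm_nonneg T).trans hT
  refine ce_of_local hE hYE (36 * C) (by positivity) fun V hV => ?_
  obtain ⟨m, hm⟩ := lip_uc_l1n V
  exact hm.trans (hC m)

/-- two universal spaces of the same density have isomorphic `Lip₀` -/
theorem LipUniv.equiv {F : Type u} [NormedAddCommGroup F] [NormedSpace ℝ F]
    (hE : LipUniv E) (hF : LipUniv F) (hE' : ¬ FiniteDimensional ℝ E)
    (hF' : ¬ FiniteDimensional ℝ F) (hd : dens E = dens F) : Nonempty (Lip0 E ≃L[ℝ] Lip0 F) :=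
  equiv_of_ce (hF.ce hF' hd.le) (hE.ce hE' hd.ge) (linf_nat_ce hE') (linf_nat_ce hF')

/-- all finite-dimensional spaces are uniformly complemented in `Lip₀(E)` -/
def LocUniv (E : Type u) [NormedAddCommGroup E] [NormedSpace ℝ E] : Prop :=
  ∃ C : ℝ, ∀ (G : Type) [NormedAddCommGroup G] [NormedSpace ℝ G] [FiniteDimensional ℝ G],
    UC C G (Lip0 E)

theorem LipUniv.loc (h : LipUniv E) : LocUniv E := by
  obtain ⟨C, hC⟩ := h
  refine ⟨36 * C, fun G _ _ _ => ?_⟩
  obtain ⟨m, hm⟩ := lip_uc_l1n (StrongDual ℝ G)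
  have := ((fd_uc_lip_dual G).trans hm).trans (hC m)
  rwa [one_mul] at this

theorem LocUniv.lip (h : LocUniv E) (hE : ¬ FiniteDimensional ℝ E) : LipUniv E := by
  obtain ⟨C, hC⟩ := h
  obtain ⟨C', -, hC'⟩ := (linf_nat_ce hE).uc
  exact ⟨C * C', fun n => (l1n_uc_linf n C (fun G => hC G)).trans hC'⟩

/-- `Lip₀` of a Hilbert space is complemented in `Lip₀` of every infinite-dimensional space of at
least the same density. -/
theorem hilbert_ce (hE : ¬ FiniteDimensional ℝ E) {H : Type u} [NormedAddCommGroup H]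
    [InnerProductSpace ℝ H] (hHE : dens H ≤ dens E) : CE (Lip0 H) (Lip0 E) := by
  have : TopologicalSpace.SeparableSpace (lp (fun _ : ℕ => ℝ) 2) :=
    lp_separable 2 ENNReal.ofNat_ne_top
  have h2 : CE (Lip0 (lp (fun _ : ℕ => ℝ) 2)) (Lip0 E) :=
    main_operators E hE (lp (fun _ : ℕ => ℝ) 2)
  obtain ⟨C, hC0, hC⟩ := h2.uc
  refine ce_of_local hE hHE C hC0 fun V hV => ?_
  let d := Module.finrank ℝ V
  let e : V ≃ₗᵢ[ℝ] EuclideanSpace ℝ (Fin d) := (stdOrthonormalBasis ℝ V).repr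
  have h3 : UC 1 V (PiLp 2 (fun _ : Fin d => ℝ)) := by
    refine ⟨e.toContinuousLinearEquiv, e.symm.toContinuousLinearEquiv,
      fun a => e.symm_apply_apply a, ?_, ?_⟩
    · exact ContinuousLinearMap.opNorm_le_bound _ zero_le_one fun x => by
        rw [one_mul]; exact (e.norm_map x).le
    · exact ContinuousLinearMap.opNorm_le_bound _ zero_le_one fun x => by
        rw [one_mul]; exact (e.symm.norm_map x).le
  have h4 : UC 1 (PiLp 2 (fun _ : Fin d => ℝ)) (lp (fun _ : ℕ => ℝ) 2) :=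
    piLp_uc_lp 2 ENNReal.ofNat_ne_top Fin.valEmbedding
  have h5 := (h3.trans h4).lip.trans hC
  rwa [one_mul, one_mul] at h5

/-- transport of `Lip₀` along a linear homeomorphism -/
noncomputable def lipCongr {X Y : Type*} [NormedAddCommGroup X] [NormedSpace ℝ X]
    [NormedAddCommGroup Y] [NormedSpace ℝ Y] (e : X ≃L[ℝ] Y) : Lip0 X ≃L[ℝ] Lip0 Y :=
  ContinuousLinearEquiv.equivOfInverse (lipComp (e.symm : Y →L[ℝ] X)) (lipComp (e : X →L[ℝ] Y))
    (fun f => Lip0.ext' fun x => by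
      simp only [lipComp_apply, ContinuousLinearEquiv.coe_coe, e.symm_apply_apply])
    (fun f => Lip0.ext' fun x => by
      simp only [lipComp_apply, ContinuousLinearEquiv.coe_coe, e.apply_symm_apply])

end

end Pool.Agent.Helper93
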