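import Mathlib
import Pool.Agent.Helper93.LipClass

/-!
# Definitions and lemmas shared by the hand-ins on isomorphism types of `Lip₀(E)`
-/

set_option autoImplicit false

namespace Pool.Agent.Helper93

open scoped ENNReal

universe u

/-- The Banach space `ℓ₁(K)`. -/
abbrev Ell1 (K : Type u) : Type u := lp (fun _ : K => ℝ) 1

/-- The Hilbert space `ℓ₂(K)`. -/
abbrev Ell2 (K : Type u) : Type u := lp (fun _ : K => ℝ) 2

lemma ulift_sep (X : Type) [NormedAddCommGroup X] [h : TopologicalSpace.SeparableSpace X] :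
    TopologicalSpace.SeparableSpace (ULift.{u} X) :=
  (Homeomorph.ulift (X := X)).symm.surjective.denseRange.separableSpace
    (Homeomorph.ulift (X := X)).symm.continuous

lemma ulift_fd (X : Type) [NormedAddCommGroup X] [NormedSpace ℝ X]
    (h : ¬ FiniteDimensional ℝ X) : ¬ FiniteDimensional ℝ (ULift.{u} X) := fun _ =>
  h (LinearEquiv.finiteDimensional
    ((ContinuousLinearEquiv.ulift (R₁ := ℝ) (M₁ := X)).toLinearEquiv : ULift.{u} X ≃ₗ[ℝ] X))

end Pool.Agent.Helper93
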